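import Pool.Agent.U753.UF.Mtp

/-!
# Assembly: choice of the parameters and summability of the changes
-/

set_option linter.unusedSectionVars false

namespace Pool.Agent.U753.UF

open Finset Pool.Agent.TH968.UST Pool.Agent.TH830.UST MeasureTheory ProbabilityTheory
open scoped ENNReal unitInterval

theorem labels_ne {ι : Type*} {i j : ι} (hij : i ≠ j) : ∀ᵐ ω ∂(PW ι), ω i ≠ ω j := by
  have h1 := Measure.infinitePi_map_eval_prod (P := fun _ : ι => (volume : Measure I)) hij
  have hd : MeasurableSet {q : I × I | q.1 = q.2} :=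
    measurableSet_eq_fun measurable_fst measurable_snd
  have h2 : ((volume : Measure I).prod (volume : Measure I)) {q : I × I | q.1 = q.2} = 0 := by
    rw [Measure.measure_prod_null hd]
    refine Filter.Eventually.of_forall fun x => ?_
    have : Prod.mk x ⁻¹' {q : I × I | q.1 = q.2} = {x} := by
      ext y
      simp [eq_comm]
    show (volume : Measure I) (Prod.mk x ⁻¹' {q : I × I | q.1 = q.2}) = 0
    rw [this]
    simp
  rw [← h1, Measure.map_apply ((measurable_pi_apply i).prodMk (measurable_pi_apply j)) hd] at h2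
  rw [ae_iff]
  simp only [ne_eq, not_not]
  exact h2

theorem labels_inj (V : Type*) [Countable V] :
    ∀ᵐ ω ∂(PW (V × ℕ)), Function.Injective fun v : V => ω (v, 0) := by
  have h : ∀ᵐ ω ∂(PW (V × ℕ)), ∀ v w : V, v ≠ w → ω (v, 0) ≠ ω (w, 0) := by
    rw [ae_all_iff]; intro v
    rw [ae_all_iff]; intro w
    by_cases hvw : v = w
    · exact Filter.Eventually.of_forall fun ω h => absurd hvw h
    · filter_upwards [labels_ne (ι := V × ℕ) (i := (v, 0)) (j := (w, 0))
        (fun h => hvw (Prod.mk.inj h).1)] with ω hω _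
      exact hω
  filter_upwards [h] with ω hω v w hvw
  by_contra hne
  exact hω v w hne hvw

variable {V : Type*} [Countable V] [DecidableEq V] [MeasurableSpace V] [DiscreteMeasurableSpace V]

open Classical in
/-- indicator of an event field -/
noncomputable def ind (Q : SimpleGraph V → LS V → V → Prop) :
    SimpleGraph V → LS V → V → ℝ≥0∞ := fun G ω x => if Q G ω x then 1 else 0

theorem ind_nice {Q : SimpleGraph V → LS V → V → Prop}
    (hm : ∀ x, Measurable fun q : SimpleGraph V × LS V => Q q.1 q.2 x)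
    (hi : ∀ (γ : V ≃ V) (G G' : SimpleGraph V), GR γ G G' → ∀ ω ω' : LS V,
      (∀ v k, ω'.1 (γ v, k) = ω.1 (v, k)) → (∀ v k, ω'.2 (γ v, k) = ω.2 (v, k)) →
      ∀ x, Q G' ω' (γ x) ↔ Q G ω x) : Nice (ind Q) := by
  constructor
  · intro x
    exact Measurable.ite (measurableSet_setOfPred.2 (hm x)) measurable_const measurable_const
  · intro γ G G' hG ω ω' h1 h2 x
    have h3 := hi γ G G' hG ω ω' h1 h2 x
    unfold ind
    by_cases h : Q G ω x
    · rw [if_pos h, if_pos (h3.2 h)]
    · rw [if_neg h, if_neg (fun k => h (h3.1 k))]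

variable (R N : ℕ → ℕ)

/-- change at `x` -/
def chQ (n : ℕ) (G : SimpleGraph V) (ω : LS V) (x : V) : Prop :=
  chg (HH R N G ω.1) (fun v => ω.1 (v, 0)) ω.2 n x

/-- new edge at `x` -/
def nwQ (n : ℕ) (G : SimpleGraph V) (ω : LS V) (x : V) : Prop := nw (HH R N G ω.1) n x

/-- missing edge at `x` -/
def unQ (n : ℕ) (G : SimpleGraph V) (ω : LS V) (x : V) : Prop :=
  ∃ y, G.Adj x y ∧ ¬ (HH R N G ω.1 n).Adj x y

/-- bad event at `x` -/
def bdQ (m : ℕ) (G : SimpleGraph V) (ω : LS V) (x : V) : Prop :=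
  ω.1 ∈ bad G (R m) (N m) (m + 1) x

theorem HH_meas2 (n : ℕ) : Measurable fun q : SimpleGraph V × LS V => HH R N q.1 q.2.1 n :=
  meas_HH R N measurable_fst (fun i => (measurable_pi_apply i).comp
    (measurable_fst.comp measurable_snd)) n

theorem TT_meas2 (n : ℕ) (e : Sym2 V) : Measurable fun q : SimpleGraph V × LS V =>
    e ∈ TT (HH R N q.1 q.2.1) (fun v => q.2.1 (v, 0)) q.2.2 n :=
  meas_TT (H := fun q : SimpleGraph V × LS V => HH R N q.1 q.2.1)
    (a := fun q v => q.2.1 (v, 0)) (c := fun q => q.2.2) (HH_meas2 R N)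
    (fun v => (measurable_pi_apply (v, 0)).comp (measurable_fst.comp measurable_snd))
    (fun i => (measurable_pi_apply i).comp (measurable_snd.comp measurable_snd)) n e

theorem chQ_nice (n : ℕ) : Nice (ind (chQ R N n : SimpleGraph V → LS V → V → Prop)) := by
  refine ind_nice ?_ ?_
  · intro x
    unfold chQ chg
    exact Measurable.exists fun y => ((TT_meas2 R N n s(x, y)).iff
      (TT_meas2 R N (n + 1) s(x, y))).not
  · intro γ G G' hG ω ω' h1 h2 x
    unfold chQ chg
    rw [γ.surjective.exists]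
    refine exists_congr fun y => not_congr (iff_congr ?_ ?_)
    · exact TT_equi (fun k => HH_equi hG R N h1 k) (fun v => h1 v 0) h2 n x y
    · exact TT_equi (fun k => HH_equi hG R N h1 k) (fun v => h1 v 0) h2 (n + 1) x y

theorem nwQ_nice (n : ℕ) : Nice (ind (nwQ R N n : SimpleGraph V → LS V → V → Prop)) := by
  refine ind_nice ?_ ?_
  · intro x
    unfold nwQ nw
    exact Measurable.exists fun y =>
      (SimpleGraph.measurable_iff_adj.1 (HH_meas2 R N (n + 1)) x y).and
      (SimpleGraph.measurable_iff_adj.1 (HH_meas2 R N n) x y).not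
  · intro γ G G' hG ω ω' h1 h2 x
    unfold nwQ nw
    rw [γ.surjective.exists]
    exact exists_congr fun y => and_congr (HH_equi hG R N h1 (n + 1) x y)
      (not_congr (HH_equi hG R N h1 n x y))

theorem unQ_nice (n : ℕ) : Nice (ind (unQ R N n : SimpleGraph V → LS V → V → Prop)) := by
  refine ind_nice ?_ ?_
  · intro x
    unfold unQ
    exact Measurable.exists fun y =>
      (SimpleGraph.measurable_iff_adj.1 measurable_fst x y).and
      (SimpleGraph.measurable_iff_adj.1 (HH_meas2 R N n) x y).not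
  · intro γ G G' hG ω ω' h1 h2 x
    unfold unQ
    rw [γ.surjective.exists]
    exact exists_congr fun y => and_congr (hG x y) (not_congr (HH_equi hG R N h1 n x y))

theorem bdQ_nice (m : ℕ) : Nice (ind (bdQ R N m : SimpleGraph V → LS V → V → Prop)) := by
  refine ind_nice ?_ ?_
  · intro x
    show Measurable fun q : SimpleGraph V × LS V =>
      ∃ y, q.1.Adj x y ∧ ¬ rl q.1 (R m) (N m) (fun s => q.2.1 (s, m + 1)) x y
    exact Measurable.exists fun y =>
      (SimpleGraph.measurable_iff_adj.1 measurable_fst x y).and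
      (meas_rl (G := fun q : SimpleGraph V × LS V => q.1) (b := fun q s => q.2.1 (s, m + 1))
        measurable_fst (fun s => (measurable_pi_apply (s, m + 1)).comp
          (measurable_fst.comp measurable_snd)) (R m) (N m) x y).not
  · intro γ G G' hG ω ω' h1 h2 x
    show (∃ y, G'.Adj (γ x) y ∧ ¬ rl G' (R m) (N m) (fun s => ω'.1 (s, m + 1)) (γ x) y) ↔
      (∃ y, G.Adj x y ∧ ¬ rl G (R m) (N m) (fun s => ω.1 (s, m + 1)) x y)
    rw [γ.surjective.exists]
    exact exists_congr fun y => and_congr (hG x y) (not_congr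
      (rl_equi hG (R m) (N m) (b := fun s => ω.1 (s, m + 1)) (b' := fun s => ω'.1 (s, m + 1))
        (fun v => h1 v (m + 1)) x y))

/-- mean value -/
noncomputable def MM (μ : Measure (SimpleGraph V × V)) (h : SimpleGraph V → LS V → V → ℝ≥0∞) :
    ℝ≥0∞ := ∫⁻ p, ∫⁻ ω, h p.1 ω p.2 ∂(PL V) ∂μ

theorem MM_mono (μ : Measure (SimpleGraph V × V)) {h k : SimpleGraph V → LS V → V → ℝ≥0∞}
    (hk : ∀ G ω x, h G ω x ≤ k G ω x) : MM μ h ≤ MM μ k :=
  lintegral_mono fun p => lintegral_mono fun ω => hk p.1 ω p.2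

theorem MM_tsum {ι : Type*} [Countable ι] (μ : Measure (SimpleGraph V × V))
    {h : ι → SimpleGraph V → LS V → V → ℝ≥0∞} (hn : ∀ i, Nice (h i)) :
    MM μ (fun G ω x => ∑' i, h i G ω x) = ∑' i, MM μ (h i) := by
  unfold MM
  rw [← lintegral_tsum]
  · refine lintegral_congr fun p => ?_
    rw [lintegral_tsum]
    intro i
    exact (((hn i).meas p.2).comp (measurable_const.prodMk measurable_id)).aemeasurable
  · intro i
    exact (measurable_from_prod_countable_left fun x => (hn i).int_meas x).aemeasurable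

theorem Nice.tsum {ι : Type*} [Countable ι] {h : ι → SimpleGraph V → LS V → V → ℝ≥0∞}
    (hn : ∀ i, Nice (h i)) : Nice (fun G ω x => ∑' i, h i G ω x) := by
  constructor
  · intro x
    exact Measurable.tsum fun i => (hn i).meas x
  · intro γ G G' hG ω ω' h1 h2 x
    exact tsum_congr fun i => (hn i).inv γ G G' hG ω ω' h1 h2 x

theorem Nice.mul_const {h : SimpleGraph V → LS V → V → ℝ≥0∞} (hn : Nice h) (c : ℝ≥0∞) :
    Nice (fun G ω x => c * h G ω x) := by
  constructor
  · intro x
    exact measurable_const.mul (hn.meas x)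
  · intro γ G G' hG ω ω' h1 h2 x
    show c * h G' ω' (γ x) = c * h G ω x
    rw [hn.inv γ G G' hG ω ω' h1 h2 x]

/-- the changes are controlled by the new edges -/
theorem MM_ch {μ : Measure (SimpleGraph V × V)} (hμ : MassTransport μ)
    (hLF : ∀ᵐ p ∂μ, LF p.1) (n : ℕ) :
    MM μ (ind (chQ R N n)) ≤ 4 * MM μ (ind (nwQ R N n)) := by
  classical
  have h0 : 4 * MM μ (ind (nwQ R N n)) = MM μ (fun G ω x => 4 * ind (nwQ R N n) G ω x) := by
    unfold MM
    rw [← lintegral_const_mul]
    · refine lintegral_congr fun p => ?_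
      rw [lintegral_const_mul]
      exact ((nwQ_nice R N n).meas p.2).comp (measurable_const.prodMk measurable_id)
    · exact measurable_from_prod_countable_left fun x => (nwQ_nice R N n).int_meas x
  rw [h0]
  unfold MM
  rw [mt_avg R N n hμ hLF (chQ_nice R N n), mt_avg R N n hμ hLF ((nwQ_nice R N n).mul_const 4)]
  refine lintegral_mono_ae ?_
  filter_upwards [hLF] with p hp
  refine lintegral_mono_ae ?_
  have hinj : ∀ᵐ ω ∂(PL V), Function.Injective fun v : V => ω.1 (v, 0) :=
    Measure.quasiMeasurePreserving_fst.ae (labels_inj V)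
  filter_upwards [hinj] with ω hω
  refine ENNReal.div_le_div_right ?_ _
  obtain ⟨C, hC, hx⟩ := HH_fin (R := R) (N := N) (ω := ω.1) hp (n + 1) p.2
  rw [cd_comp R N n hC hx, cd_comp R N n hC hx]
  have h1 := chg_count ω.2 (HH_good (R := R) (N := N) (ω := ω.1) hp) hω n hC
  unfold ind
  rw [← Finset.mul_sum, Finset.sum_boole, Finset.sum_boole]
  unfold chQ nwQ
  exact_mod_cast h1

end Pool.Agent.U753.UF
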