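import Pool.Agent.U753.UF.Asm

/-!
# Assembly: parameters, almost sure convergence
-/

set_option linter.unusedSectionVars false

namespace Pool.Agent.U753.UF

open Finset Pool.Agent.TH968.UST Pool.Agent.TH830.UST MeasureTheory ProbabilityTheory
open scoped ENNReal unitInterval

variable {V : Type*} [Countable V] [DecidableEq V] [MeasurableSpace V] [DiscreteMeasurableSpace V]

theorem exists_par {μ : Measure (SimpleGraph V × V)} [IsProbabilityMeasure μ]
    (hG : ∀ᵐ p ∂μ, LF p.1 ∧ p.1.Connected ∧ Recurrent p.1) {δ : ℝ≥0∞} (hδ : 0 < δ) (k : ℕ) :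
    ∃ R N : ℕ, ∫⁻ p, PW (V × ℕ) (bad p.1 R N k p.2) ∂μ ≤ δ := by
  obtain ⟨R, hR⟩ : ∃ R : ℕ, ENNReal.ofReal (Real.exp (-R)) ≤ δ / 2 := by
    have h1 : Filter.Tendsto (fun R : ℕ => ENNReal.ofReal (Real.exp (-(R : ℝ)))) Filter.atTop
        (nhds 0) := by
      have h2 := ENNReal.tendsto_ofReal (Real.tendsto_exp_neg_atTop_nhds_zero.comp
        tendsto_natCast_atTop_atTop)
      simpa using h2
    have h3 := (ENNReal.tendsto_nhds_zero.1 h1) (δ / 2) (ENNReal.half_pos hδ.ne')
    exact h3.exists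
  have hm : ∀ N, Measurable fun p : SimpleGraph V × V => min 1 (Psi p.1 R N p.2) := by
    intro N
    refine measurable_const.min ?_
    exact measurable_from_prod_countable_left fun x => meas_Psi measurable_id R N x
  have h1 : Filter.Tendsto (fun N => ∫⁻ p, min 1 (Psi p.1 R N p.2) ∂μ) Filter.atTop
      (nhds (∫⁻ _p : SimpleGraph V × V, 0 ∂μ)) := by
    refine tendsto_lintegral_of_dominated_convergence (fun _ => 1) hm
      (fun N => Filter.Eventually.of_forall fun p => min_le_left _ _) (by simp) ?_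
    filter_upwards [hG] with p hp
    have h2 := Psi_tendsto hp.1 hp.2.1 hp.2.2 R p.2
    have h3 : Filter.Tendsto (fun N => min 1 (Psi p.1 R N p.2)) Filter.atTop
        (nhds (min 1 0)) := tendsto_const_nhds.min h2
    simpa using h3
  rw [lintegral_zero] at h1
  have h2 := (ENNReal.tendsto_nhds_zero.1 h1) (δ / 2) (ENNReal.half_pos hδ.ne')
  obtain ⟨N, hN, hN0⟩ := (h2.and (Filter.eventually_ne_atTop 0)).exists
  refine ⟨R, N, ?_⟩
  calc ∫⁻ p, PW (V × ℕ) (bad p.1 R N k p.2) ∂μ
      ≤ ∫⁻ p, (δ / 2 + min 1 (Psi p.1 R N p.2)) ∂μ := by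
        refine lintegral_mono_ae ?_
        filter_upwards [hG] with p hp
        rcases le_total 1 (Psi p.1 R N p.2) with h | h
        · rw [min_eq_left h]
          exact prob_le_one.trans le_add_self
        · rw [min_eq_right h]
          exact (mism hp.1 hp.2.1 R hN0 k p.2).trans (add_le_add_left hR _)
    _ = δ / 2 + ∫⁻ p, min 1 (Psi p.1 R N p.2) ∂μ := by
        rw [lintegral_add_left measurable_const, lintegral_const, measure_univ, mul_one]
    _ ≤ δ / 2 + δ / 2 := add_le_add_right hN _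
    _ = δ := ENNReal.add_halves δ

/-- the admissible size of the error at level `m` -/
noncomputable def dlt (m : ℕ) : ℝ≥0∞ := (2⁻¹ : ℝ≥0∞) ^ m / ((m : ℝ≥0∞) + 1)

theorem dlt_pos (m : ℕ) : 0 < dlt m := by
  unfold dlt
  refine ENNReal.div_pos ?_ ?_
  · exact pow_ne_zero _ (by simp)
  · exact ENNReal.add_ne_top.2 ⟨ENNReal.natCast_ne_top m, ENNReal.one_ne_top⟩

theorem dlt_sum : ∑' k : ℕ, ∑' m : ℕ, (if k ≤ m then dlt m else 0) ≠ ⊤ := by
  rw [ENNReal.tsum_comm]
  have h1 : ∀ m : ℕ, ∑' k : ℕ, (if k ≤ m then dlt m else 0) = (2⁻¹ : ℝ≥0∞) ^ m := by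
    intro m
    rw [tsum_eq_sum (s := range (m + 1))]
    · have h2 : ∀ k ∈ range (m + 1), (if k ≤ m then dlt m else 0) = dlt m := by
        intro k hk
        rw [Finset.mem_range] at hk
        exact if_pos (by omega)
      rw [Finset.sum_congr rfl h2, Finset.sum_const, Finset.card_range, nsmul_eq_mul]
      unfold dlt
      rw [Nat.cast_add, Nat.cast_one]
      refine ENNReal.mul_div_cancel ?_ ?_
      · simp
      · exact ENNReal.add_ne_top.2 ⟨ENNReal.natCast_ne_top m, ENNReal.one_ne_top⟩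
    · intro k hk
      rw [Finset.mem_range] at hk
      exact if_neg (by omega)
  simp only [h1]
  rw [ENNReal.tsum_geometric]
  simp

variable {R N : ℕ → ℕ}

theorem bd_MM (μ : Measure (SimpleGraph V × V)) (m : ℕ) :
    MM μ (ind (bdQ R N m)) = ∫⁻ p, PW (V × ℕ) (bad p.1 (R m) (N m) (m + 1) p.2) ∂μ := by
  classical
  unfold MM
  refine lintegral_congr fun p => ?_
  have hbm : MeasurableSet (bad p.1 (R m) (N m) (m + 1) p.2) := by
    show MeasurableSet {ω : V × ℕ → I | ∃ y, p.1.Adj p.2 y ∧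
      ¬ rl p.1 (R m) (N m) (fun s => ω (s, m + 1)) p.2 y}
    apply measurableSet_setOfPred.2
    exact Measurable.exists fun y => measurable_const.and
      (meas_rl (G := fun _ : V × ℕ → I => p.1) (b := fun ω s => ω (s, m + 1))
        measurable_const (fun s => measurable_pi_apply (s, m + 1)) (R m) (N m) p.2 y).not
  have h1 : ∀ ω : LS V, ind (bdQ R N m) p.1 ω p.2 =
      (Prod.fst ⁻¹' (bad p.1 (R m) (N m) (m + 1) p.2)).indicator (fun _ => (1 : ℝ≥0∞)) ω := by
    intro ω
    unfold ind bdQ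
    by_cases h : ω.1 ∈ bad p.1 (R m) (N m) (m + 1) p.2
    · have h' : ω ∈ Prod.fst ⁻¹' (bad p.1 (R m) (N m) (m + 1) p.2) := h
      rw [if_pos h, Set.indicator_of_mem h']
    · have h' : ω ∉ Prod.fst ⁻¹' (bad p.1 (R m) (N m) (m + 1) p.2) := h
      rw [if_neg h, Set.indicator_of_notMem h']
  simp only [h1]
  rw [lintegral_indicator (measurable_fst hbm), lintegral_const, Measure.restrict_apply_univ,
    one_mul]
  exact (measurePreserving_fst (μ := PW (V × ℕ)) (ν := PW (V × ℕ))).measure_preimage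
    hbm.nullMeasurableSet

theorem un_le (k : ℕ) (G : SimpleGraph V) (ω : LS V) (x : V) :
    ind (unQ R N (k + 1)) G ω x ≤ ∑' m : ℕ, (if k ≤ m then 1 else 0) * ind (bdQ R N m) G ω x := by
  classical
  unfold ind
  by_cases h : unQ R N (k + 1) G ω x
  · obtain ⟨y, hy, hn⟩ := h
    rw [HH_adj] at hn
    push Not at hn
    obtain ⟨m, hm, hrl⟩ := hn hy
    refine le_trans ?_ (ENNReal.le_tsum m)
    rw [if_pos hm, one_mul]
    have hb : bdQ R N m G ω x := ⟨y, hy, hrl⟩
    rw [if_pos hb]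
    split_ifs
    · exact le_rfl
    · exact zero_le
  · rw [if_neg h]
    exact zero_le

/-- total number of relevant events at `x` -/
noncomputable def tot (R N : ℕ → ℕ) : SimpleGraph V → LS V → V → ℝ≥0∞ :=
  fun G ω x => ∑' k : ℕ, (∑' b : Bool, (if b then ind (unQ R N (k + 1)) G ω x
    else ind (chQ R N (k + 1)) G ω x))

theorem tot_nice : Nice (tot R N : SimpleGraph V → LS V → V → ℝ≥0∞) := by
  refine Nice.tsum (h := fun (k : ℕ) G ω x => ∑' b : Bool, (if b then
    ind (unQ R N (k + 1)) G ω x else ind (chQ R N (k + 1)) G ω x)) fun k => ?_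
  refine Nice.tsum (h := fun (b : Bool) G ω x => (if b then
    ind (unQ R N (k + 1)) G ω x else ind (chQ R N (k + 1)) G ω x)) fun b => ?_
  cases b
  · simpa using chQ_nice R N (k + 1)
  · simpa using unQ_nice R N (k + 1)

theorem tot_fin {μ : Measure (SimpleGraph V × V)} (hμ : MassTransport μ)
    (hLF : ∀ᵐ p ∂μ, LF p.1)
    (hpar : ∀ m, ∫⁻ p, PW (V × ℕ) (bad p.1 (R m) (N m) (m + 1) p.2) ∂μ ≤ dlt m) :
    MM μ (tot R N) ≠ ⊤ := by
  classical
  have hun : ∀ k, MM μ (ind (unQ R N (k + 1))) ≤ ∑' m : ℕ, (if k ≤ m then dlt m else 0) := by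
    intro k
    refine (MM_mono μ (un_le k)).trans ?_
    rw [MM_tsum μ (h := fun (m : ℕ) G ω x => (if k ≤ m then 1 else 0) * ind (bdQ R N m) G ω x)
      (fun m => (bdQ_nice R N m).mul_const _)]
    refine ENNReal.tsum_le_tsum fun m => ?_
    by_cases hkm : k ≤ m
    · rw [if_pos hkm, if_pos hkm]
      have : MM μ (fun (G : SimpleGraph V) ω x => 1 * ind (bdQ R N m) G ω x) =
          MM μ (ind (bdQ R N m)) := by
        simp only [one_mul]
      rw [this, bd_MM]
      exact hpar m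
    · rw [if_neg hkm, if_neg hkm]
      have : MM μ (fun (G : SimpleGraph V) ω x => 0 * ind (bdQ R N m) G ω x) = 0 := by
        unfold MM
        simp
      rw [this]
  have hch : ∀ k, MM μ (ind (chQ R N (k + 1))) ≤ 4 * MM μ (ind (unQ R N (k + 1))) := by
    intro k
    refine (MM_ch R N hμ hLF (k + 1)).trans (mul_le_mul_right ?_ 4)
    refine MM_mono μ fun G ω x => ?_
    unfold ind
    by_cases h : nwQ R N (k + 1) G ω x
    · have h' : unQ R N (k + 1) G ω x := by
        obtain ⟨y, h1, h2⟩ := h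
        exact ⟨y, HH_le _ h1, h2⟩
      rw [if_pos h, if_pos h']
    · rw [if_neg h]; exact zero_le
  have hsum : MM μ (tot R N) ≤ ∑' k : ℕ, 5 * ∑' m : ℕ, (if k ≤ m then dlt m else 0) := by
    unfold tot
    rw [MM_tsum μ (h := fun (k : ℕ) G ω x => ∑' b : Bool, (if b then
      ind (unQ R N (k + 1)) G ω x else ind (chQ R N (k + 1)) G ω x))]
    · refine ENNReal.tsum_le_tsum fun k => ?_
      rw [MM_tsum μ (h := fun (b : Bool) G ω x => (if b then
        ind (unQ R N (k + 1)) G ω x else ind (chQ R N (k + 1)) G ω x))]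
      · rw [tsum_bool]
        have e1 : MM μ (fun (G : SimpleGraph V) ω x => if (false : Bool) = true then
            ind (unQ R N (k + 1)) G ω x else ind (chQ R N (k + 1)) G ω x) =
            MM μ (ind (chQ R N (k + 1))) := by
          simp
        have e2 : MM μ (fun (G : SimpleGraph V) ω x => if (true : Bool) = true then
            ind (unQ R N (k + 1)) G ω x else ind (chQ R N (k + 1)) G ω x) =
            MM μ (ind (unQ R N (k + 1))) := by
          simp
        rw [e1, e2]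
        calc MM μ (ind (chQ R N (k + 1))) + MM μ (ind (unQ R N (k + 1)))
            ≤ 4 * MM μ (ind (unQ R N (k + 1))) + 1 * MM μ (ind (unQ R N (k + 1))) := by
              rw [one_mul]
              exact add_le_add_left (hch k) _
          _ = 5 * MM μ (ind (unQ R N (k + 1))) := by
              rw [← add_mul]; norm_num
          _ ≤ _ := mul_le_mul_right (hun k) 5
      · intro b
        cases b
        · simpa using chQ_nice R N (k + 1)
        · simpa using unQ_nice R N (k + 1)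
    · intro k
      refine Nice.tsum (h := fun (b : Bool) G ω x => (if b then
        ind (unQ R N (k + 1)) G ω x else ind (chQ R N (k + 1)) G ω x)) fun b => ?_
      cases b
      · simpa using chQ_nice R N (k + 1)
      · simpa using unQ_nice R N (k + 1)
  refine ne_top_of_le_ne_top ?_ hsum
  rw [ENNReal.tsum_mul_left]
  exact ENNReal.mul_ne_top (by norm_num) dlt_sum

/-- the good graphs -/
theorem ae_good {μ : Measure (SimpleGraph V × V)} (hμ : MassTransport μ)
    (hLF : ∀ᵐ p ∂μ, LF p.1)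
    (hpar : ∀ m, ∫⁻ p, PW (V × ℕ) (bad p.1 (R m) (N m) (m + 1) p.2) ∂μ ≤ dlt m) :
    ∀ᵐ p ∂μ, ∀ x, ∫⁻ ω, tot R N p.1 ω x ∂(PL V) ≠ ⊤ := by
  refine root_all hμ (fun G x => ∫⁻ ω, tot R N G ω x ∂(PL V)) (fun x => tot_nice.int_meas x)
    ?_ (tot_fin hμ hLF hpar)
  intro γ G x
  exact tot_nice.int_inv γ (GR_map γ G) x

theorem ev_zero {f : ℕ → ℝ≥0∞} (hf : ∑' n, f n ≠ ⊤) {Q : ℕ → Prop}
    (hQ : ∀ n, Q n → 1 ≤ f n) : ∃ n0, ∀ n, n0 ≤ n → ¬ Q n := by
  have h1 := ENNReal.tendsto_atTop_zero_of_tsum_ne_top hf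
  have h2 := (tendsto_order.1 h1).2 1 one_pos
  obtain ⟨n0, hn0⟩ := Filter.eventually_atTop.1 h2
  exact ⟨n0, fun n hn hq => absurd (hn0 n hn) (not_lt.2 (hQ n hq))⟩

/-- for a good graph the events stop almost surely -/
theorem ae_stop {G : SimpleGraph V} (h : ∀ x, ∫⁻ ω, tot R N G ω x ∂(PL V) ≠ ⊤) :
    ∀ᵐ ω ∂(PL V), ∀ x, ∃ n0, ∀ k, n0 ≤ k → ¬ unQ R N (k + 1) G ω x ∧
      ¬ chQ R N (k + 1) G ω x := by
  classical
  rw [ae_all_iff]
  intro x
  have hm : Measurable fun ω : LS V => tot R N G ω x :=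
    (tot_nice.meas x).comp (measurable_const.prodMk measurable_id)
  filter_upwards [ae_lt_top hm (h x)] with ω hω
  obtain ⟨n0, hn0⟩ := ev_zero hω.ne (Q := fun k => unQ R N (k + 1) G ω x ∨
      chQ R N (k + 1) G ω x) (by
    intro k hk
    rcases hk with hk | hk
    · refine le_trans ?_ (ENNReal.le_tsum true)
      simp [ind, hk]
    · refine le_trans ?_ (ENNReal.le_tsum false)
      simp [ind, hk])
  exact ⟨n0, fun k hk => not_or.1 (hn0 k hk)⟩

end Pool.Agent.U753.UF
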