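import Pool.Agent.U753.UF.Pot

/-!
# The monotone coupling of uniform spanning forests and the count of changes
-/

set_option linter.unusedSectionVars false

namespace Pool.Agent.U753.UF

open Finset Pool.Agent.TH968.UST Pool.Agent.TH830.UST MeasureTheory
open Pool.Agent.TH830.J74 (dom trees_card_eq)
open Pool.Agent.TH830.J73 (RM)
open scoped ENNReal unitInterval

variable {V : Type*} [DecidableEq V]

theorem hall_cpl (E E' : Finset (Sym2 V)) (hE : E ⊆ E') :
    ∃ f : (↥(trees ⊥ E') × Fin (trees ⊥ E).card) → (↥(trees ⊥ E) × Fin (trees ⊥ E').card),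
      Function.Injective f ∧ ∀ p, p.1.1 ∩ E ⊆ (f p).1.1 := by
  classical
  let t : (↥(trees ⊥ E') × Fin (trees ⊥ E).card) →
      Finset (↥(trees ⊥ E) × Fin (trees ⊥ E').card) :=
    fun p => Finset.univ.filter (fun q => p.1.1 ∩ E ⊆ q.1.1)
  have hall : ∀ s : Finset (↥(trees ⊥ E') × Fin (trees ⊥ E).card),
      s.card ≤ (s.biUnion t).card := by
    intro s
    let X : Finset ↥(trees ⊥ E') := s.image Prod.fst
    let g : Finset (Sym2 V) → ℝ := fun S => if ∃ T ∈ X, T.1 ∩ E ⊆ S then 1 else 0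
    have hg : ∀ S T, S ⊆ T → g S ≤ g T := by
      intro S T hST
      simp only [g]
      split_ifs with h1 h2
      · exact le_rfl
      · obtain ⟨U, hU, hUS⟩ := h1
        exact absurd ⟨U, hU, hUS.trans hST⟩ h2
      · norm_num
      · exact le_rfl
    have h1 := dom (fun r r' hr E E' hE e he => RM r r' hr E E' hE e he) ⊥ ⊥ le_rfl E' E hE g hg
    have h2 : (X.card : ℝ) ≤ ∑ T ∈ trees ⊥ E', g (T ∩ E) := by
      have h3 : ∑ T ∈ X.map (Function.Embedding.subtype _), g (T ∩ E) ≤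
          ∑ T ∈ trees ⊥ E', g (T ∩ E) := by
        refine Finset.sum_le_sum_of_subset_of_nonneg ?_ ?_
        · intro T hT
          obtain ⟨U, -, rfl⟩ := Finset.mem_map.1 hT
          exact U.2
        · intro T _ _
          simp only [g]; split_ifs <;> norm_num
      refine le_trans ?_ h3
      rw [Finset.sum_map]
      have h4 : ∀ T ∈ X, g ((Function.Embedding.subtype _) T ∩ E) = 1 := by
        intro T hT
        simp only [g]
        rw [if_pos ⟨T, hT, fun _ h => h⟩]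
      rw [Finset.sum_congr rfl h4]
      simp
    let Y : Finset ↥(trees ⊥ E) := Finset.univ.filter (fun S => ∃ T ∈ X, T.1 ∩ E ⊆ S.1)
    have h5 : ∑ S ∈ trees ⊥ E, g S = (Y.card : ℝ) := by
      rw [← Finset.sum_coe_sort]
      simp only [g, Y]
      rw [Finset.sum_boole]
    rw [h5] at h1
    have h6 : X.card * (trees ⊥ E).card ≤ Y.card * (trees ⊥ E').card := by
      have : (X.card : ℝ) * ((trees ⊥ E).card : ℝ) ≤ (Y.card : ℝ) * ((trees ⊥ E').card : ℝ) :=
        (mul_le_mul_of_nonneg_right h2 (Nat.cast_nonneg _)).trans h1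
      exact_mod_cast this
    have h7 : s.card ≤ X.card * (trees ⊥ E).card := by
      have : s ⊆ X ×ˢ (Finset.univ : Finset (Fin (trees ⊥ E).card)) := by
        intro p hp
        exact Finset.mem_product.2 ⟨Finset.mem_image_of_mem _ hp, Finset.mem_univ _⟩
      refine (Finset.card_le_card this).trans ?_
      rw [Finset.card_product, Finset.card_univ, Fintype.card_fin]
    have h8 : Y.card * (trees ⊥ E').card ≤ (s.biUnion t).card := by
      have : Y ×ˢ (Finset.univ : Finset (Fin (trees ⊥ E').card)) ⊆ s.biUnion t := by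
        intro q hq
        obtain ⟨hq1, -⟩ := Finset.mem_product.1 hq
        obtain ⟨-, T, hT, hTS⟩ := Finset.mem_filter.1 hq1
        obtain ⟨p, hp, rfl⟩ := Finset.mem_image.1 hT
        exact Finset.mem_biUnion.2 ⟨p, hp, Finset.mem_filter.2 ⟨Finset.mem_univ _, hTS⟩⟩
      refine le_trans ?_ (Finset.card_le_card this)
      rw [Finset.card_product, Finset.card_univ, Fintype.card_fin]
    exact h7.trans (h6.trans h8)
  obtain ⟨f, hf1, hf2⟩ := (Finset.all_card_le_biUnion_card_iff_exists_injective t).1 hall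
  exact ⟨f, hf1, fun p => (Finset.mem_filter.1 (hf2 p)).2⟩

theorem hall_equiv (E E' : Finset (Sym2 V)) (hE : E ⊆ E') :
    ∃ f : (↥(trees ⊥ E') × Fin (trees ⊥ E).card) ≃ (↥(trees ⊥ E) × Fin (trees ⊥ E').card),
      ∀ p, p.1.1 ∩ E ⊆ (f p).1.1 := by
  obtain ⟨f, h1, h2⟩ := hall_cpl E E' hE
  have hb : Function.Bijective f := by
    rw [Fintype.bijective_iff_injective_and_card]
    refine ⟨h1, ?_⟩
    simp [mul_comm]
  exact ⟨Equiv.ofBijective f hb, h2⟩

open Classical in
/-- the coupling map: from a tree `S` of `E` and a number `j`, a tree of `E'` -/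
noncomputable def cplF (E E' S : Finset (Sym2 V)) (j : ℕ) : Finset (Sym2 V) :=
  if h : E ⊆ E' ∧ S ∈ trees ⊥ E ∧ j < (trees ⊥ E').card then
    ((hall_equiv E E' h.1).choose.symm (⟨S, h.2.1⟩, ⟨j, h.2.2⟩)).1.1 else ∅

theorem cplF_mem {E E' S : Finset (Sym2 V)} {j : ℕ} (hE : E ⊆ E') (hS : S ∈ trees ⊥ E)
    (hj : j < (trees ⊥ E').card) :
    cplF E E' S j ∈ trees ⊥ E' ∧ cplF E E' S j ∩ E ⊆ S := by
  unfold cplF
  rw [dif_pos ⟨hE, hS, hj⟩]
  refine ⟨((hall_equiv E E' hE).choose.symm (⟨S, hS⟩, ⟨j, hj⟩)).1.2, ?_⟩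
  have h := (hall_equiv E E' hE).choose_spec
    ((hall_equiv E E' hE).choose.symm (⟨S, hS⟩, ⟨j, hj⟩))
  rw [Equiv.apply_symm_apply] at h
  exact h

theorem cplF_count {E E' : Finset (Sym2 V)} (hE : E ⊆ E') {T : Finset (Sym2 V)}
    (hT : T ∈ trees ⊥ E') :
    ((trees ⊥ E ×ˢ range (trees ⊥ E').card).filter (fun p => cplF E E' p.1 p.2 = T)).card =
      (trees ⊥ E).card := by
  classical
  set f := (hall_equiv E E' hE).choose with hf
  have key : ∀ (S : Finset (Sym2 V)) (hS : S ∈ trees ⊥ E) (j : ℕ) (hj : j < (trees ⊥ E').card),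
      cplF E E' S j = (f.symm (⟨S, hS⟩, ⟨j, hj⟩)).1.1 := by
    intro S hS j hj
    unfold cplF
    rw [dif_pos ⟨hE, hS, hj⟩]
  symm
  rw [← Fintype.card_fin (trees ⊥ E).card, ← Finset.card_univ]
  refine Finset.card_bij (fun i _ => ((f (⟨T, hT⟩, i)).1.1, ((f (⟨T, hT⟩, i)).2 : ℕ))) ?_ ?_ ?_
  · intro i _
    rw [Finset.mem_filter, Finset.mem_product]
    refine ⟨⟨(f (⟨T, hT⟩, i)).1.2, Finset.mem_range.2 (f (⟨T, hT⟩, i)).2.2⟩, ?_⟩
    rw [key _ (f (⟨T, hT⟩, i)).1.2 _ (f (⟨T, hT⟩, i)).2.2]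
    simp
  · intro i _ j _ hij
    have h1 : f (⟨T, hT⟩, i) = f (⟨T, hT⟩, j) := by
      refine Prod.ext (Subtype.ext ?_) (Fin.ext ?_)
      · exact (Prod.mk.inj hij).1
      · exact (Prod.mk.inj hij).2
    exact (Prod.mk.inj (f.injective h1)).2
  · rintro ⟨S, j⟩ hSj
    rw [Finset.mem_filter, Finset.mem_product] at hSj
    obtain ⟨⟨hS, hj⟩, h⟩ := hSj
    have hj' := Finset.mem_range.1 hj
    have h' := key S hS j hj'
    simp only at h
    rw [h] at h'
    refine ⟨(f.symm (⟨S, hS⟩, ⟨j, hj'⟩)).2, Finset.mem_univ _, ?_⟩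
    have h2 : ((⟨T, hT⟩, (f.symm (⟨S, hS⟩, ⟨j, hj'⟩)).2) :
        ↥(trees ⊥ E') × Fin (trees ⊥ E).card) = f.symm (⟨S, hS⟩, ⟨j, hj'⟩) :=
      Prod.ext (Subtype.ext h') rfl
    rw [h2, Equiv.apply_symm_apply]

/-- a measurable uniform choice in `{0, …, N-1}` -/
theorem exists_samp (N : ℕ) : ∃ f : I → ℕ, Measurable f ∧ (0 < N → (∀ u, f u < N) ∧
    ∀ j < N, (volume : Measure I) (f ⁻¹' {j}) = (N : ℝ≥0∞)⁻¹) := by
  rcases Nat.eq_zero_or_pos N with h | h
  · exact ⟨fun _ => 0, measurable_const, fun h' => absurd h' (by omega)⟩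
  · haveI : NeZero N := ⟨h.ne'⟩
    obtain ⟨f, hf, hm⟩ := Measure.exists_measurable_map_eq
      ((PMF.uniformOfFintype (Fin N)).toMeasure)
    refine ⟨fun u => (f u : ℕ), (measurable_of_countable (fun i : Fin N => (i : ℕ))).comp hf,
      fun _ => ⟨fun u => (f u).2, fun j hj => ?_⟩⟩
    have h1 : (fun u => (f u : ℕ)) ⁻¹' {j} = f ⁻¹' {⟨j, hj⟩} := by
      ext u
      simp [Fin.ext_iff]
    rw [h1, ← Measure.map_apply hf (measurableSet_singleton _), hm,
      PMF.toMeasure_apply_singleton _ _ (measurableSet_singleton _)]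
    simp

/-- the uniform choice -/
noncomputable def samp (N : ℕ) : I → ℕ := (exists_samp N).choose

theorem samp_meas (N : ℕ) : Measurable (samp N) := (exists_samp N).choose_spec.1

theorem samp_lt {N : ℕ} (hN : 0 < N) (u : I) : samp N u < N :=
  ((exists_samp N).choose_spec.2 hN).1 u

theorem samp_vol {N : ℕ} (hN : 0 < N) {j : ℕ} (hj : j < N) :
    (volume : Measure I) (samp N ⁻¹' {j}) = (N : ℝ≥0∞)⁻¹ :=
  ((exists_samp N).choose_spec.2 hN).2 j hj

/-- the sampler -/
noncomputable def cpl (E E' S : Finset (Sym2 V)) (u : I) : Finset (Sym2 V) :=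
  cplF E E' S (samp (trees ⊥ E').card u)

theorem trees_pos (E : Finset (Sym2 V)) : 0 < (trees ⊥ E).card :=
  Finset.card_pos.2 (trees_nonempty ⊥ E)

theorem cpl_mem {E E' S : Finset (Sym2 V)} (hE : E ⊆ E') (hS : S ∈ trees ⊥ E) (u : I) :
    cpl E E' S u ∈ trees ⊥ E' ∧ cpl E E' S u ∩ E ⊆ S :=
  cplF_mem hE hS (samp_lt (trees_pos _) u)

/-! ### counting -/

theorem card_le_of_sub {E E' S T : Finset (Sym2 V)} (hE : E ⊆ E') (hS : S ∈ trees ⊥ E)
    (hT : T ∈ trees ⊥ E') : S.card ≤ T.card := by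
  obtain ⟨T', hT', hST⟩ := exists_tree_ge ⊥ E' S ((mem_trees.1 hS).1.trans hE)
    (mem_trees.1 hS).2.2
  rw [trees_card_eq ⊥ E' hT hT']
  exact Finset.card_le_card hST

theorem star_mem (W0 : Finset V) {w0 : V} (hw0 : w0 ∈ W0) :
    (W0.erase w0).image (fun w => s(w0, w)) ∈ trees ⊥ W0.sym2 := by
  refine mem_trees.2 ⟨?_, ?_, ?_⟩
  · intro e he
    obtain ⟨w, hw, rfl⟩ := Finset.mem_image.1 he
    exact Finset.mk_mem_sym2_iff.2 ⟨hw0, (Finset.mem_erase.1 hw).2⟩
  · have h1 : ∀ a ∈ W0, Conn ⊥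
        (((W0.erase w0).image (fun w => s(w0, w)) : Finset (Sym2 V)) : Set (Sym2 V)) w0 a := by
      intro a ha
      by_cases h : a = w0
      · rw [h]; exact crefl _ _ _
      · exact cedge (Finset.mem_coe.2 (Finset.mem_image.2 ⟨a, Finset.mem_erase.2 ⟨h, ha⟩, rfl⟩))
    intro a b hab
    obtain ⟨ha, hb⟩ := Finset.mk_mem_sym2_iff.1 hab
    exact ctrans (csymm (h1 a ha)) (h1 b hb)
  · intro a b hab hc
    obtain ⟨w, hw, he⟩ := Finset.mem_image.1 (Finset.mem_coe.1 hab)
    have hww := (Finset.mem_erase.1 hw).1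
    have key : ∀ c d, Conn ⊥ ((((W0.erase w0).image (fun w => s(w0, w)) : Finset (Sym2 V)) :
        Set (Sym2 V)) \ {s(a, b)}) c d → (c = w ↔ d = w) := by
      intro c d hcd
      induction hcd with
      | rel c d h =>
        rcases h with h | h
        · have : c = d := h
          rw [this]
        · obtain ⟨h1, h2⟩ := h
          obtain ⟨w', hw', he'⟩ := Finset.mem_image.1 (Finset.mem_coe.1 h1)
          have hne : w' ≠ w := by
            rintro rfl
            exact h2 (by rw [← he', he]; rfl)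
          rcases Sym2.eq_iff.1 he' with ⟨rfl, rfl⟩ | ⟨rfl, rfl⟩
          · exact ⟨fun h => absurd h.symm hww, fun h => absurd h hne⟩
          · exact ⟨fun h => absurd h hne, fun h => absurd h.symm hww⟩
      | refl a => exact Iff.rfl
      | symm a b _ ih => exact ih.symm
      | trans a b c _ _ h1 h2 => exact h1.trans h2
    have h1 := key a b hc
    rcases Sym2.eq_iff.1 he with ⟨rfl, rfl⟩ | ⟨rfl, rfl⟩
    · exact hww (h1.2 rfl).symm
    · exact hww (h1.1 rfl).symm

theorem forest_card {X : Finset (Sym2 V)} (hX : Indep ⊥ (X : Set (Sym2 V))) (W0 : Finset V)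
    (hW : ∀ e ∈ X, ∀ v ∈ e, v ∈ W0) : X.card ≤ W0.card := by
  rcases W0.eq_empty_or_nonempty with h | ⟨w0, hw0⟩
  · have : X = ∅ := by
      rw [Finset.eq_empty_iff_forall_notMem]
      intro e he
      induction e using Sym2.ind with
      | _ a b =>
        have := hW _ he a (by simp)
        rw [h] at this
        simp at this
    rw [this]; simp
  · have hsub : X ⊆ W0.sym2 := fun e he => Finset.mem_sym2_iff.2 (hW e he)
    obtain ⟨T, hT, hXT⟩ := exists_tree_ge ⊥ W0.sym2 X hsub hX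
    calc X.card ≤ T.card := Finset.card_le_card hXT
      _ = ((W0.erase w0).image (fun w => s(w0, w))).card :=
          trees_card_eq ⊥ _ hT (star_mem W0 hw0)
      _ ≤ (W0.erase w0).card := Finset.card_image_le
      _ ≤ W0.card := Finset.card_le_card (Finset.erase_subset _ _)

theorem symm_card {E E' S T : Finset (Sym2 V)} (hE : E ⊆ E') (hS : S ∈ trees ⊥ E)
    (hT : T ∈ trees ⊥ E') (h : T ∩ E ⊆ S) :
    ((S \ T) ∪ (T \ S)).card ≤ 2 * (T \ E).card := by
  have hSE := (mem_trees.1 hS).1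
  have h1 : S ∩ T = T ∩ E := by
    ext e
    simp only [Finset.mem_inter]
    exact ⟨fun k => ⟨k.2, hSE k.1⟩, fun k => ⟨h (Finset.mem_inter.2 k), k.1⟩⟩
  have h2 : T \ S = T \ E := by
    ext e
    simp only [Finset.mem_sdiff]
    exact ⟨fun k => ⟨k.1, fun k' => k.2 (h (Finset.mem_inter.2 ⟨k.1, k'⟩))⟩,
      fun k => ⟨k.1, fun k' => k.2 (hSE k')⟩⟩
  have h3 := Finset.card_sdiff_add_card_inter S T
  have h4 := Finset.card_sdiff_add_card_inter T E
  have h5 := card_le_of_sub hE hS hT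
  have h6 := Finset.card_union_le (S \ T) (T \ S)
  rw [h1] at h3
  rw [h2] at h6 ⊢
  omega

theorem card_ends (D : Finset (Sym2 V)) : (D.biUnion (fun e => e.toFinset)).card ≤ 2 * D.card := by
  rw [mul_comm]
  refine Finset.card_biUnion_le_card_mul _ _ _ fun e _ => ?_
  induction e using Sym2.ind with
  | _ a b =>
    rw [Sym2.toFinset_mk_eq]
    exact Finset.card_le_two

/-- the vertices incident to changed edges -/
theorem change_card {E E' S T : Finset (Sym2 V)} (hE : E ⊆ E') (hS : S ∈ trees ⊥ E)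
    (hT : T ∈ trees ⊥ E') (h : T ∩ E ⊆ S) :
    (((S \ T) ∪ (T \ S)).biUnion (fun e => e.toFinset)).card ≤
      4 * ((E' \ E).biUnion (fun e => e.toFinset)).card := by
  have h1 := card_ends ((S \ T) ∪ (T \ S))
  have h2 := symm_card hE hS hT h
  have h3 : (T \ E).card ≤ ((E' \ E).biUnion (fun e => e.toFinset)).card := by
    refine forest_card ((mem_trees.1 hT).2.2.mono ?_) _ ?_
    · exact Finset.coe_subset.2 Finset.sdiff_subset
    · intro e he v hv
      refine Finset.mem_biUnion.2 ⟨e, ?_, Sym2.mem_toFinset.2 hv⟩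
      rw [Finset.mem_sdiff] at he ⊢
      exact ⟨(mem_trees.1 hT).1 he.1, he.2⟩
  omega

end Pool.Agent.U753.UF
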