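import Pool.Agent.U753.UF.Mism

/-!
# Equivariance of the construction
-/

set_option linter.unusedSectionVars false

namespace Pool.Agent.U753.UF

open Finset Pool.Agent.TH968.UST Pool.Agent.TH830.UST MeasureTheory ProbabilityTheory
open scoped ENNReal unitInterval

variable {V : Type*} (γ : V ≃ V)

/-- `G'` is the image of `G` -/
def GR (G G' : SimpleGraph V) : Prop := ∀ x y, G'.Adj (γ x) (γ y) ↔ G.Adj x y

variable {γ} {G G' : SimpleGraph V}

theorem avg_equi (h : GR γ G G') {f f' : V → ℝ≥0∞} (hf : ∀ v, f' (γ v) = f v) (v : V) :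
    avg G' f' (γ v) = avg G f v := by
  unfold avg
  rw [← γ.tsum_eq (fun w => @ite ℝ≥0∞ (G'.Adj (γ v) w) (Classical.propDecidable _) (f' w) 0),
    ← γ.tsum_eq (fun w => @ite ℝ≥0∞ (G'.Adj (γ v) w) (Classical.propDecidable _) 1 0)]
  congr 1
  · refine tsum_congr fun w => ?_
    rw [hf w]
    by_cases hw : G.Adj v w
    · rw [if_pos hw, if_pos ((h v w).2 hw)]
    · rw [if_neg hw, if_neg (fun k => hw ((h v w).1 k))]
  · refine tsum_congr fun w => ?_
    by_cases hw : G.Adj v w
    · rw [if_pos hw, if_pos ((h v w).2 hw)]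
    · rw [if_neg hw, if_neg (fun k => hw ((h v w).1 k))]

theorem itA_equi (h : GR γ G G') {f f' : V → ℝ≥0∞} (hf : ∀ v, f' (γ v) = f v) (n : ℕ) :
    ∀ v, itA G' f' n (γ v) = itA G f n v := by
  induction n with
  | zero => exact hf
  | succ n ih => intro v; exact avg_equi h ih v

theorem dl_equi (s v : V) : dl (γ s) (γ v) = dl s v := by
  by_cases h : v = s
  · subst h; simp [dl]
  · have h2 : ¬ γ v = γ s := fun k => h (γ.injective k)
    simp [dl, h, h2]

theorem KC_equi (h : GR γ G G') (n : ℕ) (x s : V) : KC G' n (γ x) (γ s) = KC G n x s := by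
  unfold KC FS
  congr 1
  exact Finset.sum_congr rfl fun j _ => itA_equi h (fun v => dl_equi s v) j x

theorem As_equi (h : GR γ G G') (R N : ℕ) {b b' : V → I} (hb : ∀ v, b' (γ v) = b v) (x s : V) :
    γ s ∈ As G' R N b' (γ x) ↔ s ∈ As G R N b x := by
  show ENNReal.ofReal (b' (γ s) : ℝ) < R * KC G' N (γ x) (γ s) ↔
    ENNReal.ofReal (b s : ℝ) < R * KC G N x s
  rw [hb, KC_equi h]

theorem rl_equi (h : GR γ G G') (R N : ℕ) {b b' : V → I} (hb : ∀ v, b' (γ v) = b v) (x y : V) :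
    rl G' R N b' (γ x) (γ y) ↔ rl G R N b x y := by
  unfold rl Set.Nonempty
  simp only [Set.ext_iff]
  rw [γ.surjective.forall, γ.surjective.exists]
  simp only [As_equi h R N hb]

theorem HH_equi (h : GR γ G G') (R N : ℕ → ℕ) {ω ω' : V × ℕ → I}
    (hω : ∀ v k, ω' (γ v, k) = ω (v, k)) (n : ℕ) : GR γ (HH R N G ω n) (HH R N G' ω' n) := by
  intro x y
  cases n with
  | zero => exact Iff.rfl
  | succ n =>
    rw [HH_adj, HH_adj, h x y]
    refine and_congr_right fun _ => forall₂_congr fun m _ => ?_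
    exact rl_equi h (R m) (N m) (b := fun s => ω (s, m + 1)) (b' := fun s => ω' (s, m + 1))
      (fun v => hω v (m + 1)) x y

theorem Rn_equi (h : GR γ G G') (k : ℕ) : ∀ x y, Rn G' k (γ x) (γ y) ↔ Rn G k x y := by
  induction k with
  | zero => intro x y; exact γ.injective.eq_iff
  | succ k ih =>
    intro x y
    show (∃ z, Rn G' k (γ x) z ∧ G'.Adj z (γ y)) ↔ (∃ z, Rn G k x z ∧ G.Adj z y)
    rw [γ.surjective.exists]
    exact exists_congr fun z => and_congr (ih x z) (h z y)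

theorem reach_equi (h : GR γ G G') (x y : V) :
    G'.Reachable (γ x) (γ y) ↔ G.Reachable x y := by
  rw [reach_iff, reach_iff]
  exact exists_congr fun k => Rn_equi h k x y

theorem mem_mapγ {C : Finset V} {x : V} : γ x ∈ C.map γ.toEmbedding ↔ x ∈ C := by
  rw [Finset.mem_map_equiv, Equiv.symm_apply_apply]

theorem Comp_equi (h : GR γ G G') (C : Finset V) : Comp G' (C.map γ.toEmbedding) ↔ Comp G C := by
  unfold Comp
  rw [Finset.map_nonempty]
  refine and_congr_right fun _ => ?_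
  rw [γ.surjective.forall]
  refine forall_congr' fun x => ?_
  rw [mem_mapγ]
  refine imp_congr_right fun _ => ?_
  rw [γ.surjective.forall]
  refine forall_congr' fun y => ?_
  rw [mem_mapγ, reach_equi h]

theorem rk_equi {a a' : V → I} (ha : ∀ v, a' (γ v) = a v) {C : Finset V} {v : V} (hv : v ∈ C) :
    rk (ordD a' (C.map γ.toEmbedding)) (γ v) = rk (ordD a C) v := by
  classical
  rw [rk_eq a C hv, rk_eq a' _ (mem_mapγ.2 hv), Finset.filter_map, Finset.card_map]
  congr 1
  refine Finset.filter_congr fun w _ => ?_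
  show a' (γ w) < a' (γ v) ↔ _
  rw [ha, ha]

variable [DecidableEq V]

theorem rs_equi {X X' : Set (Sym2 V)} (hX : ∀ x y, s(γ x, γ y) ∈ X' ↔ s(x, y) ∈ X)
    (C : Finset V) : rs X' (C.map γ.toEmbedding) = (rs X C).image (Sym2.map γ) := by
  ext e
  rw [Finset.mem_image, mem_rs]
  constructor
  · rintro ⟨h1, h2⟩
    induction e using Sym2.ind with
    | _ u v =>
      obtain ⟨x, rfl⟩ := γ.surjective u
      obtain ⟨y, rfl⟩ := γ.surjective v
      obtain ⟨k1, k2⟩ := Finset.mk_mem_sym2_iff.1 h1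
      exact ⟨s(x, y), mem_rs.2 ⟨Finset.mk_mem_sym2_iff.2 ⟨mem_mapγ.1 k1, mem_mapγ.1 k2⟩,
        (hX x y).1 h2⟩, Sym2.map_mk _ _ _⟩
  · rintro ⟨e, he, rfl⟩
    induction e using Sym2.ind with
    | _ x y =>
      obtain ⟨h1, h2⟩ := mem_rs.1 he
      obtain ⟨k1, k2⟩ := Finset.mk_mem_sym2_iff.1 h1
      rw [Sym2.map_mk]
      exact ⟨Finset.mk_mem_sym2_iff.2 ⟨mem_mapγ.2 k1, mem_mapγ.2 k2⟩, (hX x y).2 h2⟩

theorem inn_equi (h : GR γ G G') (C : Finset V) :
    inn G' (C.map γ.toEmbedding) = (inn G C).image (Sym2.map γ) := by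
  rw [inn_eq_rs, inn_eq_rs]
  exact rs_equi (fun x y => h x y) C

theorem pat_equi {a a' : V → I} (ha : ∀ v, a' (γ v) = a v) {C : Finset V}
    {X : Finset (Sym2 V)} (hX : X ⊆ C.sym2) :
    pat (ordD a' (C.map γ.toEmbedding)) (X.image (Sym2.map γ)) = pat (ordD a C) X := by
  classical
  ext e
  unfold pat
  simp only [Finset.mem_image, exists_exists_and_eq_and]
  refine exists_congr fun f => and_congr_right fun hf => ?_
  induction f using Sym2.ind with
  | _ x y =>
    obtain ⟨k1, k2⟩ := Finset.mk_mem_sym2_iff.1 (hX hf)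
    rw [Sym2.map_mk, Sym2.map_mk, Sym2.map_mk, rk_equi ha k1, rk_equi ha k2]

theorem stp_equi {a a' : V → I} (ha : ∀ v, a' (γ v) = a v) {C : Finset V}
    {E E' S : Finset (Sym2 V)} (hE : E ⊆ C.sym2) (hE' : E' ⊆ C.sym2) (hS : S ⊆ C.sym2)
    {u u' : V → I} (hu : ∀ v, u' (γ v) = u v) (x y : V) :
    s(γ x, γ y) ∈ stp (C.map γ.toEmbedding) (ordD a' (C.map γ.toEmbedding))
      (E.image (Sym2.map γ)) (E'.image (Sym2.map γ)) (S.image (Sym2.map γ)) u' ↔
    s(x, y) ∈ stp C (ordD a C) E E' S u := by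
  classical
  unfold stp
  rw [Finset.mem_filter, Finset.mem_filter, pat_equi ha hE, pat_equi ha hE', pat_equi ha hS]
  have h1 : s(γ x, γ y) ∈ E'.image (Sym2.map γ) ↔ s(x, y) ∈ E' := by
    rw [Finset.mem_image]
    constructor
    · rintro ⟨e, he, he2⟩
      rw [← Sym2.map_mk] at he2
      rwa [← Sym2.map.injective γ.injective he2]
    · intro h
      exact ⟨s(x, y), h, Sym2.map_mk _ _ _⟩
  rw [h1]
  refine and_congr_right fun hxy => ?_
  obtain ⟨k1, k2⟩ := Finset.mk_mem_sym2_iff.1 (hE' hxy)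
  rw [γ.surjective.exists]
  refine exists_congr fun v => ?_
  rw [mem_mapγ]
  refine and_congr_right fun hv => ?_
  rw [rk_equi ha hv, hu, Sym2.map_mk, Sym2.map_mk, rk_equi ha k1, rk_equi ha k2]

theorem TT_equi {H H' : ℕ → SimpleGraph V} (hH : ∀ n, GR γ (H n) (H' n)) {a a' : V → I}
    (ha : ∀ v, a' (γ v) = a v) {c c' : V × ℕ → I} (hc : ∀ v k, c' (γ v, k) = c (v, k)) (n : ℕ) :
    ∀ x y, s(γ x, γ y) ∈ TT H' a' c' n ↔ s(x, y) ∈ TT H a c n := by
  induction n with
  | zero => intro x y; exact Iff.rfl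
  | succ n ih =>
    intro x y
    show (∃ C : Finset V, Comp (H' (n + 1)) C ∧ s(γ x, γ y) ∈ stp C (ordD a' C) (inn (H' n) C)
        (inn (H' (n + 1)) C) (rs (TT H' a' c' n) C) (fun v => c' (v, n))) ↔
      (∃ C : Finset V, Comp (H (n + 1)) C ∧ s(x, y) ∈ stp C (ordD a C) (inn (H n) C)
        (inn (H (n + 1)) C) (rs (TT H a c n) C) (fun v => c (v, n)))
    rw [γ.finsetCongr.surjective.exists]
    refine exists_congr fun C => ?_
    rw [Equiv.finsetCongr_apply, Comp_equi (hH (n + 1)), inn_equi (hH n), inn_equi (hH (n + 1)),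
      rs_equi ih]
    exact and_congr_right fun _ => stp_equi ha (inn_sub _ _) (inn_sub _ _) (rs_sub _ _)
      (fun v => hc v n) x y

theorem TI_equi {H H' : ℕ → SimpleGraph V} (hH : ∀ n, GR γ (H n) (H' n)) {a a' : V → I}
    (ha : ∀ v, a' (γ v) = a v) {c c' : V × ℕ → I} (hc : ∀ v k, c' (γ v, k) = c (v, k)) (x y : V) :
    s(γ x, γ y) ∈ TI H' a' c' ↔ s(x, y) ∈ TI H a c := by
  rw [mem_TI, mem_TI]
  exact exists_congr fun n0 => forall₂_congr fun n _ => TT_equi hH ha hc n x y

/-! ### invariance of the law of the labels -/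

variable (γ) in
/-- action on labels -/
def act (ω : V × ℕ → I) : V × ℕ → I := fun i => ω (γ.symm i.1, i.2)

theorem act_apply (ω : V × ℕ → I) (v : V) (k : ℕ) : act γ ω (γ v, k) = ω (v, k) := by
  unfold act; simp

theorem act_meas : Measurable (act γ) :=
  measurable_pi_iff.2 fun i => measurable_pi_apply (γ.symm i.1, i.2)

theorem act_mp : MeasurePreserving (act γ) (PW (V × ℕ)) (PW (V × ℕ)) := by
  refine ⟨act_meas, ?_⟩
  apply Measure.eq_infinitePi
  intro s t ht
  rw [Measure.map_apply act_meas (MeasurableSet.pi s.countable_toSet fun i _ => ht i)]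
  let τ : V × ℕ ≃ V × ℕ := γ.symm.prodCongr (Equiv.refl ℕ)
  have h1 : act γ ⁻¹' (Set.pi s t) =
      Set.pi (s.map τ.toEmbedding : Finset (V × ℕ)) (fun i => t (τ.symm i)) := by
    ext ω
    simp only [Set.mem_preimage, Set.mem_pi, Finset.mem_coe, Finset.mem_map_equiv]
    constructor
    · intro h i hi
      have := h (τ.symm i) hi
      have h2 : act γ ω (τ.symm i) = ω i := by
        show ω (τ (τ.symm i)) = ω i
        rw [Equiv.apply_symm_apply]
      rwa [h2] at this
    · intro h i hi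
      have := h (τ i) (by rwa [Equiv.symm_apply_apply])
      rw [Equiv.symm_apply_apply] at this
      exact this
  rw [h1, Measure.infinitePi_pi _ (fun i _ => ht _), Finset.prod_map]
  refine Finset.prod_congr rfl fun i _ => ?_
  show (volume : Measure I) (t (τ.symm (τ i))) = _
  rw [Equiv.symm_apply_apply]

end Pool.Agent.U753.UF
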