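import Pool.Agent.U753.UF.Asm2

/-!
# The law of the limit forest for a good graph, and the decoding of the labels
-/

set_option linter.unusedSectionVars false

namespace Pool.Agent.U753.UF

open Finset Pool.Agent.TH968.UST Pool.Agent.TH830.UST MeasureTheory ProbabilityTheory
open scoped ENNReal unitInterval

section G

variable {V : Type*} [Countable V] [DecidableEq V] [MeasurableSpace V] [DiscreteMeasurableSpace V]

/-- the limit forest as a function of the graph and the two label fields -/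
noncomputable def Ph0 (R N : ℕ → ℕ) (G : SimpleGraph V) (ω : LS V) : Set (Sym2 V) :=
  TI (HH R N G ω.1) (fun v => ω.1 (v, 0)) ω.2

theorem Ph0_meas (R N : ℕ → ℕ) (e : Sym2 V) :
    Measurable fun q : SimpleGraph V × LS V => e ∈ Ph0 R N q.1 q.2 := by
  unfold Ph0
  simp only [mem_TI]
  exact Measurable.exists fun n0 => Measurable.forall fun n =>
    Measurable.imp measurable_const (TT_meas2 R N n e)

theorem Ph0_inv (R N : ℕ → ℕ) (γ : V ≃ V) {G G' : SimpleGraph V} (hG : GR γ G G')
    {ω ω' : LS V} (h1 : ∀ v k, ω'.1 (γ v, k) = ω.1 (v, k))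
    (h2 : ∀ v k, ω'.2 (γ v, k) = ω.2 (v, k)) (x y : V) :
    s(γ x, γ y) ∈ Ph0 R N G' ω' ↔ s(x, y) ∈ Ph0 R N G ω :=
  TI_equi (fun k => HH_equi hG R N h1 k) (fun v => h1 v 0) h2 x y

variable {R N : ℕ → ℕ}

theorem fixed_graph {G : SimpleGraph V} (h : LF G) (hc : G.Connected) (hr : Recurrent G)
    (htot : ∀ x, ∫⁻ ω, tot R N G ω x ∂(PL V) ≠ ⊤) (F A : Finset (Sym2 V)) {ε : ℝ} (hε : 0 < ε) :
    ∃ K : Finset V, ∀ (r : Setoid V) (E : Finset (Sym2 V)), r ≤ wired K → inn G K ⊆ E →
      (E : Set (Sym2 V)) ⊆ G.edgeSet →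
      |prA r E F (A ∩ F) - (PL V).real {ω | ∀ e ∈ F, (e ∈ Ph0 R N G ω ↔ e ∈ A)}| ≤ ε := by
  set S : Set (LS V) := {ω | ∀ e ∈ F, (e ∈ Ph0 R N G ω ↔ e ∈ A)} with hS
  have hSm : MeasurableSet S := by
    apply measurableSet_setOfPred.2
    exact Measurable.forall fun e => Measurable.imp measurable_const
      (((Ph0_meas R N e).comp (measurable_const.prodMk measurable_id)).iff measurable_const)
  let L : (V × ℕ → I) → ℝ := fun ω1 => (PW (V × ℕ)).real {ω2 | ∀ e ∈ F,
    (e ∈ TI (HH R N G ω1) (fun v => ω1 (v, 0)) ω2 ↔ e ∈ A)}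
  let Q : (V × ℕ → I) → Prop := fun ω1 => ∀ ε : ℝ, 0 < ε → ∃ K : Finset V,
    ∀ (r : Setoid V) (E : Finset (Sym2 V)), r ≤ wired K → inn G K ⊆ E →
      (E : Set (Sym2 V)) ⊆ G.edgeSet → |prA r E F (A ∩ F) - L ω1| ≤ ε
  have hQ : ∀ᵐ ω1 ∂(PW (V × ℕ)), Q ω1 := by
    have h1 := Measure.ae_ae_of_ae_prod (ae_stop (R := R) (N := N) htot)
    filter_upwards [h1, labels_inj V] with ω1 hω1 hinj ε hε
    refine limit_law h hr hc (HH_good h) hinj HH_le ?_ HH_ind ?_ F A hε
    · intro x y hxy
      obtain ⟨ω2, hω2⟩ := hω1.exists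
      obtain ⟨n0, hn0⟩ := hω2 x
      refine ⟨n0 + 1, ?_⟩
      by_contra hcon
      exact (hn0 n0 le_rfl).1 ⟨y, hxy, hcon⟩
    · filter_upwards [hω1] with ω2 hω2 e
      induction e using Sym2.ind with
      | _ x y =>
        obtain ⟨n0, hn0⟩ := hω2 x
        refine ⟨n0 + 1, fun n hn => ?_⟩
        obtain ⟨k, rfl⟩ : ∃ k, n = k + 1 := ⟨n - 1, by omega⟩
        by_contra hcon
        exact (hn0 k (by omega)).2 ⟨y, hcon⟩
  have huniq : ∀ ω1 ω1', Q ω1 → Q ω1' → L ω1 = L ω1' := by
    intro ω1 ω1' q1 q2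
    apply eq_of_forall_dist_le
    intro ε hε
    obtain ⟨K1, hK1⟩ := q1 (ε / 2) (by positivity)
    obtain ⟨K2, hK2⟩ := q2 (ε / 2) (by positivity)
    have hsub : ∀ K ⊆ K1 ∪ K2, inn G K ⊆ inn G (K1 ∪ K2) := by
      intro K hK e he
      rw [mem_inn'] at he ⊢
      exact ⟨Finset.sym2_mono hK he.1, he.2⟩
    have hed : ((inn G (K1 ∪ K2) : Finset (Sym2 V)) : Set (Sym2 V)) ⊆ G.edgeSet :=
      fun e he => (mem_inn'.1 (Finset.mem_coe.1 he)).2
    have g1 := hK1 ⊥ (inn G (K1 ∪ K2)) bot_le (hsub K1 Finset.subset_union_left) hed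
    have g2 := hK2 ⊥ (inn G (K1 ∪ K2)) bot_le (hsub K2 Finset.subset_union_right) hed
    rw [Real.dist_eq]
    rw [abs_le] at g1 g2 ⊢
    constructor <;> linarith [g1.1, g1.2, g2.1, g2.2]
  obtain ⟨w0, hw0⟩ := hQ.exists
  have hPL : PL V S = PW (V × ℕ) (Prod.mk w0 ⁻¹' S) := by
    rw [Measure.prod_apply hSm]
    have : ∀ᵐ ω1 ∂(PW (V × ℕ)), PW (V × ℕ) (Prod.mk ω1 ⁻¹' S) =
        PW (V × ℕ) (Prod.mk w0 ⁻¹' S) := by
      filter_upwards [hQ] with ω1 hω1
      have h3 := huniq ω1 w0 hω1 hw0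
      exact (ENNReal.toReal_eq_toReal_iff' (measure_ne_top _ _) (measure_ne_top _ _)).1 h3
    rw [lintegral_congr_ae this, lintegral_const, measure_univ, mul_one]
  have hreal : (PL V).real S = L w0 := by
    rw [Measure.real, hPL]
    rfl
  rw [hreal]
  exact hw0 ε hε

end G

/-! ### decoding -/

theorem exists_dec : ∃ f : I → (ℕ → I), Measurable f ∧
    (volume : Measure I).map f = Measure.infinitePi (fun _ : ℕ => (volume : Measure I)) :=
  Measure.exists_measurable_map_eq _

/-- a sequence of i.i.d. uniform variables from one uniform variable -/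
noncomputable def dec : I → (ℕ → I) := exists_dec.choose

theorem dec_meas : Measurable dec := exists_dec.choose_spec.1

theorem dec_map : (volume : Measure I).map dec =
    Measure.infinitePi (fun _ : ℕ => (volume : Measure I)) := exists_dec.choose_spec.2

variable {V : Type*}

/-- all the labels -/
noncomputable def WW (U : V → I) : V × ℕ → I := fun i => dec (U i.1) i.2

theorem WW_meas : Measurable (WW : (V → I) → V × ℕ → I) :=
  measurable_pi_iff.2 fun i => (measurable_pi_apply i.2).comp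
    (dec_meas.comp (measurable_pi_apply i.1))

theorem WW_map : (PW V).map WW = PW (V × ℕ) := by
  have h1 := Measure.infinitePi_map_pi (fun _ : V => (volume : Measure I))
    (f := fun _ : V => dec) (fun _ => dec_meas)
  have h2 := Measure.infinitePi_map_curry_symm (fun (_ : V) (_ : ℕ) => (volume : Measure I))
  have h3 : (PW V).map (fun (x : V → I) (i : V) => dec (x i)) =
      Measure.infinitePi fun _ : V => Measure.infinitePi fun _ : ℕ => (volume : Measure I) := by
    rw [h1]
    simp only [dec_map]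
  have hm : Measurable (fun (x : V → I) (i : V) => dec (x i)) :=
    measurable_pi_iff.2 fun i => dec_meas.comp (measurable_pi_apply i)
  rw [← h3, Measure.map_map (MeasurableEquiv.measurable _) hm] at h2
  exact h2

/-- merging two label fields -/
def jn (ω : LS V) : V × ℕ → I :=
  fun i => if i.2 % 2 = 0 then ω.1 (i.1, i.2 / 2) else ω.2 (i.1, i.2 / 2)

/-- splitting the labels -/
def sp (ω : V × ℕ → I) : LS V := (fun i => ω (i.1, 2 * i.2), fun i => ω (i.1, 2 * i.2 + 1))

theorem sp_jn (ω : LS V) : sp (jn ω) = ω := by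
  unfold sp jn
  refine Prod.ext ?_ ?_
  · funext i
    simp
  · funext i
    have h1 : (2 * i.2 + 1) % 2 = 1 := by omega
    have h2 : (2 * i.2 + 1) / 2 = i.2 := by omega
    simp [h1, h2]

theorem sp_meas : Measurable (sp : (V × ℕ → I) → LS V) :=
  (measurable_pi_iff.2 fun i => measurable_pi_apply (i.1, 2 * i.2)).prodMk
    (measurable_pi_iff.2 fun i => measurable_pi_apply (i.1, 2 * i.2 + 1))

theorem jn_meas : Measurable (jn : LS V → V × ℕ → I) := by
  refine measurable_pi_iff.2 fun i => ?_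
  unfold jn
  by_cases h : i.2 % 2 = 0
  · simp only [h, if_true]
    exact (measurable_pi_apply _).comp measurable_fst
  · simp only [h, if_false]
    exact (measurable_pi_apply _).comp measurable_snd

theorem jn_map : (PL V).map jn = PW (V × ℕ) := by
  classical
  apply Measure.eq_infinitePi
  intro s t ht
  rw [Measure.map_apply jn_meas (MeasurableSet.pi s.countable_toSet fun i _ => ht i)]
  let g : V × ℕ → V × ℕ := fun i => (i.1, i.2 / 2)
  let s0 := (s.filter (fun i => i.2 % 2 = 0)).image g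
  let s1 := (s.filter (fun i => ¬ i.2 % 2 = 0)).image g
  have hset : jn ⁻¹' (Set.pi s t) =
      (Set.pi s0 fun j => t (j.1, 2 * j.2)) ×ˢ (Set.pi s1 fun j => t (j.1, 2 * j.2 + 1)) := by
    ext ω
    rw [Set.mem_preimage, Set.mem_prod]
    constructor
    · intro h
      constructor
      · intro j hj
        obtain ⟨i, hi, rfl⟩ := Finset.mem_image.1 (Finset.mem_coe.1 hj)
        obtain ⟨hi1, hi2⟩ := Finset.mem_filter.1 hi
        have h1 := h i hi1
        unfold jn at h1
        rw [if_pos hi2] at h1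
        have h2 : (i.1, 2 * (i.2 / 2)) = i := Prod.ext rfl (by simp only; omega)
        show ω.1 (i.1, i.2 / 2) ∈ t (i.1, 2 * (i.2 / 2))
        rw [h2]
        exact h1
      · intro j hj
        obtain ⟨i, hi, rfl⟩ := Finset.mem_image.1 (Finset.mem_coe.1 hj)
        obtain ⟨hi1, hi2⟩ := Finset.mem_filter.1 hi
        have h1 := h i hi1
        unfold jn at h1
        rw [if_neg hi2] at h1
        have h2 : (i.1, 2 * (i.2 / 2) + 1) = i := Prod.ext rfl (by simp only; omega)
        show ω.2 (i.1, i.2 / 2) ∈ t (i.1, 2 * (i.2 / 2) + 1)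
        rw [h2]
        exact h1
    · rintro ⟨h0, h1⟩ i hi
      unfold jn
      by_cases hi2 : i.2 % 2 = 0
      · rw [if_pos hi2]
        have h3 := h0 (g i) (Finset.mem_coe.2 (Finset.mem_image_of_mem _
          (Finset.mem_filter.2 ⟨Finset.mem_coe.1 hi, hi2⟩)))
        have h2 : (i.1, 2 * (i.2 / 2)) = i := Prod.ext rfl (by simp only; omega)
        have h4 : ω.1 (i.1, i.2 / 2) ∈ t (i.1, 2 * (i.2 / 2)) := h3
        rwa [h2] at h4
      · rw [if_neg hi2]
        have h3 := h1 (g i) (Finset.mem_coe.2 (Finset.mem_image_of_mem _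
          (Finset.mem_filter.2 ⟨Finset.mem_coe.1 hi, hi2⟩)))
        have h2 : (i.1, 2 * (i.2 / 2) + 1) = i := Prod.ext rfl (by simp only; omega)
        have h4 : ω.2 (i.1, i.2 / 2) ∈ t (i.1, 2 * (i.2 / 2) + 1) := h3
        rwa [h2] at h4
  rw [hset, Measure.prod_prod, Measure.infinitePi_pi _ (fun j _ => ht _),
    Measure.infinitePi_pi _ (fun j _ => ht _), Finset.prod_image, Finset.prod_image,
    ← Finset.prod_filter_mul_prod_filter_not s (fun i => i.2 % 2 = 0)]
  · congr 1
    · refine Finset.prod_congr rfl fun i hi => ?_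
      have hi2 := (Finset.mem_filter.1 hi).2
      have h2 : (i.1, 2 * (i.2 / 2)) = i := Prod.ext rfl (by simp only; omega)
      show (volume : Measure I) (t (i.1, 2 * (i.2 / 2))) = _
      rw [h2]
    · refine Finset.prod_congr rfl fun i hi => ?_
      have hi2 := (Finset.mem_filter.1 hi).2
      have h2 : (i.1, 2 * (i.2 / 2) + 1) = i := Prod.ext rfl (by simp only; omega)
      show (volume : Measure I) (t (i.1, 2 * (i.2 / 2) + 1)) = _
      rw [h2]
  · intro i hi j hj hij
    have hi2 := (Finset.mem_filter.1 (Finset.mem_coe.1 hi)).2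
    have hj2 := (Finset.mem_filter.1 (Finset.mem_coe.1 hj)).2
    have e1 : i.1 = j.1 := (Prod.mk.inj hij).1
    have e2 : i.2 / 2 = j.2 / 2 := (Prod.mk.inj hij).2
    exact Prod.ext e1 (by omega)
  · intro i hi j hj hij
    have hi2 := (Finset.mem_filter.1 (Finset.mem_coe.1 hi)).2
    have hj2 := (Finset.mem_filter.1 (Finset.mem_coe.1 hj)).2
    have e1 : i.1 = j.1 := (Prod.mk.inj hij).1
    have e2 : i.2 / 2 = j.2 / 2 := (Prod.mk.inj hij).2
    exact Prod.ext e1 (by omega)

/-- the two label fields from one label per vertex -/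
noncomputable def th (U : V → I) : LS V := sp (WW U)

theorem th_meas : Measurable (th : (V → I) → LS V) := sp_meas.comp WW_meas

theorem th_map : (PW V).map th = PL V := by
  have h1 : (PW V).map th = ((PW V).map WW).map sp := (Measure.map_map sp_meas WW_meas).symm
  rw [h1, WW_map, ← jn_map, Measure.map_map sp_meas jn_meas]
  have : (sp ∘ jn : LS V → LS V) = id := funext sp_jn
  rw [this, Measure.map_id]

theorem th_inv (γ : V ≃ V) (U : V → I) (v : V) (k : ℕ) :
    (th (U ∘ γ.symm)).1 (γ v, k) = (th U).1 (v, k) ∧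
    (th (U ∘ γ.symm)).2 (γ v, k) = (th U).2 (v, k) := by
  unfold th sp WW
  simp

end Pool.Agent.U753.UF
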