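import Pool.Agent.U753.UF.Cpl

/-!
# Spanning forests of disjoint pieces, and transport along injections
-/

set_option linter.unusedSectionVars false

namespace Pool.Agent.U753.UF

open Finset Pool.Agent.TH968.UST Pool.Agent.TH830.UST MeasureTheory
open Pool.Agent.TH830.J74 (dom trees_card_eq)
open scoped ENNReal unitInterval

variable {V : Type*}

theorem conn_local (T : Set (Sym2 V)) (C : Set V) (hcl : ∀ x y, s(x, y) ∈ T → x ∈ C → y ∈ C)
    {a b : V} (h : Conn ⊥ T a b) :
    (a ∈ C ↔ b ∈ C) ∧ (a ∈ C → Conn ⊥ (T ∩ {e | ∀ v ∈ e, v ∈ C}) a b) := by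
  induction h with
  | rel a b h =>
    rcases h with h | h
    · have : a = b := h
      rw [this]
      exact ⟨Iff.rfl, fun _ => crefl _ _ _⟩
    · have h1 := hcl a b h
      have h2 := hcl b a (by rwa [Sym2.eq_swap])
      refine ⟨⟨h1, h2⟩, fun ha => cedge ⟨h, ?_⟩⟩
      intro v hv
      rcases Sym2.mem_iff.1 hv with rfl | rfl
      · exact ha
      · exact h1 ha
  | refl a => exact ⟨Iff.rfl, fun _ => crefl _ _ _⟩
  | symm a b _ ih => exact ⟨ih.1.symm, fun hb => csymm (ih.2 (ih.1.2 hb))⟩
  | trans a b c _ _ h1 h2 =>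
    exact ⟨h1.1.trans h2.1, fun ha => ctrans (h1.2 ha) (h2.2 (h1.1.1 ha))⟩

variable [DecidableEq V]

theorem trees_union {E1 E2 : Finset (Sym2 V)} {D1 D2 : Finset V} (h1 : E1 ⊆ D1.sym2)
    (h2 : E2 ⊆ D2.sym2) (hd : Disjoint D1 D2) {T : Finset (Sym2 V)} (hT : T ⊆ E1 ∪ E2) :
    T ∈ trees ⊥ (E1 ∪ E2) ↔ T ∩ E1 ∈ trees ⊥ E1 ∧ T ∩ E2 ∈ trees ⊥ E2 := by
  have key : ∀ (E1 E2 : Finset (Sym2 V)) (D1 D2 : Finset V), E1 ⊆ D1.sym2 → E2 ⊆ D2.sym2 →
      Disjoint D1 D2 → ∀ X : Set (Sym2 V), X ⊆ ((E1 ∪ E2 : Finset (Sym2 V)) : Set (Sym2 V)) →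
      ∀ a b, a ∈ D1 → Conn ⊥ X a b → Conn ⊥ (X ∩ (E1 : Set (Sym2 V))) a b := by
    intro E1 E2 D1 D2 h1 h2 hd X hX a b ha hab
    have hin : ∀ x y, s(x, y) ∈ X → x ∈ D1 → s(x, y) ∈ E1 := by
      intro x y hxy hx
      rcases Finset.mem_union.1 (Finset.mem_coe.1 (hX hxy)) with h | h
      · exact h
      · exact absurd ((Finset.mk_mem_sym2_iff.1 (h2 h)).1) (Finset.disjoint_left.1 hd hx)
    have hcl : ∀ x y, s(x, y) ∈ X → x ∈ (D1 : Set V) → y ∈ (D1 : Set V) := by
      intro x y hxy hx
      exact (Finset.mk_mem_sym2_iff.1 (h1 (hin x y hxy hx))).2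
    refine cmono ?_ ((conn_local X D1 hcl hab).2 ha)
    rintro e ⟨he1, he2⟩
    induction e using Sym2.ind with
    | _ x y => exact ⟨he1, hin x y he1 (he2 x (by simp))⟩
  have key1 := key E1 E2 D1 D2 h1 h2 hd
  have key2 := key E2 E1 D2 D1 h2 h1 hd.symm
  have hT' : (T : Set (Sym2 V)) ⊆ ((E1 ∪ E2 : Finset (Sym2 V)) : Set (Sym2 V)) :=
    Finset.coe_subset.2 hT
  have hT'' : (T : Set (Sym2 V)) ⊆ ((E2 ∪ E1 : Finset (Sym2 V)) : Set (Sym2 V)) := by
    rwa [Finset.union_comm]
  constructor
  · intro h
    obtain ⟨-, g2, g3⟩ := mem_trees.1 h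
    constructor
    · refine mem_trees.2 ⟨Finset.inter_subset_right, ?_, ?_⟩
      · intro a b hab
        rw [Finset.coe_inter]
        exact key1 _ hT' a b (Finset.mk_mem_sym2_iff.1 (h1 hab)).1
          (g2 a b (Finset.mem_union_left _ hab))
      · exact g3.mono (Finset.coe_subset.2 Finset.inter_subset_left)
    · refine mem_trees.2 ⟨Finset.inter_subset_right, ?_, ?_⟩
      · intro a b hab
        rw [Finset.coe_inter]
        exact key2 _ hT'' a b (Finset.mk_mem_sym2_iff.1 (h2 hab)).1
          (g2 a b (Finset.mem_union_right _ hab))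
      · exact g3.mono (Finset.coe_subset.2 Finset.inter_subset_left)
  · rintro ⟨k1, k2⟩
    obtain ⟨-, a2, a3⟩ := mem_trees.1 k1
    obtain ⟨-, b2, b3⟩ := mem_trees.1 k2
    refine mem_trees.2 ⟨hT, ?_, ?_⟩
    · intro a b hab
      rcases Finset.mem_union.1 hab with h | h
      · exact cmono (Finset.coe_subset.2 Finset.inter_subset_left) (a2 a b h)
      · exact cmono (Finset.coe_subset.2 Finset.inter_subset_left) (b2 a b h)
    · intro a b hab hc
      rcases Finset.mem_union.1 (Finset.mem_coe.1 (hT' hab)) with h | h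
      · refine a3 a b (by rw [Finset.coe_inter]; exact ⟨hab, h⟩) ?_
        refine cmono ?_ (key1 _ (Set.sdiff_subset.trans hT') a b
          (Finset.mk_mem_sym2_iff.1 (h1 h)).1 hc)
        rintro e ⟨⟨he1, he2⟩, he3⟩
        rw [Finset.coe_inter]
        exact ⟨⟨he1, he3⟩, he2⟩
      · refine b3 a b (by rw [Finset.coe_inter]; exact ⟨hab, h⟩) ?_
        refine cmono ?_ (key2 _ (Set.sdiff_subset.trans hT'') a b
          (Finset.mk_mem_sym2_iff.1 (h2 h)).1 hc)
        rintro e ⟨⟨he1, he2⟩, he3⟩
        rw [Finset.coe_inter]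
        exact ⟨⟨he1, he3⟩, he2⟩

theorem disj_edges {E1 E2 : Finset (Sym2 V)} {D1 D2 : Finset V} (h1 : E1 ⊆ D1.sym2)
    (h2 : E2 ⊆ D2.sym2) (hd : Disjoint D1 D2) : Disjoint E1 E2 := by
  rw [Finset.disjoint_left]
  intro e he1 he2
  induction e using Sym2.ind with
  | _ a b =>
    exact Finset.disjoint_left.1 hd (Finset.mk_mem_sym2_iff.1 (h1 he1)).1
      (Finset.mk_mem_sym2_iff.1 (h2 he2)).1

theorem union_inter_left {E1 E2 T1 T2 : Finset (Sym2 V)} (hd : Disjoint E1 E2) (h1 : T1 ⊆ E1)
    (h2 : T2 ⊆ E2) : (T1 ∪ T2) ∩ E1 = T1 ∧ (T1 ∪ T2) ∩ E2 = T2 := by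
  rw [Finset.disjoint_left] at hd
  constructor
  · ext e
    simp only [Finset.mem_inter, Finset.mem_union]
    exact ⟨fun k => k.1.elim id fun k' => absurd (h2 k') (hd k.2),
      fun k => ⟨Or.inl k, h1 k⟩⟩
  · ext e
    simp only [Finset.mem_inter, Finset.mem_union]
    exact ⟨fun k => k.1.elim (fun k' => absurd k.2 (hd (h1 k'))) id,
      fun k => ⟨Or.inr k, h2 k⟩⟩

theorem trees_union_card {E1 E2 : Finset (Sym2 V)} {D1 D2 : Finset V} (h1 : E1 ⊆ D1.sym2)
    (h2 : E2 ⊆ D2.sym2) (hd : Disjoint D1 D2) :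
    (trees ⊥ (E1 ∪ E2)).card = (trees ⊥ E1).card * (trees ⊥ E2).card := by
  have hdE := disj_edges h1 h2 hd
  rw [← Finset.card_product]
  refine Finset.card_bij' (fun T _ => (T ∩ E1, T ∩ E2)) (fun p _ => p.1 ∪ p.2) ?_ ?_ ?_ ?_
  · intro T hT
    have := (trees_union h1 h2 hd (mem_trees.1 hT).1).1 hT
    exact Finset.mem_product.2 this
  · intro p hp
    obtain ⟨k1, k2⟩ := Finset.mem_product.1 hp
    have s1 := (mem_trees.1 k1).1
    have s2 := (mem_trees.1 k2).1
    refine (trees_union h1 h2 hd (Finset.union_subset_union s1 s2)).2 ?_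
    obtain ⟨e1, e2⟩ := union_inter_left hdE s1 s2
    rw [e1, e2]
    exact ⟨k1, k2⟩
  · intro T hT
    simp only
    rw [← Finset.inter_union_distrib_left]
    exact Finset.inter_eq_left.2 (mem_trees.1 hT).1
  · intro p hp
    obtain ⟨k1, k2⟩ := Finset.mem_product.1 hp
    obtain ⟨e1, e2⟩ := union_inter_left hdE (mem_trees.1 k1).1 (mem_trees.1 k2).1
    exact Prod.ext e1 e2

/-! ### transport along injections (from the starting library file `TH902.WT.Gr`) -/

section Tr

variable {W : Type*}

omit [DecidableEq V] in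
/-- connection through an injection of the vertices -/
theorem conn_image (p : V → W) (q : W → V) (hq : ∀ x, q (p x) = x) (T : Set (Sym2 V)) (x y : V) :
    Conn ⊥ (Sym2.map p '' T) (p x) (p y) ↔ Conn ⊥ T x y := by
  constructor
  · intro h
    have key : ∀ a b : W, Conn ⊥ (Sym2.map p '' T) a b → Conn ⊥ T (q a) (q b) := by
      intro a b h
      induction h with
      | rel a b h =>
        rcases h with h | h
        · have h1 : a = b := h
          rw [h1]
          exact crefl _ _ _
        · obtain ⟨e, he, he2⟩ := h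
          induction e using Sym2.ind with
          | _ u v =>
            rw [Sym2.map_mk] at he2
            rcases Sym2.eq_iff.1 he2 with ⟨h1, h2⟩ | ⟨h1, h2⟩
            · have h1' : p u = a := h1
              have h2' : p v = b := h2
              rw [← h1', ← h2', hq, hq]
              exact cedge he
            · have h1' : p u = b := h1
              have h2' : p v = a := h2
              rw [← h1', ← h2', hq, hq]
              exact csymm (cedge he)
      | refl a => exact crefl _ _ _
      | symm a b _ ih => exact csymm ih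
      | trans a b c _ _ h1 h2 => exact ctrans h1 h2
    have h1 := key _ _ h
    rwa [hq, hq] at h1
  · intro h
    induction h with
    | rel a b h =>
      rcases h with h | h
      · have h1 : a = b := h
        rw [h1]
        exact crefl _ _ _
      · exact cedge ⟨s(a, b), h, rfl⟩
    | refl a => exact crefl _ _ _
    | symm a b _ ih => exact csymm ih
    | trans a b c _ _ h1 h2 => exact ctrans h1 h2

variable [DecidableEq W]

/-- trees through an injection of the vertices -/
theorem trees_image (p : V → W) (q : W → V) (hq : ∀ x, q (p x) = x) (E : Finset (Sym2 V)) :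
    trees ⊥ (E.image (Sym2.map p)) = (trees ⊥ E).image (fun T => T.image (Sym2.map p)) := by
  have hp : Function.Injective p := fun a b h => by rw [← hq a, h, hq]
  have hm : Function.Injective (Sym2.map p) := Sym2.map.injective hp
  have key : ∀ T : Finset (Sym2 V), T.image (Sym2.map p) ∈ trees ⊥ (E.image (Sym2.map p)) ↔
      T ∈ trees ⊥ E := by
    intro T
    rw [mem_trees, mem_trees, Finset.image_subset_image_iff hm]
    refine and_congr_right fun hTE => and_congr ?_ ?_
    · rw [Finset.coe_image]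
      constructor
      · intro h a b hab
        rw [← conn_image p q hq]
        exact h (p a) (p b) (Finset.mem_image.2 ⟨s(a, b), hab, rfl⟩)
      · intro h a b hab
        obtain ⟨e, he, he2⟩ := Finset.mem_image.1 hab
        induction e using Sym2.ind with
        | _ u v =>
          rw [Sym2.map_mk] at he2
          rcases Sym2.eq_iff.1 he2 with ⟨h1, h2⟩ | ⟨h1, h2⟩
          · have h1' : p u = a := h1
            have h2' : p v = b := h2
            rw [← h1', ← h2', conn_image p q hq]
            exact h u v he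
          · have h1' : p u = b := h1
            have h2' : p v = a := h2
            rw [← h1', ← h2']
            apply csymm
            rw [conn_image p q hq]
            exact h u v he
    · have himg : ∀ u v : V, ((T.image (Sym2.map p) : Finset (Sym2 W)) : Set (Sym2 W)) \
          {s(p u, p v)} = Sym2.map p '' ((T : Set (Sym2 V)) \ {s(u, v)}) := by
        intro u v
        rw [Set.image_sdiff hm, Set.image_singleton, Finset.coe_image, Sym2.map_mk]
      constructor
      · intro h a b hab
        rw [← conn_image p q hq, ← himg]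
        exact h (p a) (p b) (Finset.mem_coe.2 (Finset.mem_image.2 ⟨s(a, b), hab, rfl⟩))
      · intro h a b hab
        obtain ⟨e, he, he2⟩ := Finset.mem_image.1 (Finset.mem_coe.1 hab)
        induction e using Sym2.ind with
        | _ u v =>
          rw [Sym2.map_mk] at he2
          rcases Sym2.eq_iff.1 he2 with ⟨h1, h2⟩ | ⟨h1, h2⟩
          · have h1' : p u = a := h1
            have h2' : p v = b := h2
            rw [← h1', ← h2', himg, conn_image p q hq]
            exact h u v he
          · have h1' : p u = b := h1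
            have h2' : p v = a := h2
            rw [← h1', ← h2']
            intro hcon
            have hcon2 := csymm hcon
            rw [show s(p v, p u) = s(p u, p v) from Sym2.eq_swap, himg,
              conn_image p q hq] at hcon2
            exact h u v he hcon2
  ext S
  rw [Finset.mem_image]
  constructor
  · intro hS
    have hSE := (mem_trees.1 hS).1
    obtain ⟨T, hT, rfl⟩ := Finset.subset_image_iff.1 hSE
    exact ⟨T, (key T).1 hS, rfl⟩
  · rintro ⟨T, hT, rfl⟩
    exact (key T).2 hT

end Tr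

end Pool.Agent.U753.UF
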