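import Pool.Agent.U753.UF.Meas

/-!
# The law of the forests
-/

set_option linter.unusedSectionVars false

namespace Pool.Agent.U753.UF

open Finset Pool.Agent.TH968.UST Pool.Agent.TH830.UST MeasureTheory ProbabilityTheory
open scoped ENNReal unitInterval

/-- i.i.d. uniform labels -/
noncomputable abbrev PW (ι : Type*) : Measure (ι → I) :=
  Measure.infinitePi (fun _ : ι => (volume : Measure I))

open Classical in
/-- extension by a constant -/
noncomputable def exS {ι : Type*} (S : Finset ι) (g : S → I) : ι → I :=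
  fun i => if h : i ∈ S then g ⟨i, h⟩ else 0

theorem exS_meas {ι : Type*} (S : Finset ι) : Measurable (exS S) := by
  rw [measurable_pi_iff]
  intro i
  unfold exS
  by_cases h : i ∈ S
  · simp only [h, dif_pos]
    exact measurable_pi_apply _
  · simp only [h, dif_neg, not_false_eq_true]
    exact measurable_const

theorem indep_sets {ι : Type*} (S T : Finset ι) (hST : Disjoint S T) (A B : Set (ι → I))
    (hA : MeasurableSet A) (hB : MeasurableSet B)
    (hAS : ∀ x y : ι → I, (∀ i ∈ S, x i = y i) → x ∈ A → y ∈ A)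
    (hBT : ∀ x y : ι → I, (∀ i ∈ T, x i = y i) → x ∈ B → y ∈ B) :
    PW ι (A ∩ B) = PW ι A * PW ι B := by
  have hind : iIndepFun (fun (i : ι) (ω : ι → I) => ω i) (PW ι) :=
    iIndepFun_infinitePi (X := fun _ x => x) (fun _ => measurable_id)
  have h1 := hind.indepFun_finset S T hST (fun i => measurable_pi_apply i)
  have key : ∀ (S : Finset ι) (A : Set (ι → I)),
      (∀ x y : ι → I, (∀ i ∈ S, x i = y i) → x ∈ A → y ∈ A) →
      A = (fun (ω : ι → I) (i : S) => ω i) ⁻¹' (exS S ⁻¹' A) := by
    intro S A hAS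
    ext ω
    have h2 : ∀ i ∈ S, ω i = exS S (fun i : S => ω i) i := by
      intro i hi
      unfold exS
      rw [dif_pos hi]
    constructor
    · intro h
      exact hAS _ _ h2 h
    · intro h
      exact hAS _ _ (fun i hi => (h2 i hi).symm) h
  have h2 := h1.measure_inter_preimage_eq_mul (exS S ⁻¹' A) (exS T ⁻¹' B)
    (exS_meas S hA) (exS_meas T hB)
  rwa [← key S A hAS, ← key T B hBT] at h2

variable {V : Type*} [Countable V] [DecidableEq V]
variable {H : ℕ → SimpleGraph V} {a : V → I}

theorem meas_rsTT (H : ℕ → SimpleGraph V) (a : V → I) (n : ℕ) (D : Finset V)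
    (T : Finset (Sym2 V)) : MeasurableSet {c : V × ℕ → I | rs (TT H a c n) D = T} := by
  apply measurableSet_setOf.2
  refine meas_rs (X := fun c : V × ℕ → I => TT H a c n) ?_ D T
  exact meas_TT (H := fun _ : V × ℕ → I => H) (a := fun _ => a) (c := fun c => c)
    (fun n => measurable_const) (fun v => measurable_const) (fun i => measurable_pi_apply i) n

theorem law_comp (hg : Good H) (ha : Function.Injective a) (n : ℕ)
    (ih : ∀ D, Cl (H n) D → ∀ T ∈ trees ⊥ (inn (H n) D),
      PW (V × ℕ) {c | rs (TT H a c n) D = T} = ((trees ⊥ (inn (H n) D)).card : ℝ≥0∞)⁻¹)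
    {C : Finset V} (hC : Comp (H (n + 1)) C) {T : Finset (Sym2 V)}
    (hT : T ∈ trees ⊥ (inn (H (n + 1)) C)) :
    PW (V × ℕ) {c | rs (TT H a c (n + 1)) C = T} =
      ((trees ⊥ (inn (H (n + 1)) C)).card : ℝ≥0∞)⁻¹ := by
  classical
  have hle : H n ≤ H (n + 1) := hg.mono (Nat.le_succ n)
  have hCn : Cl (H n) C := hC.cl.mono hle
  obtain ⟨v, hv, hv0⟩ := exists_rk_zero a hC.1
  set E := inn (H n) C with hE
  set E' := inn (H (n + 1)) C with hE'
  have hEE : E ⊆ E' := inn_mono hle C
  set N' := (trees ⊥ E').card with hN'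
  have hN'0 : 0 < N' := trees_pos E'
  have hN0 : 0 < (trees ⊥ E).card := trees_pos E
  set F := (trees ⊥ E ×ˢ range N').filter (fun p => stpF (ordD a C) E E' p.1 p.2 = T) with hF
  have hFc : F.card = (trees ⊥ E).card := stpF_count ha.injOn hEE (inn_sub _ _) hT
  let A : Finset (Sym2 V) × ℕ → Set (V × ℕ → I) := fun p => {c | rs (TT H a c n) C = p.1}
  let B : Finset (Sym2 V) × ℕ → Set (V × ℕ → I) := fun p => {c | samp N' (c (v, n)) = p.2}
  have hset : {c : V × ℕ → I | rs (TT H a c (n + 1)) C = T} = ⋃ p ∈ F, (A p ∩ B p) := by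
    ext c
    simp only [Set.mem_iUnion, Set.mem_inter_iff, A, B, Set.mem_ofPred_eq, exists_prop]
    rw [rs_TT_succ H a c n hC, stp_eq ha.injOn hv hv0 _ _ _ (inn_sub _ _)]
    constructor
    · intro h
      refine ⟨(rs (TT H a c n) C, samp N' (c (v, n))), ?_, rfl, rfl⟩
      exact Finset.mem_filter.2 ⟨Finset.mem_product.2 ⟨TT_mem c hg ha n C hCn,
        Finset.mem_range.2 (samp_lt hN'0 _)⟩, h⟩
    · rintro ⟨p, hp, h1, h2⟩
      have := (Finset.mem_filter.1 hp).2
      rw [← h1, ← h2] at this
      exact this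
  have hAm : ∀ p, MeasurableSet (A p) := fun p => meas_rsTT H a n C p.1
  have hBm : ∀ p, MeasurableSet (B p) := by
    intro p
    have h1 : Measurable fun c : V × ℕ → I => samp N' (c (v, n)) :=
      (samp_meas _).comp (measurable_pi_apply _)
    exact h1 (measurableSet_singleton p.2)
  rw [hset, measure_biUnion_finset]
  · have hterm : ∀ p ∈ F, PW (V × ℕ) (A p ∩ B p) =
        ((trees ⊥ E).card : ℝ≥0∞)⁻¹ * (N' : ℝ≥0∞)⁻¹ := by
      intro p hp
      obtain ⟨hp1, -⟩ := Finset.mem_filter.1 hp
      obtain ⟨hp2, hp3⟩ := Finset.mem_product.1 hp1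
      rw [indep_sets (C ×ˢ range n) {(v, n)} ?_ _ _ (hAm p) (hBm p) ?_ ?_]
      · congr 1
        · exact ih C hCn p.1 hp2
        · rw [← samp_vol hN'0 (Finset.mem_range.1 hp3)]
          have h2 := (measurePreserving_eval_infinitePi (fun _ : V × ℕ => (volume : Measure I))
            (v, n)).measure_preimage
            ((samp_meas N' (measurableSet_singleton p.2)).nullMeasurableSet)
          rw [← h2]
          rfl
      · rw [Finset.disjoint_singleton_right, Finset.mem_product, Finset.mem_range]
        intro h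
        exact lt_irrefl _ h.2
      · intro x y hxy hx
        have h3 : rs (TT H a x n) C = p.1 := hx
        show rs (TT H a y n) C = p.1
        rw [← h3]
        exact (TT_local hg.mono n C hCn fun w hw m hm =>
          hxy (w, m) (Finset.mem_product.2 ⟨hw, Finset.mem_range.2 hm⟩)).symm
      · intro x y hxy hx
        have h3 : samp N' (x (v, n)) = p.2 := hx
        show samp N' (y (v, n)) = p.2
        rw [← h3, hxy (v, n) (Finset.mem_singleton_self _)]
    rw [Finset.sum_congr rfl hterm, Finset.sum_const, hFc, nsmul_eq_mul, ← mul_assoc,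
      ENNReal.mul_inv_cancel (by exact_mod_cast hN0.ne') (ENNReal.natCast_ne_top _), one_mul]
  · intro p _ q _ hpq
    rw [Function.onFun, Set.disjoint_left]
    rintro c ⟨h1, h2⟩ ⟨h3, h4⟩
    apply hpq
    have h1' : rs (TT H a c n) C = p.1 := h1
    have h2' : samp N' (c (v, n)) = p.2 := h2
    have h3' : rs (TT H a c n) C = q.1 := h3
    have h4' : samp N' (c (v, n)) = q.2 := h4
    exact Prod.ext (h1'.symm.trans h3') (h2'.symm.trans h4')
  · intro p _
    exact (hAm p).inter (hBm p)

theorem law (hg : Good H) (ha : Function.Injective a) (n : ℕ) : ∀ D, Cl (H n) D →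
    ∀ T ∈ trees ⊥ (inn (H n) D),
      PW (V × ℕ) {c | rs (TT H a c n) D = T} = ((trees ⊥ (inn (H n) D)).card : ℝ≥0∞)⁻¹ := by
  induction n with
  | zero =>
    intro D _ T hT
    rw [hg.zero, inn_bot, trees_empty] at hT ⊢
    have hT' : T = ∅ := Finset.mem_singleton.1 hT
    have h1 : {c : V × ℕ → I | rs (TT H a c 0) D = T} = Set.univ := by
      ext c
      simp only [Set.mem_ofPred_eq, Set.mem_univ, iff_true]
      rw [hT', Finset.eq_empty_iff_forall_notMem]
      intro e he
      exact (mem_rs.1 he).2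
    rw [h1, measure_univ]
    simp
  | succ n ih =>
    refine cl_induction (hg.fin (n + 1)) _ ?_ ?_
    · intro T hT
      have h0 : inn (H (n + 1)) (∅ : Finset V) = ∅ := by
        rw [Finset.eq_empty_iff_forall_notMem]
        intro e he
        have := (mem_inn'.1 he).1
        simp at this
      rw [h0, trees_empty] at hT ⊢
      have hT' : T = ∅ := Finset.mem_singleton.1 hT
      have h1 : {c : V × ℕ → I | rs (TT H a c (n + 1)) ∅ = T} = Set.univ := by
        ext c
        simp only [Set.mem_ofPred_eq, Set.mem_univ, iff_true]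
        rw [hT', Finset.eq_empty_iff_forall_notMem]
        intro e he
        have := (mem_rs.1 he).1
        simp at this
      rw [h1, measure_univ]
      simp
    · intro C D hC hD hd hP T hT
      have hTs := (mem_trees.1 hT).1
      rw [inn_union hC.cl hD] at hT hTs
      obtain ⟨hT1, hT2⟩ := (trees_union (inn_sub _ _) (inn_sub _ _) hd hTs).1 hT
      rw [inn_union hC.cl hD, trees_union_card (inn_sub _ _) (inn_sub _ _) hd]
      have hset : {c : V × ℕ → I | rs (TT H a c (n + 1)) (C ∪ D) = T} =
          {c | rs (TT H a c (n + 1)) C = T ∩ inn (H (n + 1)) C} ∩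
            {c | rs (TT H a c (n + 1)) D = T ∩ inn (H (n + 1)) D} := by
        ext c
        simp only [Set.mem_ofPred_eq, Set.mem_inter_iff]
        obtain ⟨e1, e2⟩ := rs_inter_left (TT_sub H a c (n + 1)) hC.cl hD hd
        constructor
        · intro h
          rw [h] at e1 e2
          exact ⟨e1.symm, e2.symm⟩
        · rintro ⟨h1, h2⟩
          rw [rs_union (TT_sub H a c (n + 1)) hC.cl hD, h1, h2,
            ← Finset.inter_union_distrib_left]
          exact Finset.inter_eq_left.2 hTs
      rw [hset, indep_sets (C ×ˢ range (n + 1)) (D ×ˢ range (n + 1)) ?_ _ _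
        (meas_rsTT H a _ C _) (meas_rsTT H a _ D _) ?_ ?_, law_comp hg ha n ih hC hT1,
        hP _ hT2]
      · rw [Nat.cast_mul, ENNReal.mul_inv]
        · exact Or.inl (by exact_mod_cast (trees_pos _).ne')
        · exact Or.inl (ENNReal.natCast_ne_top _)
      · rw [Finset.disjoint_left]
        intro p h1 h2
        exact Finset.disjoint_left.1 hd (Finset.mem_product.1 h1).1 (Finset.mem_product.1 h2).1
      · intro x y hxy hx
        have h3 : rs (TT H a x (n + 1)) C = T ∩ inn (H (n + 1)) C := hx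
        show rs (TT H a y (n + 1)) C = T ∩ inn (H (n + 1)) C
        rw [← h3]
        exact (TT_local hg.mono (n + 1) C hC.cl fun w hw m hm =>
          hxy (w, m) (Finset.mem_product.2 ⟨hw, Finset.mem_range.2 hm⟩)).symm
      · intro x y hxy hx
        have h3 : rs (TT H a x (n + 1)) D = T ∩ inn (H (n + 1)) D := hx
        show rs (TT H a y (n + 1)) D = T ∩ inn (H (n + 1)) D
        rw [← h3]
        exact (TT_local hg.mono (n + 1) D hD fun w hw m hm =>
          hxy (w, m) (Finset.mem_product.2 ⟨hw, Finset.mem_range.2 hm⟩)).symm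

/-- cylinder probabilities of the forest on a closed finite set -/
theorem law_cyl (hg : Good H) (ha : Function.Injective a) (n : ℕ) {D : Finset V}
    (hD : Cl (H n) D) (F A : Finset (Sym2 V)) (hF : ∀ e ∈ F, e ∈ (H n).edgeSet → e ∈ inn (H n) D) :
    (PW (V × ℕ)).real {c | ∀ e ∈ F, (e ∈ TT H a c n ↔ e ∈ A)} =
      prA ⊥ (inn (H n) D) F (A ∩ F) := by
  classical
  set E := inn (H n) D with hE
  set Fs := (trees ⊥ E).filter (fun T => T ∩ F = A ∩ F) with hFs
  have hset : {c : V × ℕ → I | ∀ e ∈ F, (e ∈ TT H a c n ↔ e ∈ A)} =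
      ⋃ T ∈ Fs, {c | rs (TT H a c n) D = T} := by
    ext c
    simp only [Set.mem_iUnion, Set.mem_ofPred_eq, exists_prop]
    have hmem := TT_mem c hg ha n D hD
    have hiff : ∀ e ∈ F, (e ∈ TT H a c n ↔ e ∈ rs (TT H a c n) D) := by
      intro e he
      constructor
      · intro h
        exact mem_rs.2 ⟨(mem_inn'.1 (hF e he (TT_sub H a c n h))).1, h⟩
      · intro h
        exact (mem_rs.1 h).2
    constructor
    · intro h
      refine ⟨rs (TT H a c n) D, Finset.mem_filter.2 ⟨hmem, ?_⟩, rfl⟩
      ext e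
      simp only [Finset.mem_inter]
      constructor
      · rintro ⟨h1, h2⟩
        exact ⟨(h e h2).1 ((hiff e h2).2 h1), h2⟩
      · rintro ⟨h1, h2⟩
        exact ⟨(hiff e h2).1 ((h e h2).2 h1), h2⟩
    · rintro ⟨T, hT, rfl⟩ e he
      have h1 := (Finset.mem_filter.1 hT).2
      rw [hiff e he]
      have h2 : e ∈ rs (TT H a c n) D ∩ F ↔ e ∈ A ∩ F := by rw [h1]
      simp only [Finset.mem_inter, he, and_true] at h2
      exact h2
  have hm : PW (V × ℕ) {c | ∀ e ∈ F, (e ∈ TT H a c n ↔ e ∈ A)} =
      (Fs.card : ℝ≥0∞) * ((trees ⊥ E).card : ℝ≥0∞)⁻¹ := by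
    rw [hset, measure_biUnion_finset]
    · rw [Finset.sum_congr rfl (fun T hT => law hg ha n D hD T (Finset.mem_filter.1 hT).1),
        Finset.sum_const, nsmul_eq_mul]
    · intro S _ T _ hST
      rw [Function.onFun, Set.disjoint_left]
      intro c h1 h2
      have h1' : rs (TT H a c n) D = S := h1
      have h2' : rs (TT H a c n) D = T := h2
      exact hST (h1'.symm.trans h2')
    · intro T _
      exact meas_rsTT H a n D T
  rw [Measure.real, hm, ENNReal.toReal_mul, ENNReal.toReal_inv]
  unfold prA Pool.Agent.TH830.J74.av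
  rw [Finset.sum_boole, ← hFs]
  simp [div_eq_mul_inv]

end Pool.Agent.U753.UF
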