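import Pool.Agent.U753.UF.Law

/-!
# The limit forest has the law of the wired uniform spanning tree
-/

set_option linter.unusedSectionVars false

namespace Pool.Agent.U753.UF

open Finset Pool.Agent.TH968.UST Pool.Agent.TH830.UST MeasureTheory ProbabilityTheory
open scoped ENNReal unitInterval

variable {V : Type*}

/-- limit of the forests -/
def TI [DecidableEq V] (H : ℕ → SimpleGraph V) (a : V → I) (c : V × ℕ → I) : Set (Sym2 V) :=
  {e | ∃ n0, ∀ n, n0 ≤ n → e ∈ TT H a c n}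

theorem mem_TI [DecidableEq V] {H : ℕ → SimpleGraph V} {a : V → I} {c : V × ℕ → I} {e : Sym2 V} :
    e ∈ TI H a c ↔ ∃ n0, ∀ n, n0 ≤ n → e ∈ TT H a c n := Iff.rfl

theorem exists_reach {G : SimpleGraph V} {H : ℕ → SimpleGraph V} (hmono : Monotone H)
    (hGH : ∀ x y, G.Adj x y → ∃ n, (H n).Adj x y) {x y : V} (h : G.Reachable x y) :
    ∃ n, ∀ m, n ≤ m → (H m).Reachable x y := by
  obtain ⟨p⟩ := h
  induction p with
  | nil => exact ⟨0, fun m _ => SimpleGraph.Reachable.refl _⟩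
  | cons hadj p ih =>
    obtain ⟨n1, h1⟩ := ih
    obtain ⟨n2, h2⟩ := hGH _ _ hadj
    refine ⟨max n1 n2, fun m hm => ?_⟩
    have h3 : (H m).Adj _ _ := hmono ((le_max_right _ _).trans hm) h2
    exact h3.reachable.trans (h1 m ((le_max_left _ _).trans hm))

theorem exists_comp {G : SimpleGraph V} {H : ℕ → SimpleGraph V} (hg : Good H)
    (hc : G.Connected) (hGH : ∀ x y, G.Adj x y → ∃ n, (H n).Adj x y) (K : Finset V) :
    ∃ n, ∀ m, n ≤ m → ∃ C, Comp (H m) C ∧ K ⊆ C := by
  classical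
  obtain ⟨x0⟩ := hc.nonempty
  choose f hf using fun x => exists_reach hg.mono hGH (hc.preconnected x0 x)
  refine ⟨K.sup f, fun m hm => ?_⟩
  obtain ⟨C, hC, hx0⟩ := hg.fin m x0
  refine ⟨C, hC, fun x hx => ?_⟩
  exact (hC.2 x0 hx0 x).2 (hf x m ((Finset.le_sup hx).trans hm))

variable [Countable V] [DecidableEq V]

theorem prob_tendsto {H : ℕ → SimpleGraph V} {a : V → I} {P : Measure (V × ℕ → I)}
    [IsProbabilityMeasure P]
    (hst : ∀ᵐ c ∂P, ∀ e, ∃ n0, ∀ n, n0 ≤ n → (e ∈ TT H a c n ↔ e ∈ TT H a c (n + 1)))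
    (F A : Finset (Sym2 V)) :
    Filter.Tendsto (fun n => P.real {c | ∀ e ∈ F, (e ∈ TT H a c n ↔ e ∈ A)}) Filter.atTop
      (nhds (P.real {c | ∀ e ∈ F, (e ∈ TI H a c ↔ e ∈ A)})) := by
  have hTTm : ∀ n e, Measurable fun c : V × ℕ → I => e ∈ TT H a c n := fun n e =>
    meas_TT (H := fun _ : V × ℕ → I => H) (a := fun _ => a) (c := fun c => c)
      (fun n => measurable_const) (fun v => measurable_const) (fun i => measurable_pi_apply i) n e
  have hm : ∀ n, MeasurableSet {c : V × ℕ → I | ∀ e ∈ F, (e ∈ TT H a c n ↔ e ∈ A)} := by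
    intro n
    apply measurableSet_setOfPred.2
    refine Measurable.forall fun e => Measurable.imp measurable_const ?_
    exact (hTTm n e).iff measurable_const
  have hm' : MeasurableSet {c : V × ℕ → I | ∀ e ∈ F, (e ∈ TI H a c ↔ e ∈ A)} := by
    apply measurableSet_setOfPred.2
    refine Measurable.forall fun e => Measurable.imp measurable_const ?_
    refine Measurable.iff ?_ measurable_const
    simp only [mem_TI]
    exact Measurable.exists fun n0 => Measurable.forall fun n =>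
      Measurable.imp measurable_const (hTTm n e)
  have h1 := tendsto_measure_of_ae_tendsto_indicator_of_isFiniteMeasure (μ := P) Filter.atTop
    (A := {c : V × ℕ → I | ∀ e ∈ F, (e ∈ TI H a c ↔ e ∈ A)})
    (As := fun n => {c : V × ℕ → I | ∀ e ∈ F, (e ∈ TT H a c n ↔ e ∈ A)}) hm' hm ?_
  · have h2 := (ENNReal.tendsto_toReal (measure_ne_top P _)).comp h1
    exact h2
  · filter_upwards [hst] with c hc
    have key : ∀ e, ∃ n0, ∀ n, n0 ≤ n → (e ∈ TT H a c n ↔ e ∈ TI H a c) := by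
      intro e
      obtain ⟨n0, hn0⟩ := hc e
      have hall : ∀ n, n0 ≤ n → (e ∈ TT H a c n ↔ e ∈ TT H a c n0) := by
        intro n hn
        induction n, hn using Nat.le_induction with
        | base => exact Iff.rfl
        | succ n hn ih => exact (hn0 n hn).symm.trans ih
      refine ⟨n0, fun n hn => ?_⟩
      rw [mem_TI]
      constructor
      · intro h
        refine ⟨n0, fun m hm => ?_⟩
        rw [hall m hm, ← hall n hn]
        exact h
      · rintro ⟨n1, h1⟩
        have := h1 (max n n1) (le_max_right _ _)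
        rw [hall _ (hn.trans (le_max_left _ _)), ← hall n hn] at this
        exact this
    choose f hf using key
    filter_upwards [Filter.eventually_ge_atTop (F.sup f)] with n hn
    have : ∀ e ∈ F, (e ∈ TT H a c n ↔ e ∈ TI H a c) := fun e he =>
      hf e n ((Finset.le_sup he).trans hn)
    show (∀ e ∈ F, (e ∈ TT H a c n ↔ e ∈ A)) ↔ (∀ e ∈ F, (e ∈ TI H a c ↔ e ∈ A))
    exact forall₂_congr fun e he => by rw [this e he]

/-- the law of the limit forest -/
theorem limit_law {G : SimpleGraph V} (h : LF G) (hr : Recurrent G) (hc : G.Connected)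
    {H : ℕ → SimpleGraph V} (hg : Good H) {a : V → I} (ha : Function.Injective a)
    (hle : ∀ n, H n ≤ G) (hGH : ∀ x y, G.Adj x y → ∃ n, (H n).Adj x y)
    (hind : ∀ᶠ n in Filter.atTop, ∀ x y, (H n).Reachable x y → G.Adj x y → (H n).Adj x y)
    (hst : ∀ᵐ c ∂(PW (V × ℕ)), ∀ e, ∃ n0, ∀ n, n0 ≤ n →
      (e ∈ TT H a c n ↔ e ∈ TT H a c (n + 1)))
    (F A : Finset (Sym2 V)) {ε : ℝ} (hε : 0 < ε) :
    ∃ K : Finset V, ∀ (r : Setoid V) (E : Finset (Sym2 V)), r ≤ wired K → inn G K ⊆ E →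
      (E : Set (Sym2 V)) ⊆ G.edgeSet →
      |prA r E F (A ∩ F) - (PW (V × ℕ)).real {c | ∀ e ∈ F, (e ∈ TI H a c ↔ e ∈ A)}| ≤ ε := by
  obtain ⟨K, hK⟩ := PT h hr F (A ∩ F) (ε := ε / 3) (by positivity)
  refine ⟨K, fun r E hrK hE hEG => ?_⟩
  have h1 := prob_tendsto hst F A
  have h2 := (Metric.tendsto_atTop.1 h1) (ε / 3) (by positivity)
  obtain ⟨n1, hn1⟩ := h2
  obtain ⟨n2, hn2⟩ := exists_comp hg hc hGH (K ∪ F.biUnion (fun e => e.toFinset))
  obtain ⟨n3, hn3⟩ := Filter.eventually_atTop.1 hind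
  set n := max n1 (max n2 n3) with hn
  have g1 := hn1 n (le_max_left _ _)
  obtain ⟨C, hC, hKC⟩ := hn2 n ((le_max_left _ _).trans (le_max_right _ _))
  have g3 := hn3 n ((le_max_right _ _).trans (le_max_right _ _))
  have hCe : inn (H n) C = inn G C := by
    ext e
    induction e using Sym2.ind with
    | _ x y =>
      rw [mem_inn, mem_inn]
      constructor
      · rintro ⟨k1, k2, k3⟩
        exact ⟨k1, k2, hle n k3⟩
      · rintro ⟨k1, k2, k3⟩
        exact ⟨k1, k2, g3 x y ((hC.2 x k1 y).1 k2) k3⟩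
  have g4 := law_cyl hg ha n hC.cl F A (by
    intro e he heH
    induction e using Sym2.ind with
    | _ x y =>
      refine mem_inn.2 ⟨hKC ?_, hKC ?_, heH⟩
      · exact Finset.mem_union_right _ (Finset.mem_biUnion.2 ⟨_, he, by simp⟩)
      · exact Finset.mem_union_right _ (Finset.mem_biUnion.2 ⟨_, he, by simp⟩))
  rw [hCe] at g4
  have g5 := hK ⊥ (inn G C) bot_le (by
    intro e he
    rw [mem_inn'] at he ⊢
    exact ⟨Finset.sym2_mono (Finset.subset_union_left.trans hKC) he.1, he.2⟩) (by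
    intro e he
    exact (mem_inn'.1 (Finset.mem_coe.1 he)).2)
  have g6 := hK r E hrK hE hEG
  rw [Real.dist_eq, g4] at g1
  rw [abs_le] at g5 g6 ⊢
  rw [abs_lt] at g1
  constructor <;> linarith [g1.1, g1.2, g5.1, g5.2, g6.1, g6.2]

end Pool.Agent.U753.UF
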