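import Mathlib

/-!
# The mass transport principle for random rooted graphs
-/

namespace Pool.Agent.U753.UF

open MeasureTheory
open scoped ENNReal

/-- The mass transport principle for the random rooted graph `(G, ρ)` with vertex set `V` and
law `μ`: for every non-negative `f (G, x, y)`, measurable in `G` and invariant under all
bijections of `V`, the expected mass sent by the root equals the expected mass received by the
root. -/
def MassTransport {V : Type*} [MeasurableSpace V] (μ : Measure (SimpleGraph V × V)) : Prop :=
  ∀ f : SimpleGraph V → V → V → ℝ≥0∞, (∀ x y, Measurable fun G => f G x y) →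
    (∀ (γ : V ≃ V) (G : SimpleGraph V) (x y : V),
      f (G.map γ.toEmbedding) (γ x) (γ y) = f G x y) →
    ∫⁻ p, ∑' y, f p.1 p.2 y ∂μ = ∫⁻ p, ∑' x, f p.1 x p.2 ∂μ

end Pool.Agent.U753.UF
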