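import Pool.Agent.U753.UF.Proc

/-!
# Measurability of the construction
-/

set_option linter.unusedSectionVars false

namespace Pool.Agent.U753.UF

open Finset Pool.Agent.TH968.UST Pool.Agent.TH830.UST MeasureTheory
open scoped ENNReal unitInterval

variable {V : Type*} {Ω : Type*} [MeasurableSpace Ω]

/-- reachability in `k` steps -/
def Rn (H : SimpleGraph V) : ℕ → V → V → Prop
  | 0, x, y => x = y
  | k + 1, x, y => ∃ z, Rn H k x z ∧ H.Adj z y

theorem reach_iff {H : SimpleGraph V} {x y : V} : H.Reachable x y ↔ ∃ k, Rn H k x y := by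
  rw [SimpleGraph.reachable_iff_reflTransGen]
  constructor
  · intro h
    induction h with
    | refl => exact ⟨0, rfl⟩
    | tail _ hbc ih =>
      obtain ⟨k, hk⟩ := ih
      exact ⟨k + 1, _, hk, hbc⟩
  · rintro ⟨k, hk⟩
    induction k generalizing y with
    | zero =>
      have : x = y := hk
      rw [this]
    | succ k ih =>
      obtain ⟨z, hz, hzy⟩ := hk
      exact Relation.ReflTransGen.tail (ih hz) hzy

section C

variable [Countable V]

theorem meas_Rn {H : Ω → SimpleGraph V} (hH : Measurable H) (k : ℕ) : ∀ x y,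
    Measurable (fun ω => Rn (H ω) k x y) := by
  induction k with
  | zero => intro x y; exact measurable_const
  | succ k ih =>
    intro x y
    exact Measurable.exists fun z => (ih x z).and (SimpleGraph.measurable_iff_adj.1 hH z y)

theorem meas_reach {H : Ω → SimpleGraph V} (hH : Measurable H) (x y : V) :
    Measurable (fun ω => (H ω).Reachable x y) := by
  simp only [reach_iff]
  exact Measurable.exists fun k => meas_Rn hH k x y

theorem meas_comp {H : Ω → SimpleGraph V} (hH : Measurable H) (C : Finset V) :
    Measurable (fun ω => Comp (H ω) C) := by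
  unfold Comp
  refine measurable_const.and (Measurable.forall fun x => ?_)
  refine Measurable.imp measurable_const (Measurable.forall fun y => ?_)
  exact measurable_const.iff (meas_reach hH x y)

theorem meas_filter {α : Type*} [Countable α] (s : Finset α) (P : Ω → α → Prop)
    [∀ ω, DecidablePred (P ω)] (hP : ∀ x, Measurable fun ω => P ω x) (t : Finset α) :
    Measurable fun ω => (s.filter (P ω) = t) := by
  simp only [Finset.ext_iff, Finset.mem_filter]
  exact Measurable.forall fun x => (measurable_const.and (hP x)).iff measurable_const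

theorem meas_rs {X : Ω → Set (Sym2 V)} (hX : ∀ e, Measurable fun ω => e ∈ X ω)
    (C : Finset V) (t : Finset (Sym2 V)) : Measurable fun ω => (rs (X ω) C = t) := by
  classical
  unfold rs
  exact meas_filter _ _ hX t

variable [DecidableEq V]

theorem meas_inn {H : Ω → SimpleGraph V} (hH : Measurable H) (C : Finset V)
    (t : Finset (Sym2 V)) : Measurable fun ω => (inn (H ω) C = t) := by
  simp only [inn_eq_rs]
  refine meas_rs (fun e => ?_) C t
  exact measurable_set_iff.1 (SimpleGraph.measurable_edgeSet.comp hH) e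

theorem meas_ordD {a : Ω → V → I} (ha : ∀ v, Measurable fun ω => a ω v) (C : Finset V)
    (t : Finset (V × V)) : Measurable fun ω => (ordD (a ω) C = t) := by
  classical
  unfold ordD
  refine meas_filter _ _ (fun p => ?_) t
  exact (measurableSet_setOf.1 (measurableSet_lt (ha p.1) (ha p.2)))

theorem meas_stp0 {u : Ω → V → I} (hu : ∀ v, Measurable fun ω => u ω v) (C : Finset V)
    (O : Finset (V × V)) (E E' S : Finset (Sym2 V)) (e : Sym2 V) :
    Measurable fun ω => (e ∈ stp C O E E' S (u ω)) := by
  classical
  unfold stp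
  simp only [Finset.mem_filter]
  refine measurable_const.and (Measurable.exists fun v => measurable_const.and
    (measurable_const.and ?_))
  unfold cpl
  have h1 : Measurable fun n : ℕ => (Sym2.map (rk O) e ∈
      cplF (pat O E) (pat O E') (pat O S) n) := measurable_from_nat
  exact h1.comp ((samp_meas _).comp (hu v))

theorem meas_stp {O : Ω → Finset (V × V)} {E E' S : Ω → Finset (Sym2 V)} {u : Ω → V → I}
    (hO : ∀ t, Measurable fun ω => O ω = t) (hE : ∀ t, Measurable fun ω => E ω = t)
    (hE' : ∀ t, Measurable fun ω => E' ω = t) (hS : ∀ t, Measurable fun ω => S ω = t)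
    (hu : ∀ v, Measurable fun ω => u ω v) (C : Finset V) (e : Sym2 V) :
    Measurable fun ω => (e ∈ stp C (O ω) (E ω) (E' ω) (S ω) (u ω)) := by
  have h : ∀ ω, (e ∈ stp C (O ω) (E ω) (E' ω) (S ω) (u ω)) ↔
      ∃ (t1 : Finset (V × V)) (t2 t3 t4 : Finset (Sym2 V)), O ω = t1 ∧ E ω = t2 ∧ E' ω = t3 ∧
        S ω = t4 ∧ e ∈ stp C t1 t2 t3 t4 (u ω) := by
    intro ω
    constructor
    · intro h
      exact ⟨_, _, _, _, rfl, rfl, rfl, rfl, h⟩
    · rintro ⟨t1, t2, t3, t4, rfl, rfl, rfl, rfl, h⟩
      exact h
  simp only [h]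
  exact Measurable.exists fun t1 => Measurable.exists fun t2 => Measurable.exists fun t3 =>
    Measurable.exists fun t4 => (hO t1).and ((hE t2).and ((hE' t3).and ((hS t4).and
      (meas_stp0 hu C t1 t2 t3 t4 e))))

theorem meas_TT {H : Ω → ℕ → SimpleGraph V} {a : Ω → V → I} {c : Ω → V × ℕ → I}
    (hH : ∀ n, Measurable fun ω => H ω n) (ha : ∀ v, Measurable fun ω => a ω v)
    (hc : ∀ i, Measurable fun ω => c ω i) (n : ℕ) :
    ∀ e, Measurable fun ω => (e ∈ TT (H ω) (a ω) (c ω) n) := by
  induction n with
  | zero => intro e; exact measurable_const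
  | succ n ih =>
    intro e
    show Measurable fun ω => (∃ C : Finset V, Comp (H ω (n + 1)) C ∧
      e ∈ stp C (ordD (a ω) C) (inn (H ω n) C) (inn (H ω (n + 1)) C)
        (rs (TT (H ω) (a ω) (c ω) n) C) (fun v => c ω (v, n)))
    refine Measurable.exists fun C => (meas_comp (hH _) C).and ?_
    exact meas_stp (meas_ordD ha C) (meas_inn (hH n) C) (meas_inn (hH (n + 1)) C)
      (meas_rs ih C) (fun v => hc (v, n)) C e

end C

end Pool.Agent.U753.UF
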