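import Pool.Agent.U753.UF.Part

/-!
# The probability that adjacent vertices are separated
-/

set_option linter.unusedSectionVars false

namespace Pool.Agent.U753.UF

open Finset Pool.Agent.TH968.UST Pool.Agent.TH830.UST MeasureTheory ProbabilityTheory
open scoped ENNReal unitInterval

theorem vol_lt (c : ℝ≥0∞) : (volume : Measure I) {u | ENNReal.ofReal (u : ℝ) < c} = min 1 c := by
  rcases lt_trichotomy c 1 with h | h | h
  · have hc : c ≠ ⊤ := ne_top_of_lt h
    have h0 : c.toReal ∈ Set.Icc (0 : ℝ) 1 := by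
      refine ⟨ENNReal.toReal_nonneg, ?_⟩
      have := ENNReal.toReal_mono ENNReal.one_ne_top h.le
      simpa using this
    have h1 : {u : I | ENNReal.ofReal (u : ℝ) < c} = Set.Iio (⟨c.toReal, h0⟩ : I) := by
      ext u
      show ENNReal.ofReal (u : ℝ) < c ↔ (u : ℝ) < c.toReal
      rw [ENNReal.ofReal_lt_iff_lt_toReal u.2.1 hc]
    rw [h1, unitInterval.volume_Iio, ENNReal.ofReal_toReal hc, min_eq_right h.le]
  · have h1 : {u : I | ENNReal.ofReal (u : ℝ) < c} = Set.Iio (1 : I) := by
      ext u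
      show ENNReal.ofReal (u : ℝ) < c ↔ (u : ℝ) < 1
      rw [h, ENNReal.ofReal_lt_one]
    rw [h1, unitInterval.volume_Iio, h]
    simp
  · have h1 : {u : I | ENNReal.ofReal (u : ℝ) < c} = Set.univ := by
      ext u
      simp only [Set.mem_ofPred_eq, Set.mem_univ, iff_true]
      refine lt_of_le_of_lt ?_ h
      rw [ENNReal.ofReal_le_one]
      exact u.2.2
    rw [h1, measure_univ, min_eq_left h.le]

theorem meas_lt (c : ℝ≥0∞) : MeasurableSet {u : I | ENNReal.ofReal (u : ℝ) < c} :=
  measurableSet_lt (ENNReal.measurable_ofReal.comp measurable_subtype_coe) measurable_const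

theorem vol_sdiff (c d : ℝ≥0∞) : (volume : Measure I)
    ({u | ENNReal.ofReal (u : ℝ) < c} \ {u | ENNReal.ofReal (u : ℝ) < d}) ≤ c - d := by
  rcases le_total c d with h | h
  · have h1 : {u : I | ENNReal.ofReal (u : ℝ) < c} \ {u | ENNReal.ofReal (u : ℝ) < d} = ∅ := by
      rw [Set.sdiff_eq_empty]
      intro u hu
      exact lt_of_lt_of_le hu h
    rw [h1, measure_empty]
    exact zero_le
  · have hsub : {u : I | ENNReal.ofReal (u : ℝ) < d} ⊆ {u : I | ENNReal.ofReal (u : ℝ) < c} :=
      fun u hu => lt_of_lt_of_le hu h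
    rw [measure_sdiff hsub (meas_lt d).nullMeasurableSet
      (measure_ne_top _ _), vol_lt, vol_lt]
    rcases le_total 1 d with h1 | h1
    · rw [min_eq_left h1, min_eq_left (h1.trans h), tsub_self]
      exact zero_le
    · rw [min_eq_right h1]
      exact tsub_le_tsub_right (min_le_right _ _) _

theorem vol_xor (c d : ℝ≥0∞) : (volume : Measure I)
    {u | ¬ (ENNReal.ofReal (u : ℝ) < c ↔ ENNReal.ofReal (u : ℝ) < d)} ≤ (c - d) + (d - c) := by
  refine (measure_mono ?_).trans ((measure_union_le _ _).trans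
    (add_le_add (vol_sdiff c d) (vol_sdiff d c)))
  intro u hu
  by_cases h : ENNReal.ofReal (u : ℝ) < c
  · left
    exact ⟨h, fun k => hu ⟨fun _ => k, fun _ => h⟩⟩
  · right
    refine ⟨?_, h⟩
    by_contra h'
    exact hu ⟨fun k => absurd k h, fun k => absurd k h'⟩

theorem vol_compl (c : ℝ≥0∞) (hc : c ≠ ⊤) : (volume : Measure I)
    {u | ¬ ENNReal.ofReal (u : ℝ) < c} ≤ ENNReal.ofReal (Real.exp (-c.toReal)) := by
  have h1 : {u : I | ¬ ENNReal.ofReal (u : ℝ) < c} = {u : I | ENNReal.ofReal (u : ℝ) < c}ᶜ := rfl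
  rw [h1, measure_compl (meas_lt c) (measure_ne_top _ _), vol_lt, measure_univ]
  rcases le_total 1 c with h | h
  · rw [min_eq_left h, tsub_self]
    exact zero_le
  · rw [min_eq_right h]
    have : (1 : ℝ≥0∞) - c = ENNReal.ofReal (1 - c.toReal) := by
      rw [ENNReal.ofReal_sub _ ENNReal.toReal_nonneg, ENNReal.ofReal_one, ENNReal.ofReal_toReal hc]
    rw [this]
    exact ENNReal.ofReal_le_ofReal (Real.one_sub_le_exp_neg _)

variable {V : Type*}

theorem itA_supp' {G : SimpleGraph V} (h : LF G) (n : ℕ) : ∀ x,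
    {s | itA G (dl s) n x ≠ 0}.Finite := by
  induction n with
  | zero =>
    intro x
    refine (Set.finite_singleton x).subset ?_
    intro s hs
    by_contra hne
    have hne' : ¬ s = x := hne
    have hne'' : ¬ x = s := fun k => hne' k.symm
    exact hs (by simp [itA, dl, hne''])
  | succ n ih =>
    intro x
    refine ((h x).biUnion (t := fun w => {s | itA G (dl s) n w ≠ 0}) fun w _ => ih w).subset ?_
    intro s hs
    have hs' : avg G (itA G (dl s) n) x ≠ 0 := hs
    rw [avg_eq h] at hs'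
    have h1 : ∑ w ∈ nb h x, itA G (dl s) n w ≠ 0 := by
      intro h0; rw [h0] at hs'; simp at hs'
    obtain ⟨w, hw, hw2⟩ := Finset.exists_ne_zero_of_sum_ne_zero h1
    exact Set.mem_biUnion (x := w) ((mem_nb h).1 hw) hw2

theorem KC_supp' {G : SimpleGraph V} (h : LF G) (n : ℕ) (x : V) :
    {s | KC G n x s ≠ 0}.Finite := by
  have : {s | KC G n x s ≠ 0} ⊆ ⋃ j ∈ (range n : Set ℕ), {s | itA G (dl s) j x ≠ 0} := by
    intro s hs
    have h1 : FS G (dl s) n x ≠ 0 := by
      intro h0; apply hs; unfold KC; rw [h0]; simp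
    obtain ⟨j, hj, hj2⟩ := Finset.exists_ne_zero_of_sum_ne_zero h1
    exact Set.mem_biUnion (x := j) (by simpa using hj) hj2
  exact (Set.Finite.biUnion (Finset.finite_toSet _) fun j _ => itA_supp' h j x).subset this

theorem empty_prob {G : SimpleGraph V} (h : LF G) (hi : ∀ v, ∃ w, G.Adj v w) (R : ℕ) {N : ℕ}
    (hN : N ≠ 0) (k : ℕ) (x : V) :
    PW (V × ℕ) {ω | As G R N (fun s => ω (s, k)) x = ∅} ≤ ENNReal.ofReal (Real.exp (-R)) := by
  classical
  set S := (KC_supp' h N x).toFinset with hS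
  have hsum : ∑ s ∈ S, KC G N x s = 1 := by
    rw [← KC_sum h hi hN x]
    symm
    refine tsum_eq_sum fun s hs => ?_
    by_contra h0
    exact hs (by simpa [hS] using h0)
  let t : V × ℕ → Set I := fun i => {u | ¬ ENNReal.ofReal (u : ℝ) < R * KC G N x i.1}
  have hsub : {ω : V × ℕ → I | As G R N (fun s => ω (s, k)) x = ∅} ⊆
      Set.pi (S.image (fun s => (s, k)) : Finset (V × ℕ)) t := by
    intro ω hω i hi
    obtain ⟨s, -, rfl⟩ := Finset.mem_image.1 (Finset.mem_coe.1 hi)
    intro hlt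
    have : s ∈ As G R N (fun s => ω (s, k)) x := hlt
    have hω' : As G R N (fun s => ω (s, k)) x = ∅ := hω
    rw [hω'] at this
    exact this
  have hKfin : ∀ s, (R : ℝ≥0∞) * KC G N x s ≠ ⊤ := fun s => ENNReal.mul_ne_top
    (ENNReal.natCast_ne_top _) (ne_top_of_le_ne_top ENNReal.one_ne_top (KC_le_one G N x s))
  refine (measure_mono hsub).trans ?_
  have htm : ∀ i, MeasurableSet (t i) := fun i => (meas_lt (R * KC G N x i.1)).compl
  rw [Measure.infinitePi_pi _ (fun i _ => htm i), Finset.prod_image (by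
    intro s _ s' _ h; exact (Prod.mk.inj h).1)]
  calc ∏ s ∈ S, (volume : Measure I) (t (s, k))
      ≤ ∏ s ∈ S, ENNReal.ofReal (Real.exp (-((R : ℝ≥0∞) * KC G N x s).toReal)) :=
        Finset.prod_le_prod' fun s _ => vol_compl _ (hKfin s)
    _ = ENNReal.ofReal (Real.exp (-R)) := by
        rw [← ENNReal.ofReal_prod_of_nonneg (fun s _ => (Real.exp_pos _).le), ← Real.exp_sum,
          Finset.sum_neg_distrib, ← ENNReal.toReal_sum (fun s _ => hKfin s), ← Finset.mul_sum,
          hsum]
        simp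

theorem diff_prob [Countable V] (G : SimpleGraph V) (R N : ℕ) (k : ℕ) (x y : V) :
    PW (V × ℕ) {ω | As G R N (fun s => ω (s, k)) x ≠ As G R N (fun s => ω (s, k)) y} ≤
      R * (∑' s, (KC G N x s - KC G N y s) + ∑' s, (KC G N y s - KC G N x s)) := by
  have hsub : {ω : V × ℕ → I |
      As G R N (fun s => ω (s, k)) x ≠ As G R N (fun s => ω (s, k)) y} ⊆
      ⋃ s : V, (fun ω : V × ℕ → I => ω (s, k)) ⁻¹'
        {u | ¬ (ENNReal.ofReal (u : ℝ) < R * KC G N x s ↔
          ENNReal.ofReal (u : ℝ) < R * KC G N y s)} := by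
    intro ω hω
    by_contra hcon
    apply hω
    ext s
    by_contra hs
    exact hcon (Set.mem_iUnion.2 ⟨s, hs⟩)
  have hm : ∀ c d : ℝ≥0∞, MeasurableSet {u : I | ¬ (ENNReal.ofReal (u : ℝ) < c ↔
      ENNReal.ofReal (u : ℝ) < d)} := by
    intro c d
    apply measurableSet_setOfPred.2
    exact ((measurableSet_setOfPred.1 (meas_lt c)).iff (measurableSet_setOfPred.1 (meas_lt d))).not
  refine (measure_mono hsub).trans ((measure_iUnion_le _).trans ?_)
  rw [← ENNReal.tsum_add, ← ENNReal.tsum_mul_left]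
  refine ENNReal.tsum_le_tsum fun s => ?_
  rw [(measurePreserving_eval_infinitePi (fun _ : V × ℕ => (volume : Measure I))
    (s, k)).measure_preimage (hm _ _).nullMeasurableSet]
  refine (vol_xor _ _).trans ?_
  rw [mul_add, ENNReal.mul_sub (fun _ _ => ENNReal.natCast_ne_top _),
    ENNReal.mul_sub (fun _ _ => ENNReal.natCast_ne_top _)]

open Classical in
/-- the error bound -/
noncomputable def Psi (G : SimpleGraph V) (R N : ℕ) (x : V) : ℝ≥0∞ :=
  ∑' y, if G.Adj x y then
    R * (∑' s, (KC G N x s - KC G N y s) + ∑' s, (KC G N y s - KC G N x s)) else 0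

/-- the bad event at `x` -/
def bad (G : SimpleGraph V) (R N k : ℕ) (x : V) : Set (V × ℕ → I) :=
  {ω | ∃ y, G.Adj x y ∧ ¬ rl G R N (fun s => ω (s, k)) x y}

theorem mism [Countable V] {G : SimpleGraph V} (h : LF G) (hc : G.Connected) (R : ℕ) {N : ℕ}
    (hN : N ≠ 0) (k : ℕ) (x : V) :
    PW (V × ℕ) (bad G R N k x) ≤ ENNReal.ofReal (Real.exp (-R)) + Psi G R N x := by
  classical
  by_cases hx : ∃ w, G.Adj x w
  · have hi : ∀ v, ∃ w, G.Adj v w := by
      intro v
      by_cases hv : v = x
      · rw [hv]; exact hx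
      · obtain ⟨p⟩ := hc.preconnected v x
        cases p with
        | nil => exact absurd rfl hv
        | cons hadj p => exact ⟨_, hadj⟩
    have hsub : bad G R N k x ⊆ {ω | As G R N (fun s => ω (s, k)) x = ∅} ∪
        ⋃ y : V, if G.Adj x y then
          {ω | As G R N (fun s => ω (s, k)) x ≠ As G R N (fun s => ω (s, k)) y} else ∅ := by
      rintro ω ⟨y, hy, hrl⟩
      by_cases h0 : As G R N (fun s => ω (s, k)) x = ∅
      · exact Or.inl h0
      · right
        refine Set.mem_iUnion.2 ⟨y, ?_⟩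
        rw [if_pos hy]
        intro heq
        exact hrl ⟨heq, Set.nonempty_iff_ne_empty.2 h0⟩
    refine (measure_mono hsub).trans ((measure_union_le _ _).trans (add_le_add
      (empty_prob h hi R hN k x) ((measure_iUnion_le _).trans ?_)))
    unfold Psi
    refine ENNReal.tsum_le_tsum fun y => ?_
    by_cases hy : G.Adj x y
    · rw [if_pos hy, if_pos hy]
      exact diff_prob G R N k x y
    · rw [if_neg hy, if_neg hy, measure_empty]
  · have : bad G R N k x = ∅ := by
      rw [Set.eq_empty_iff_forall_notMem]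
      rintro ω ⟨y, hy, -⟩
      exact hx ⟨y, hy⟩
    rw [this, measure_empty]
    exact zero_le

theorem Psi_tendsto {G : SimpleGraph V} (h : LF G) (hc : G.Connected) (hr : Recurrent G) (R : ℕ)
    (x : V) : Filter.Tendsto (fun N => Psi G R N x) Filter.atTop (nhds 0) := by
  classical
  have h1 : ∀ N, Psi G R N x = ∑ y ∈ nb h x,
      R * (∑' s, (KC G N x s - KC G N y s) + ∑' s, (KC G N y s - KC G N x s)) := by
    intro N
    unfold Psi
    rw [tsum_eq_sum (s := nb h x) (fun w hw => if_neg (fun k => hw ((mem_nb h).2 k)))]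
    exact Finset.sum_congr rfl fun w hw => if_pos ((mem_nb h).1 hw)
  simp only [h1]
  have h2 : (0 : ℝ≥0∞) = ∑ y ∈ nb h x, (R : ℝ≥0∞) * (0 + 0) := by simp
  rw [h2]
  refine tendsto_finsetSum _ fun y _ => ?_
  refine ENNReal.Tendsto.const_mul ?_ (Or.inr (ENNReal.natCast_ne_top _))
  exact (KC_tendsto h hc hr x y).add (KC_tendsto h hc hr y x)

theorem meas_Psi [Countable V] {Ω : Type*} [MeasurableSpace Ω] {G : Ω → SimpleGraph V}
    (hG : Measurable G) (R N : ℕ) (x : V) : Measurable fun o => Psi (G o) R N x := by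
  classical
  unfold Psi
  refine Measurable.tsum fun y => Measurable.ite
    (measurableSet_setOfPred.2 (SimpleGraph.measurable_iff_adj.1 hG x y)) ?_ measurable_const
  refine measurable_const.mul (Measurable.add ?_ ?_)
  · exact Measurable.tsum fun s => (meas_KC hG N x s).sub (meas_KC hG N y s)
  · exact Measurable.tsum fun s => (meas_KC hG N y s).sub (meas_KC hG N x s)

end Pool.Agent.U753.UF
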