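import Pool.Agent.U753.UF.Equi
import Pool.Agent.U753.UF.MTDef

/-!
# Mass transport
-/

set_option linter.unusedSectionVars false

namespace Pool.Agent.U753.UF

open Finset Pool.Agent.TH968.UST Pool.Agent.TH830.UST MeasureTheory ProbabilityTheory
open scoped ENNReal unitInterval

variable {V : Type*} [Countable V] [DecidableEq V] [MeasurableSpace V] [DiscreteMeasurableSpace V]

/-- the label space -/
abbrev LS (V : Type*) := (V × ℕ → I) × (V × ℕ → I)

/-- the law of the labels -/
noncomputable abbrev PL (V : Type*) : Measure (LS V) := (PW (V × ℕ)).prod (PW (V × ℕ))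

theorem GR_map (γ : V ≃ V) (G : SimpleGraph V) : GR γ G (G.map γ.toEmbedding) := by
  intro x y
  rw [SimpleGraph.map_adj]
  constructor
  · rintro ⟨u, v, h, h1, h2⟩
    have h1' : u = x := γ.injective h1
    have h2' : v = y := γ.injective h2
    rwa [← h1', ← h2']
  · intro h
    exact ⟨x, y, h, rfl, rfl⟩

/-- a measurable invariant field -/
structure Nice (h : SimpleGraph V → LS V → V → ℝ≥0∞) : Prop where
  meas : ∀ x, Measurable fun q : SimpleGraph V × LS V => h q.1 q.2 x
  inv : ∀ (γ : V ≃ V) (G G' : SimpleGraph V), GR γ G G' → ∀ ω ω' : LS V,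
    (∀ v k, ω'.1 (γ v, k) = ω.1 (v, k)) → (∀ v k, ω'.2 (γ v, k) = ω.2 (v, k)) →
    ∀ x, h G' ω' (γ x) = h G ω x

/-- the action on the labels -/
def act2 (γ : V ≃ V) : LS V → LS V := Prod.map (act γ) (act γ)

theorem act2_mp (γ : V ≃ V) : MeasurePreserving (act2 γ) (PL V) (PL V) :=
  (act_mp (γ := γ)).prod (act_mp (γ := γ))

/-- averages of nice fields are invariant -/
theorem Nice.int_inv {h : SimpleGraph V → LS V → V → ℝ≥0∞} (hn : Nice h) (γ : V ≃ V)
    {G G' : SimpleGraph V} (hG : GR γ G G') (x : V) :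
    ∫⁻ ω, h G' ω (γ x) ∂(PL V) = ∫⁻ ω, h G ω x ∂(PL V) := by
  rw [← (act2_mp γ).lintegral_comp]
  · refine lintegral_congr fun ω => ?_
    exact hn.inv γ G G' hG ω (act2 γ ω) (fun v k => act_apply ω.1 v k)
      (fun v k => act_apply ω.2 v k) x
  · exact (hn.meas (γ x)).comp (measurable_const.prodMk measurable_id)

theorem Nice.int_meas {h : SimpleGraph V → LS V → V → ℝ≥0∞} (hn : Nice h) (x : V) :
    Measurable fun G => ∫⁻ ω, h G ω x ∂(PL V) :=
  (hn.meas x).lintegral_prod_right'

/-- everything shows at the root -/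
theorem root_all {μ : Measure (SimpleGraph V × V)} (hμ : MassTransport μ)
    (g : SimpleGraph V → V → ℝ≥0∞) (hm : ∀ x, Measurable fun G => g G x)
    (hinv : ∀ (γ : V ≃ V) (G : SimpleGraph V) (x : V), g (G.map γ.toEmbedding) (γ x) = g G x)
    (h : ∫⁻ p, g p.1 p.2 ∂μ ≠ ⊤) : ∀ᵐ p ∂μ, ∀ x, g p.1 x ≠ ⊤ := by
  classical
  have hgm : Measurable fun p : SimpleGraph V × V => g p.1 p.2 :=
    measurable_from_prod_countable_left fun x => hm x
  let q : SimpleGraph V → V → ℝ≥0∞ := fun G x => if g G x = ⊤ then 1 else 0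
  have hqm : ∀ x, Measurable fun G => q G x := fun x =>
    Measurable.ite ((hm x) (measurableSet_singleton ⊤)) measurable_const measurable_const
  have h1 := hμ (fun G _ y => q G y) (fun _ y => hqm y) (by
    intro γ G x y
    simp only [q, hinv])
  have h2 : ∀ᵐ p ∂μ, g p.1 p.2 ≠ ⊤ := by
    filter_upwards [ae_lt_top hgm h] with p hp
    exact hp.ne
  have h3 : ∫⁻ p : SimpleGraph V × V, ∑' _x : V, q p.1 p.2 ∂μ = 0 := by
    rw [lintegral_eq_zero_iff']
    · filter_upwards [h2] with p hp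
      simp [q, hp]
    · exact (Measurable.tsum fun _ => measurable_from_prod_countable_left
        fun x => hqm x).aemeasurable
  rw [h3, lintegral_eq_zero_iff'] at h1
  · filter_upwards [h1] with p hp x hx
    have h4 : ∑' y, q p.1 y = 0 := hp
    rw [ENNReal.tsum_eq_zero] at h4
    have h5 := h4 x
    simp [q, hx] at h5
  · exact (Measurable.tsum fun y => (hqm y).comp measurable_fst).aemeasurable

section Avg

variable (R N : ℕ → ℕ) (n : ℕ)

/-- same component at level `n + 1` -/
def rr (G : SimpleGraph V) (ω : LS V) (x y : V) : Prop := (HH R N G ω.1 (n + 1)).Reachable x y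

open Classical in
/-- size of the component -/
noncomputable def cd (G : SimpleGraph V) (ω : LS V) (x : V) : ℝ≥0∞ :=
  ∑' z, if rr R N n G ω x z then 1 else 0

theorem rr_meas (x y : V) : Measurable fun q : SimpleGraph V × LS V => rr R N n q.1 q.2 x y := by
  refine meas_reach (H := fun q : SimpleGraph V × LS V => HH R N q.1 q.2.1 (n + 1)) ?_ x y
  exact meas_HH R N measurable_fst (fun i => (measurable_pi_apply i).comp
    (measurable_fst.comp measurable_snd)) (n + 1)

theorem rr_inv (γ : V ≃ V) {G G' : SimpleGraph V} (hG : GR γ G G') {ω ω' : LS V}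
    (h1 : ∀ v k, ω'.1 (γ v, k) = ω.1 (v, k)) (x y : V) :
    rr R N n G' ω' (γ x) (γ y) ↔ rr R N n G ω x y :=
  reach_equi (HH_equi hG R N h1 (n + 1)) x y

theorem cd_meas (x : V) : Measurable fun q : SimpleGraph V × LS V => cd R N n q.1 q.2 x := by
  classical
  unfold cd
  exact Measurable.tsum fun z => Measurable.ite
    (measurableSet_setOfPred.2 (rr_meas R N n x z)) measurable_const measurable_const

theorem cd_inv (γ : V ≃ V) {G G' : SimpleGraph V} (hG : GR γ G G') {ω ω' : LS V}
    (h1 : ∀ v k, ω'.1 (γ v, k) = ω.1 (v, k)) (x : V) :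
    cd R N n G' ω' (γ x) = cd R N n G ω x := by
  classical
  unfold cd
  rw [← γ.tsum_eq]
  refine tsum_congr fun z => ?_
  simp only [rr_inv R N n γ hG h1]

theorem cd_pos (G : SimpleGraph V) (ω : LS V) (x : V) : cd R N n G ω x ≠ 0 := by
  classical
  intro h
  unfold cd at h
  rw [ENNReal.tsum_eq_zero] at h
  have := h x
  have hx : rr R N n G ω x x := SimpleGraph.Reachable.refl x
  rw [if_pos hx] at this
  exact one_ne_zero this

open Classical in
theorem cd_comp {G : SimpleGraph V} {ω : LS V} {x : V} {C : Finset V}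
    (hC : Comp (HH R N G ω.1 (n + 1)) C) (hx : x ∈ C) (f : V → ℝ≥0∞) :
    (∑' z, if rr R N n G ω x z then f z else 0) = ∑ z ∈ C, f z := by
  rw [tsum_eq_sum (s := C)]
  · exact Finset.sum_congr rfl fun z hz => if_pos ((hC.2 x hx z).1 hz)
  · intro z hz
    exact if_neg fun k => hz ((hC.2 x hx z).2 k)

theorem cd_fin {G : SimpleGraph V} (h : LF G) (ω : LS V) (x : V) : cd R N n G ω x ≠ ⊤ := by
  classical
  obtain ⟨C, hC, hx⟩ := HH_fin (R := R) (N := N) (ω := ω.1) h (n + 1) x
  unfold cd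
  rw [cd_comp R N n hC hx]
  simp

theorem cd_eq {G : SimpleGraph V} {ω : LS V} {x y : V} (h : rr R N n G ω x y) :
    cd R N n G ω x = cd R N n G ω y := by
  classical
  unfold cd
  refine tsum_congr fun z => ?_
  have : rr R N n G ω x z ↔ rr R N n G ω y z :=
    ⟨fun k => (SimpleGraph.Reachable.symm h).trans k, fun k => SimpleGraph.Reachable.trans h k⟩
  simp only [this]

open Classical in
/-- averaging over components -/
theorem mt_avg {μ : Measure (SimpleGraph V × V)} (hμ : MassTransport μ)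
    (hLF : ∀ᵐ p ∂μ, LF p.1) {h : SimpleGraph V → LS V → V → ℝ≥0∞} (hn : Nice h) :
    ∫⁻ p, ∫⁻ ω, h p.1 ω p.2 ∂(PL V) ∂μ =
      ∫⁻ p, ∫⁻ ω, (∑' x, if rr R N n p.1 ω p.2 x then h p.1 ω x else 0) /
        cd R N n p.1 ω p.2 ∂(PL V) ∂μ := by
  let k : V → SimpleGraph V → LS V → V → ℝ≥0∞ := fun y G ω x =>
    if rr R N n G ω x y then h G ω x / cd R N n G ω x else 0
  have hkm : ∀ x y, Measurable fun q : SimpleGraph V × LS V => k y q.1 q.2 x := fun x y =>
    Measurable.ite (measurableSet_setOfPred.2 (rr_meas R N n x y))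
      ((hn.meas x).div (cd_meas R N n x)) measurable_const
  have hkm' : ∀ (G : SimpleGraph V) (x y : V), Measurable fun ω : LS V => k y G ω x :=
    fun G x y => (hkm x y).comp (measurable_const.prodMk measurable_id)
  have h1 := hμ (fun G x y => ∫⁻ ω, k y G ω x ∂(PL V))
    (fun x y => (hkm x y).lintegral_prod_right') (by
      intro γ G x y
      rw [← (act2_mp γ).lintegral_comp]
      · refine lintegral_congr fun ω => ?_
        have e1 : ∀ v k, (act2 γ ω).1 (γ v, k) = ω.1 (v, k) := fun v k => act_apply ω.1 v k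
        have e2 : ∀ v k, (act2 γ ω).2 (γ v, k) = ω.2 (v, k) := fun v k => act_apply ω.2 v k
        simp only [k]
        rw [hn.inv γ G _ (GR_map γ G) ω _ e1 e2 x, cd_inv R N n γ (GR_map γ G) e1 x]
        simp only [rr_inv R N n γ (GR_map γ G) e1]
      · exact (hkm (γ x) (γ y)).comp (measurable_const.prodMk measurable_id))
  have hl : ∫⁻ p, ∑' y, ∫⁻ ω, k y p.1 ω p.2 ∂(PL V) ∂μ =
      ∫⁻ p, ∫⁻ ω, h p.1 ω p.2 ∂(PL V) ∂μ := by
    refine lintegral_congr_ae ?_
    filter_upwards [hLF] with p hp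
    rw [← lintegral_tsum (fun y => (hkm' p.1 p.2 y).aemeasurable)]
    refine lintegral_congr fun ω => ?_
    have : ∀ y, k y p.1 ω p.2 = h p.1 ω p.2 / cd R N n p.1 ω p.2 *
        (if rr R N n p.1 ω p.2 y then 1 else 0) := by
      intro y
      simp only [k]
      split_ifs <;> simp
    simp only [this]
    rw [ENNReal.tsum_mul_left]
    show h p.1 ω p.2 / cd R N n p.1 ω p.2 * cd R N n p.1 ω p.2 = _
    exact ENNReal.div_mul_cancel (cd_pos R N n _ _ _) (cd_fin R N n hp _ _)
  have hr : ∫⁻ p, ∑' x, ∫⁻ ω, k p.2 p.1 ω x ∂(PL V) ∂μ =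
      ∫⁻ p, ∫⁻ ω, (∑' x, if rr R N n p.1 ω p.2 x then h p.1 ω x else 0) /
        cd R N n p.1 ω p.2 ∂(PL V) ∂μ := by
    refine lintegral_congr fun p => ?_
    rw [← lintegral_tsum (fun x => (hkm' p.1 x p.2).aemeasurable)]
    refine lintegral_congr fun ω => ?_
    simp only [div_eq_mul_inv]
    rw [← ENNReal.tsum_mul_right]
    refine tsum_congr fun x => ?_
    simp only [k]
    by_cases hx : rr R N n p.1 ω x p.2
    · have hx' : rr R N n p.1 ω p.2 x := SimpleGraph.Reachable.symm hx
      rw [if_pos hx, if_pos hx', cd_eq R N n hx, div_eq_mul_inv]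
    · have hx' : ¬ rr R N n p.1 ω p.2 x := fun k => hx (SimpleGraph.Reachable.symm k)
      rw [if_neg hx, if_neg hx', zero_mul]
  rw [← hl, ← hr]
  exact h1

end Avg

end Pool.Agent.U753.UF
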