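import Pool.Agent.U753.UF.Lim

/-!
# The random partitions of a recurrent graph into finite connected pieces
-/

set_option linter.unusedSectionVars false

namespace Pool.Agent.U753.UF

open Finset Pool.Agent.TH968.UST Pool.Agent.TH830.UST MeasureTheory ProbabilityTheory
open scoped ENNReal unitInterval

variable {V : Type*}

/-- the vertices `s` marked by `x` -/
def As (G : SimpleGraph V) (R N : ℕ) (b : V → I) (x : V) : Set V :=
  {s | ENNReal.ofReal (b s : ℝ) < R * KC G N x s}

/-- `x` and `y` mark the same nonempty set -/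
def rl (G : SimpleGraph V) (R N : ℕ) (b : V → I) (x y : V) : Prop :=
  As G R N b x = As G R N b y ∧ (As G R N b x).Nonempty

theorem rl_symm {G : SimpleGraph V} {R N : ℕ} {b : V → I} {x y : V} (h : rl G R N b x y) :
    rl G R N b y x := ⟨h.1.symm, h.1 ▸ h.2⟩

theorem rl_trans {G : SimpleGraph V} {R N : ℕ} {b : V → I} {x y z : V} (h : rl G R N b x y)
    (h' : rl G R N b y z) : rl G R N b x z := ⟨h.1.trans h'.1, h.2⟩

/-- the increasing graphs -/
def HH (R N : ℕ → ℕ) (G : SimpleGraph V) (ω : V × ℕ → I) : ℕ → SimpleGraph V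
  | 0 => ⊥
  | n + 1 =>
    { Adj := fun x y => G.Adj x y ∧ ∀ m, n ≤ m → rl G (R m) (N m) (fun s => ω (s, m + 1)) x y
      symm := ⟨fun _ _ h => ⟨h.1.symm, fun m hm => rl_symm (h.2 m hm)⟩⟩
      loopless := ⟨fun _ h => h.1.ne rfl⟩ }

variable {R N : ℕ → ℕ} {G : SimpleGraph V} {ω : V × ℕ → I}

theorem HH_adj {n : ℕ} {x y : V} : (HH R N G ω (n + 1)).Adj x y ↔
    G.Adj x y ∧ ∀ m, n ≤ m → rl G (R m) (N m) (fun s => ω (s, m + 1)) x y := Iff.rfl

theorem HH_mono : Monotone (HH R N G ω) := by
  refine monotone_nat_of_le_succ fun n => ?_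
  cases n with
  | zero => exact bot_le
  | succ n =>
    intro x y h
    rw [HH_adj] at h ⊢
    exact ⟨h.1, fun m hm => h.2 m (by omega)⟩

theorem HH_le (n : ℕ) : HH R N G ω n ≤ G := by
  cases n with
  | zero => exact bot_le
  | succ n => intro x y h; exact (HH_adj.1 h).1

theorem HH_reach {n : ℕ} {x y : V} (h : (HH R N G ω (n + 1)).Reachable x y) :
    x = y ∨ ∀ m, n ≤ m → rl G (R m) (N m) (fun s => ω (s, m + 1)) x y := by
  obtain ⟨p⟩ := h
  induction p with
  | nil => exact Or.inl rfl
  | cons hadj p ih =>
    right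
    intro m hm
    rcases ih with rfl | h
    · exact (HH_adj.1 hadj).2 m hm
    · exact rl_trans ((HH_adj.1 hadj).2 m hm) (h m hm)

theorem HH_fin (h : LF G) (n : ℕ) : FC (HH R N G ω n) := by
  classical
  intro x
  have hfin : {y | (HH R N G ω n).Reachable x y}.Finite := by
    cases n with
    | zero =>
      refine (Set.finite_singleton x).subset ?_
      intro y hy
      have hy' : (⊥ : SimpleGraph V).Reachable x y := hy
      rw [SimpleGraph.reachable_bot] at hy'
      exact hy'.symm
    | succ n =>
      by_cases hne : (As G (R n) (N n) (fun s => ω (s, n + 1)) x).Nonempty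
      · obtain ⟨s, hs⟩ := hne
        refine ((Set.finite_singleton x).union (KC_supp h s (N n))).subset ?_
        intro y hy
        rcases HH_reach hy with h1 | h1
        · exact Or.inl h1.symm
        · right
          have h2 := (h1 n le_rfl).1
          rw [h2] at hs
          intro h0
          have hs' : ENNReal.ofReal (ω (s, n + 1) : ℝ) < R n * KC G (N n) y s := hs
          rw [h0] at hs'
          simp at hs'
      · refine (Set.finite_singleton x).subset ?_
        intro y hy
        rcases HH_reach hy with h1 | h1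
        · exact h1.symm
        · exact absurd (h1 n le_rfl).2 hne
  refine ⟨hfin.toFinset, ⟨⟨x, by simp⟩, ?_⟩, by simp⟩
  intro u hu y
  have hu' : (HH R N G ω n).Reachable x u := by simpa using hu
  simp only [Set.Finite.mem_toFinset, Set.mem_ofPred_eq]
  exact ⟨fun k => hu'.symm.trans k, fun k => hu'.trans k⟩

theorem HH_good (h : LF G) : Good (HH R N G ω) := ⟨rfl, HH_mono, HH_fin h⟩

theorem HH_ind : ∀ᶠ n in Filter.atTop, ∀ x y, (HH R N G ω n).Reachable x y → G.Adj x y →
    (HH R N G ω n).Adj x y := by
  filter_upwards [Filter.eventually_ge_atTop 1] with n hn x y hxy hG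
  obtain ⟨k, rfl⟩ : ∃ k, n = k + 1 := ⟨n - 1, by omega⟩
  rcases HH_reach hxy with rfl | h
  · exact absurd rfl hG.ne
  · exact HH_adj.2 ⟨hG, h⟩

section Meas

variable [Countable V] {Ω : Type*} [MeasurableSpace Ω] {G : Ω → SimpleGraph V}
  {w : Ω → V × ℕ → I}

open Classical in
theorem meas_avg (hG : Measurable G) {f : Ω → V → ℝ≥0∞} (hf : ∀ v, Measurable fun o => f o v)
    (v : V) : Measurable fun o => avg (G o) (f o) v := by
  unfold avg
  have h1 : ∀ w, MeasurableSet {o | (G o).Adj v w} := fun w =>
    measurableSet_setOfPred.2 (SimpleGraph.measurable_iff_adj.1 hG v w)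
  refine Measurable.div ?_ ?_
  · exact Measurable.tsum fun w => Measurable.ite (h1 w) (hf w) measurable_const
  · exact Measurable.tsum fun w => Measurable.ite (h1 w) measurable_const measurable_const

theorem meas_itA (hG : Measurable G) (φ : V → ℝ≥0∞) (n : ℕ) : ∀ x,
    Measurable fun o => itA (G o) φ n x := by
  induction n with
  | zero => intro x; exact measurable_const
  | succ n ih => intro x; exact meas_avg hG ih x

theorem meas_KC (hG : Measurable G) (n : ℕ) (x s : V) : Measurable fun o => KC (G o) n x s := by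
  unfold KC FS
  refine Measurable.div ?_ measurable_const
  exact Finset.measurable_sum _ fun j _ => meas_itA hG _ j x

theorem meas_As (hG : Measurable G) {b : Ω → V → I} (hb : ∀ s, Measurable fun o => b o s)
    (R N : ℕ) (x s : V) : Measurable fun o => s ∈ As (G o) R N (b o) x := by
  show Measurable fun o => (ENNReal.ofReal (b o s : ℝ) < R * KC (G o) N x s)
  refine measurableSet_setOfPred.1 (measurableSet_lt ?_ ?_)
  · exact ENNReal.measurable_ofReal.comp (measurable_subtype_coe.comp (hb s))
  · exact measurable_const.mul (meas_KC hG N x s)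

theorem meas_rl (hG : Measurable G) {b : Ω → V → I} (hb : ∀ s, Measurable fun o => b o s)
    (R N : ℕ) (x y : V) : Measurable fun o => rl (G o) R N (b o) x y := by
  unfold rl Set.Nonempty
  simp only [Set.ext_iff]
  exact (Measurable.forall fun s => (meas_As hG hb R N x s).iff (meas_As hG hb R N y s)).and
    (Measurable.exists fun s => meas_As hG hb R N x s)

theorem meas_HH (R N : ℕ → ℕ) (hG : Measurable G) (hw : ∀ i, Measurable fun o => w o i) (n : ℕ) :
    Measurable fun o => HH R N (G o) (w o) n := by
  rw [SimpleGraph.measurable_iff_adj]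
  intro x y
  cases n with
  | zero => exact measurable_const
  | succ n =>
    simp only [HH_adj]
    refine (SimpleGraph.measurable_iff_adj.1 hG x y).and (Measurable.forall fun m =>
      Measurable.imp measurable_const ?_)
    exact meas_rl hG (fun s => hw (s, m + 1)) _ _ x y

end Meas

end Pool.Agent.U753.UF
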