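import Pool.Agent.U753.UF.Walk
import Pool.Agent.TH830.J73
import Pool.Agent.TH830.J74

/-!
# Potential theory: on a recurrent graph free and wired uniform spanning trees agree locally
-/

set_option linter.unusedSectionVars false

namespace Pool.Agent.U753.UF

open Finset Pool.Agent.TH968.UST Pool.Agent.TH830.UST
open Pool.Agent.TH830.J74 (av av_mono card_pos' dom_av)
open Pool.Agent.TH830.J73 (RM K1 K2 dsq_mk dsq_nonneg)
open scoped ENNReal

variable {V : Type*}

open Classical in
/-- edges of `G` inside `C` -/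
noncomputable def inn (G : SimpleGraph V) (C : Finset V) : Finset (Sym2 V) :=
  C.sym2.filter (fun e => e ∈ G.edgeSet)

theorem mem_inn {G : SimpleGraph V} {C : Finset V} {a b : V} :
    s(a, b) ∈ inn G C ↔ a ∈ C ∧ b ∈ C ∧ G.Adj a b := by
  classical
  unfold inn
  rw [Finset.mem_filter, Finset.mk_mem_sym2_iff, SimpleGraph.mem_edgeSet, and_assoc]

theorem touch_finite {G : SimpleGraph V} (h : LF G) (B : Finset V) : (touch G B).Finite := by
  refine ((Finset.finite_toSet B).biUnion (t := fun v => (fun w => s(v, w)) '' (G.neighborSet v))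
    fun v _ => (h v).image _).subset ?_
  rintro e ⟨he, v, hv, hve⟩
  obtain ⟨w, rfl⟩ := hve
  exact Set.mem_biUnion (x := v) hv ⟨w, he, rfl⟩

theorem ust_eq [DecidableEq V] (r : Setoid V) (E : Finset (Sym2 V)) (F A : Finset (Sym2 V)) :
    ustProb r (E : Set (Sym2 V)) (F : Set (Sym2 V)) (A : Set (Sym2 V)) =
      (((trees r E).filter (fun T => T ∩ F = A)).card : ℝ) / ((trees r E).card : ℝ) := by
  classical
  unfold ustProb
  have hinj : Function.Injective (fun T : Finset (Sym2 V) => (T : Set (Sym2 V))) :=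
    Finset.coe_injective
  have hm : ∀ T : Finset (Sym2 V), T ∈ trees r E ↔
      IsSpan r (E : Set (Sym2 V)) (T : Set (Sym2 V)) := by
    intro T
    unfold trees
    rw [Finset.mem_filter, Finset.mem_powerset]
    constructor
    · exact fun h => h.2
    · intro h
      exact ⟨by simpa using h.1, h⟩
  have e1 : {T : Set (Sym2 V) | IsSpan r (E : Set (Sym2 V)) T ∧ T ∩ F = A} =
      (fun T : Finset (Sym2 V) => (T : Set (Sym2 V))) ''
        (((trees r E).filter (fun T => T ∩ F = A) : Finset (Finset (Sym2 V))) : Set _) := by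
    ext T
    simp only [Set.mem_ofPred_eq, Set.mem_image, Finset.mem_coe, Finset.mem_filter]
    constructor
    · rintro ⟨h1, h2⟩
      have hf : T.Finite := (Finset.finite_toSet E).subset h1.1
      refine ⟨hf.toFinset, ⟨(hm _).2 (by simpa using h1), ?_⟩, by simp⟩
      apply hinj
      simp only [Finset.coe_inter, Set.Finite.coe_toFinset]
      exact h2
    · rintro ⟨S, ⟨h1, h2⟩, rfl⟩
      refine ⟨(hm S).1 h1, ?_⟩
      rw [← Finset.coe_inter, h2]
  have e2 : {T : Set (Sym2 V) | IsSpan r (E : Set (Sym2 V)) T} =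
      (fun T : Finset (Sym2 V) => (T : Set (Sym2 V))) ''
        ((trees r E : Finset (Finset (Sym2 V))) : Set _) := by
    ext T
    simp only [Set.mem_ofPred_eq, Set.mem_image, Finset.mem_coe]
    constructor
    · intro h1
      have hf : T.Finite := (Finset.finite_toSet E).subset h1.1
      exact ⟨hf.toFinset, (hm _).2 (by simpa using h1), by simp⟩
    · rintro ⟨S, h1, rfl⟩
      exact (hm S).1 h1
  rw [e1, e2, Set.ncard_image_of_injective _ hinj, Set.ncard_image_of_injective _ hinj,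
    Set.ncard_coe_finset, Set.ncard_coe_finset]

variable [DecidableEq V]

/-- probability that the tree meets `F` exactly in `A` -/
noncomputable def prA (r : Setoid V) (E F A : Finset (Sym2 V)) : ℝ :=
  av r E (fun T => if T ∩ F = A then 1 else 0)

/-- probability that the tree contains `e` -/
noncomputable def prE (r : Setoid V) (E : Finset (Sym2 V)) (e : Sym2 V) : ℝ :=
  av r E (fun T => if e ∈ T then 1 else 0)

theorem prA_eq (r : Setoid V) (E F A : Finset (Sym2 V)) :
    prA r E F A = ustProb r (E : Set (Sym2 V)) (F : Set (Sym2 V)) (A : Set (Sym2 V)) := by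
  rw [ust_eq]
  unfold prA av
  rw [Finset.sum_boole]

theorem prE_eq (r : Setoid V) (E : Finset (Sym2 V)) (e : Sym2 V) :
    prE r E e = (((trees r E).filter (fun T => e ∈ T)).card : ℝ) / ((trees r E).card : ℝ) := by
  unfold prE av
  rw [Finset.sum_boole]

theorem prE_le_one (r : Setoid V) (E : Finset (Sym2 V)) (e : Sym2 V) : prE r E e ≤ 1 := by
  rw [prE_eq, div_le_one (card_pos' r E)]
  exact_mod_cast Finset.card_filter_le _ _

theorem prE_nonneg (r : Setoid V) (E : Finset (Sym2 V)) (e : Sym2 V) : 0 ≤ prE r E e := by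
  rw [prE_eq]; positivity

theorem av_card (r : Setoid V) (E F : Finset (Sym2 V)) :
    av r E (fun T => ((T ∩ F).card : ℝ)) = ∑ e ∈ F, prE r E e := by
  unfold prE av
  rw [← Finset.sum_div, Finset.sum_comm]
  congr 1
  refine Finset.sum_congr rfl fun T _ => ?_
  rw [Finset.sum_boole]
  show (((T ∩ F).card : ℕ) : ℝ) = _
  rw [Finset.inter_comm, Finset.filter_mem_eq_inter]

theorem av_add' (r : Setoid V) (E : Finset (Sym2 V)) (h k : Finset (Sym2 V) → ℝ) :
    av r E (fun T => h T + k T) = av r E h + av r E k := by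
  unfold av
  rw [Finset.sum_add_distrib, add_div]

theorem av_sub' (r : Setoid V) (E : Finset (Sym2 V)) (h k : Finset (Sym2 V) → ℝ) :
    av r E (fun T => h T - k T) = av r E h - av r E k := by
  unfold av
  rw [Finset.sum_sub_distrib, sub_div]

theorem dom' (r r' : Setoid V) (hr : r' ≤ r) (E E' : Finset (Sym2 V)) (hE : E' ⊆ E)
    (g : Finset (Sym2 V) → ℝ) (hg : ∀ S T, S ⊆ T → g S ≤ g T) :
    av r E (fun T => g (T ∩ E')) ≤ av r' E' g :=
  dom_av (fun r r' hr E E' hE e he => RM r r' hr E E' hE e he) _ r r' hr E E' hE rfl g hg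

theorem av_congr (r : Setoid V) (E : Finset (Sym2 V)) (h k : Finset (Sym2 V) → ℝ)
    (hk : ∀ T ∈ trees r E, h T = k T) : av r E h = av r E k := by
  unfold av
  rw [Finset.sum_congr rfl hk]

theorem law_close (r r' : Setoid V) (hr : r' ≤ r) (E E' F A : Finset (Sym2 V)) (hE : E' ⊆ E)
    (hF : E ∩ F ⊆ E') :
    |prA r E F A - prA r' E' F A| ≤ ∑ e ∈ F, (prE r' E' e - prE r E e) := by
  have hint : ∀ T ∈ trees r E, (T ∩ E') ∩ F = T ∩ F := by
    intro T hT
    have hTE := (mem_trees.1 hT).1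
    ext e
    simp only [Finset.mem_inter]
    constructor
    · rintro ⟨⟨h1, h2⟩, h3⟩; exact ⟨h1, h3⟩
    · rintro ⟨h1, h2⟩
      exact ⟨⟨h1, hF (Finset.mem_inter.2 ⟨hTE h1, h2⟩)⟩, h2⟩
  have card_lt : ∀ S T : Finset (Sym2 V), S ⊆ T → S ∩ F ≠ T ∩ F →
      ((S ∩ F).card : ℝ) + 1 ≤ ((T ∩ F).card : ℝ) := by
    intro S T hST hne
    have : S ∩ F ⊂ T ∩ F :=
      Finset.ssubset_iff_subset_ne.2 ⟨Finset.inter_subset_inter_right hST, hne⟩
    exact_mod_cast Finset.card_lt_card this
  have card_le : ∀ S T : Finset (Sym2 V), S ⊆ T →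
      ((S ∩ F).card : ℝ) ≤ ((T ∩ F).card : ℝ) := by
    intro S T hST
    exact_mod_cast Finset.card_le_card (Finset.inter_subset_inter_right hST)
  have i01 : ∀ S : Finset (Sym2 V), (0 : ℝ) ≤ (if S ∩ F = A then (1 : ℝ) else 0) ∧
      (if S ∩ F = A then (1 : ℝ) else 0) ≤ 1 := by
    intro S; split_ifs <;> norm_num
  have h1 := dom' r r' hr E E' hE
    (fun T => ((T ∩ F).card : ℝ) + (if T ∩ F = A then 1 else 0)) (by
      intro S T hST
      by_cases h : S ∩ F = T ∩ F
      · rw [h]
      · have := card_lt S T hST h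
        have := i01 S
        have := i01 T
        linarith)
  have h2 := dom' r r' hr E E' hE
    (fun T => ((T ∩ F).card : ℝ) - (if T ∩ F = A then 1 else 0)) (by
      intro S T hST
      by_cases h : S ∩ F = T ∩ F
      · rw [h]
      · have := card_lt S T hST h
        have := i01 S
        have := i01 T
        linarith)
  rw [av_congr r E _ (fun T => ((T ∩ F).card : ℝ) + (if T ∩ F = A then 1 else 0))
    (fun T hT => by simp only [hint T hT]), av_add', av_add', av_card, av_card] at h1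
  rw [av_congr r E _ (fun T => ((T ∩ F).card : ℝ) - (if T ∩ F = A then 1 else 0))
    (fun T hT => by simp only [hint T hT]), av_sub', av_sub', av_card, av_card] at h2
  rw [Finset.sum_sub_distrib, abs_le]
  unfold prA
  constructor <;> linarith

theorem dsq_mul (φ χ : V → ℝ) (hφ : ∀ a, 0 ≤ φ a ∧ φ a ≤ 1) (hχ : ∀ a, 0 ≤ χ a ∧ χ a ≤ 1)
    {t : ℝ} (ht : 0 < t) (e : Sym2 V) :
    dsq (fun v => φ v * χ v) e ≤ (1 + t) * dsq φ e + (1 + 1 / t) * dsq χ e := by
  induction e using Sym2.ind with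
  | _ a b =>
    rw [dsq_mk, dsq_mk, dsq_mk]
    set u := (φ a - φ b) * χ a
    set v := φ b * (χ a - χ b)
    have e1 : φ a * χ a - φ b * χ b = u + v := by simp only [u, v]; ring
    have h1 : (u + v) ^ 2 ≤ (1 + t) * u ^ 2 + (1 + 1 / t) * v ^ 2 := by
      have : 0 ≤ (t * u - v) ^ 2 / t := by positivity
      have h2 : (1 + t) * u ^ 2 + (1 + 1 / t) * v ^ 2 - (u + v) ^ 2 = (t * u - v) ^ 2 / t := by
        field_simp; ring
      linarith
    have h2 : u ^ 2 ≤ (φ a - φ b) ^ 2 := by
      simp only [u]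
      rw [mul_pow]
      have : χ a ^ 2 ≤ 1 := by nlinarith [(hχ a).1, (hχ a).2]
      nlinarith [sq_nonneg (φ a - φ b)]
    have h3 : v ^ 2 ≤ (χ a - χ b) ^ 2 := by
      simp only [v]
      rw [mul_pow]
      have : φ b ^ 2 ≤ 1 := by nlinarith [(hφ b).1, (hφ b).2]
      nlinarith [sq_nonneg (χ a - χ b)]
    rw [e1]
    refine h1.trans (add_le_add (mul_le_mul_of_nonneg_left h2 (by positivity))
      (mul_le_mul_of_nonneg_left h3 (by positivity)))

/-- lower bound of the marginals by the cutoff method -/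
theorem marg_lower (r : Setoid V) (E0 E : Finset (Sym2 V)) (hE : E0 ⊆ E) {x y : V}
    (hxy : s(x, y) ∈ E0) (hne : x ≠ y) (χ : V → ℝ) (h01 : ∀ a, 0 ≤ χ a ∧ χ a ≤ 1) (hx : χ x = 1)
    (hr : ∀ a b, r a b → a = b ∨ (χ a = 0 ∧ χ b = 0))
    (hout : ∀ a b, s(a, b) ∈ E → s(a, b) ∉ E0 → χ a = 0 ∧ χ b = 0) {δ t : ℝ} (ht : 0 < t)
    (hδ : energy E0 χ ≤ δ) :
    prE ⊥ E0 s(x, y) - prE r E s(x, y) ≤ t + (1 + 1 / t) * δ := by
  obtain ⟨φ, -, h2, h3, h4, h5⟩ := K2 ⊥ E0 x y hxy (fun h => hne h)
  have h6 := K1 r E x y (hE hxy) (fun v => φ v * χ v) (by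
    intro a b hab
    rcases hr a b hab with h | ⟨ha, hb⟩
    · rw [h]
    · simp only [ha, hb, mul_zero])
  simp only [h3, h4, hx] at h6
  have hN0 := card_pos' ⊥ E0
  have hN := card_pos' r E
  have e1 : energy E (fun v => φ v * χ v) = energy E0 (fun v => φ v * χ v) := by
    unfold energy
    symm
    refine Finset.sum_subset hE fun e he he0 => ?_
    induction e using Sym2.ind with
    | _ a b =>
      obtain ⟨ha, hb⟩ := hout a b he he0
      rw [dsq_mk, ha, hb]; ring
  have e2 : energy E0 (fun v => φ v * χ v) ≤ (1 + t) * energy E0 φ + (1 + 1 / t) * δ := by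
    have : energy E0 (fun v => φ v * χ v) ≤ (1 + t) * energy E0 φ + (1 + 1 / t) * energy E0 χ := by
      unfold energy
      rw [Finset.mul_sum, Finset.mul_sum, ← Finset.sum_add_distrib]
      exact Finset.sum_le_sum fun e _ => dsq_mul φ χ h2 h01 ht e
    have h7 : (1 + 1 / t) * energy E0 χ ≤ (1 + 1 / t) * δ :=
      mul_le_mul_of_nonneg_left hδ (by positivity)
    linarith
  have p0 : prE ⊥ E0 s(x, y) * energy E0 φ = 1 := by
    rw [prE_eq, div_mul_eq_mul_div, h5, div_self hN0.ne']
  have q1 : 1 ≤ prE r E s(x, y) * energy E (fun v => φ v * χ v) := by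
    rw [prE_eq, div_mul_eq_mul_div, le_div_iff₀ hN]
    have : (1 * 1 - 0 * χ y : ℝ) ^ 2 = 1 := by ring
    rw [this] at h6
    exact h6
  rw [e1] at q1
  set p := prE ⊥ E0 s(x, y)
  set q := prE r E s(x, y)
  have hp0 : 0 ≤ p := prE_nonneg _ _ _
  have hp1 : p ≤ 1 := prE_le_one _ _ _
  have hq0 : 0 ≤ q := prE_nonneg _ _ _
  have hq1 : q ≤ 1 := prE_le_one _ _ _
  have hδ0 : 0 ≤ δ := (Finset.sum_nonneg fun e _ => dsq_nonneg χ e).trans hδ
  have h8 : 1 ≤ q * ((1 + t) * energy E0 φ + (1 + 1 / t) * δ) :=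
    q1.trans (mul_le_mul_of_nonneg_left e2 hq0)
  have h9 : p ≤ q * ((1 + t) * (p * energy E0 φ) + (1 + 1 / t) * δ * p) := by
    have := mul_le_mul_of_nonneg_left h8 hp0
    nlinarith
  rw [p0] at h9
  have h10 : 0 ≤ (1 + 1 / t) * δ := by positivity
  nlinarith [mul_le_mul hq1 hp1 hp0 zero_le_one, mul_nonneg hq0 hp0,
    mul_nonneg (sub_nonneg.2 hq1) ht.le, mul_nonneg (sub_nonneg.2 (mul_le_one₀ hq1 hp0 hp1)) h10]

omit [DecidableEq V] in
open Classical in
/-- energy of a function as a sum over ordered pairs -/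
theorem energy_pairs (G : SimpleGraph V) (K : Finset V) (χ : V → ℝ) :
    energy (inn G K) χ = ∑ v ∈ K, ∑ w ∈ K, (if G.Adj v w then χ v * (χ v - χ w) else 0) := by
  classical
  have h1 : (∑ v ∈ K, ∑ w ∈ K, if G.Adj v w then χ v * (χ v - χ w) else 0) =
      ∑ p ∈ (K ×ˢ K).filter (fun p => G.Adj p.1 p.2), χ p.1 * (χ p.1 - χ p.2) := by
    rw [Finset.sum_filter, Finset.sum_product]
  have h2 : ∑ p ∈ (K ×ˢ K).filter (fun p => G.Adj p.1 p.2), χ p.1 * (χ p.1 - χ p.2) =
      ∑ e ∈ inn G K, ∑ p ∈ ((K ×ˢ K).filter (fun p => G.Adj p.1 p.2)).filter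
        (fun p => s(p.1, p.2) = e), χ p.1 * (χ p.1 - χ p.2) := by
    symm
    refine Finset.sum_fiberwise_of_maps_to ?_ _
    intro p hp
    rw [Finset.mem_filter, Finset.mem_product] at hp
    exact mem_inn.2 ⟨hp.1.1, hp.1.2, hp.2⟩
  have h3 : ∀ e ∈ inn G K, ∑ p ∈ ((K ×ˢ K).filter (fun p => G.Adj p.1 p.2)).filter
        (fun p => s(p.1, p.2) = e), χ p.1 * (χ p.1 - χ p.2) = dsq χ e := by
    intro e he
    induction e using Sym2.ind with
    | _ a b =>
      obtain ⟨ha, hb, hab⟩ := mem_inn.1 he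
      have : ((K ×ˢ K).filter (fun p => G.Adj p.1 p.2)).filter
          (fun p => s(p.1, p.2) = s(a, b)) = {(a, b), (b, a)} := by
        ext ⟨u, v⟩
        simp only [Finset.mem_filter, Finset.mem_product, Finset.mem_insert,
          Finset.mem_singleton, Prod.mk.injEq, Sym2.eq_iff]
        constructor
        · rintro ⟨-, h⟩; exact h
        · rintro (⟨rfl, rfl⟩ | ⟨rfl, rfl⟩)
          · exact ⟨⟨⟨ha, hb⟩, hab⟩, Or.inl ⟨rfl, rfl⟩⟩
          · exact ⟨⟨⟨hb, ha⟩, hab.symm⟩, Or.inr ⟨rfl, rfl⟩⟩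
      rw [this, Finset.sum_pair (by
        intro h
        exact hab.ne (Prod.mk.inj h).1), dsq_mk]
      ring
  unfold energy
  rw [← Finset.sum_congr rfl h3, ← h2, ← h1]

omit [DecidableEq V] in
theorem avg_real {G : SimpleGraph V} (h : LF G) (f : V → ℝ≥0∞) (hf : ∀ v, f v ≠ ⊤) (v : V) :
    (avg G f v).toReal = (∑ w ∈ nb h v, (f w).toReal) / ((nb h v).card : ℝ) := by
  rw [avg_eq h, ENNReal.toReal_div, ENNReal.toReal_sum (fun w _ => hf w)]
  simp

omit [DecidableEq V] in
/-- energy of the cutoff -/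
theorem cut_energy {G : SimpleGraph V} (h : LF G) (o : V) (N : ℕ)
    (K : Finset V)
    (hK : ∀ v, hit G o N v ≠ 0 → v ∈ K ∧ ∀ w, G.Adj v w → w ∈ K) :
    energy (inn G K) (fun v => (hit G o N v).toReal) ≤
      ((nb h o).card : ℝ) * (1 - (avg G (hit G o N) o).toReal) := by
  classical
  have hfin : ∀ v, hit G o N v ≠ ⊤ := fun v => ne_top_of_le_ne_top ENNReal.one_ne_top
    (hit_le_one G o N v)
  rw [energy_pairs]
  have hoK : o ∈ K := (hK o (by rw [hit_self]; simp)).1
  set χ : V → ℝ := fun v => (hit G o N v).toReal with hχ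
  have key : ∀ v ∈ K, (∑ w ∈ K, if G.Adj v w then χ v * (χ v - χ w) else 0) =
      ((nb h v).card : ℝ) * (χ v * (χ v - (avg G (hit G o N) v).toReal)) := by
    intro v hv
    by_cases h0 : hit G o N v = 0
    · have : χ v = 0 := by simp [hχ, h0]
      rw [this]
      simp
    · have h1 : ∑ w ∈ K, (if G.Adj v w then χ v * (χ v - χ w) else 0) =
          ∑ w ∈ nb h v, χ v * (χ v - χ w) := by
        rw [← Finset.sum_filter]
        refine Finset.sum_congr ?_ fun _ _ => rfl
        ext w
        rw [Finset.mem_filter, mem_nb]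
        exact ⟨fun k => k.2, fun k => ⟨(hK v h0).2 w k, k⟩⟩
      rw [h1, ← Finset.mul_sum, Finset.sum_sub_distrib, avg_real h _ hfin]
      simp only [Finset.sum_const, nsmul_eq_mul]
      by_cases hc : (nb h v).card = 0
      · rw [Finset.card_eq_zero] at hc
        rw [hc]; simp
      · have : ((nb h v).card : ℝ) ≠ 0 := by exact_mod_cast hc
        field_simp
        rfl
  have hco : (∑ v ∈ K, ∑ w ∈ K, if G.Adj v w then χ v * (χ v - χ w) else 0) ≤
      ((nb h o).card : ℝ) * (1 - (avg G (hit G o N) o).toReal) := by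
    rw [Finset.sum_congr rfl key, ← Finset.add_sum_erase _ _ hoK]
    have hχo : χ o = 1 := by simp [hχ, hit_self]
    have : ∑ v ∈ K.erase o, ((nb h v).card : ℝ) *
        (χ v * (χ v - (avg G (hit G o N) v).toReal)) ≤ 0 := by
      refine Finset.sum_nonpos fun v hv => ?_
      have hvo := (Finset.mem_erase.1 hv).1
      have h1 : hit G o N v ≤ avg G (hit G o N) v := by
        have := hit_mono G o N v
        rwa [hit.eq_2, if_neg hvo] at this
      have h2 : χ v ≤ (avg G (hit G o N) v).toReal := by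
        refine ENNReal.toReal_mono ?_ h1
        exact ne_top_of_le_ne_top ENNReal.one_ne_top
          ((avg_mono G (hit_le_one G o N) v).trans (avg_const_le G 1 v))
      have h3 : 0 ≤ χ v := ENNReal.toReal_nonneg
      have : 0 ≤ ((nb h v).card : ℝ) * (χ v * ((avg G (hit G o N) v).toReal - χ v)) := by
        have : 0 ≤ (avg G (hit G o N) v).toReal - χ v := by linarith
        positivity
      nlinarith
    rw [hχo]
    linarith
  exact hco

omit [DecidableEq V] in
theorem hit_supp {G : SimpleGraph V} (h : LF G) (o : V) (n : ℕ) :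
    {x | hit G o n x ≠ 0}.Finite := by
  induction n with
  | zero =>
    refine (Set.finite_singleton o).subset ?_
    intro x hx
    by_contra hne
    have hne' : ¬ x = o := hne
    exact hx (by simp [hit, hne'])
  | succ n ih =>
    refine ((Set.finite_singleton o).union (ih.biUnion (t := fun w => G.neighborSet w)
      fun w _ => h w)).subset ?_
    intro x hx
    by_cases hxo : x = o
    · exact Or.inl hxo
    right
    have hx' : avg G (hit G o n) x ≠ 0 := by
      have h1 : hit G o (n + 1) x ≠ 0 := hx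
      rwa [hit, if_neg hxo] at h1
    rw [avg_eq h] at hx'
    have h1 : ∑ w ∈ nb h x, hit G o n w ≠ 0 := by
      intro h0; rw [h0] at hx'; simp at hx'
    obtain ⟨w, hw, hw2⟩ := Finset.exists_ne_zero_of_sum_ne_zero h1
    exact Set.mem_biUnion (x := w) hw2 ((mem_nb h).1 hw).symm

theorem exists_cutoff {G : SimpleGraph V} (h : LF G) (hr : Recurrent G) (o : V)
    (ho : ∃ w, G.Adj o w) {δ : ℝ} (hδ : 0 < δ) :
    ∃ (χ : V → ℝ) (S : Finset V), (∀ a, 0 ≤ χ a ∧ χ a ≤ 1) ∧ χ o = 1 ∧
      (∀ a, χ a ≠ 0 → a ∈ S ∧ ∀ w, G.Adj a w → w ∈ S) ∧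
      ∀ K, S ⊆ K → energy (inn G K) χ ≤ δ := by
  have hD : 0 < ((nb h o).card : ℝ) := by
    obtain ⟨w, hw⟩ := ho
    exact_mod_cast Finset.card_pos.2 ⟨w, (mem_nb h).2 hw⟩
  have h1 := hr o ho
  have h2 : ENNReal.ofReal (1 - δ / (nb h o).card) < ⨆ n, avg G (hit G o n) o := by
    rw [h1, ENNReal.ofReal_lt_one]
    have : 0 < δ / (nb h o).card := by positivity
    linarith
  obtain ⟨N, hN⟩ := lt_iSup_iff.1 h2
  have hfin : ∀ v, hit G o N v ≠ ⊤ := fun v => ne_top_of_le_ne_top ENNReal.one_ne_top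
    (hit_le_one G o N v)
  have h3 : 1 - δ / (nb h o).card ≤ (avg G (hit G o N) o).toReal := by
    rw [← ENNReal.ofReal_le_iff_le_toReal]
    · exact hN.le
    · exact ne_top_of_le_ne_top ENNReal.one_ne_top
        ((avg_mono G (hit_le_one G o N) o).trans (avg_const_le G 1 o))
  refine ⟨fun v => (hit G o N v).toReal, (hit_supp h o N).toFinset ∪
    (hit_supp h o N).toFinset.biUnion (fun v => nb h v), ?_, ?_, ?_, ?_⟩
  · intro a
    refine ⟨ENNReal.toReal_nonneg, ?_⟩
    have := ENNReal.toReal_mono ENNReal.one_ne_top (hit_le_one G o N a)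
    simpa using this
  · simp [hit_self]
  · intro a ha
    have ha' : hit G o N a ≠ 0 := by
      intro h0; apply ha; simp [h0]
    refine ⟨Finset.mem_union_left _ (by simpa using ha'), fun w hw => ?_⟩
    refine Finset.mem_union_right _ (Finset.mem_biUnion.2 ⟨a, by simpa using ha', ?_⟩)
    exact (mem_nb h).2 hw
  · intro K hK
    refine (cut_energy h o N K ?_).trans ?_
    · intro v hv
      refine ⟨hK (Finset.mem_union_left _ (by simpa using hv)), fun w hw => ?_⟩
      refine hK (Finset.mem_union_right _ (Finset.mem_biUnion.2 ⟨v, by simpa using hv, ?_⟩))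
      exact (mem_nb h).2 hw
    · have h4 : 1 - (avg G (hit G o N) o).toReal ≤ δ / (nb h o).card := by linarith
      calc _ ≤ ((nb h o).card : ℝ) * (δ / (nb h o).card) :=
            mul_le_mul_of_nonneg_left h4 hD.le
        _ = δ := by field_simp

/-- marginals -/
theorem marg_close {G : SimpleGraph V} (h : LF G) (hr : Recurrent G) (e : Sym2 V)
    (he : e ∈ G.edgeSet) {η : ℝ} (hη : 0 < η) :
    ∃ S : Finset V, ∀ (K : Finset V) (r : Setoid V) (E : Finset (Sym2 V)), S ⊆ K →
      r ≤ wired K → inn G K ⊆ E → (E : Set (Sym2 V)) ⊆ G.edgeSet → e ∈ inn G K →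
      prE ⊥ (inn G K) e - prE r E e ≤ η := by
  induction e using Sym2.ind with
  | _ x y =>
    have hxy : G.Adj x y := he
    set t : ℝ := η / 2 with ht
    have ht0 : 0 < t := by positivity
    obtain ⟨χ, S, h1, h2, h3, h4⟩ := exists_cutoff h hr x ⟨y, hxy⟩
      (δ := t / (1 + 1 / t)) (by positivity)
    refine ⟨S, fun K r E hSK hrK hE hEG heK => ?_⟩
    have hχ0 : ∀ a, a ∉ K → χ a = 0 := by
      intro a ha
      by_contra h0
      exact ha (hSK (h3 a h0).1)
    have h5 := marg_lower r (inn G K) E hE heK hxy.ne χ h1 h2 ?_ ?_ ht0 (h4 K hSK)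
    · have : t + (1 + 1 / t) * (t / (1 + 1 / t)) = η := by
        have : (1 + 1 / t) ≠ 0 := by positivity
        field_simp
        rw [ht]; ring
      linarith
    · intro a b hab
      rcases hrK hab with h | ⟨ha, hb⟩
      · exact Or.inl h
      · exact Or.inr ⟨hχ0 a ha, hχ0 b hb⟩
    · intro a b hab hnab
      have hadj : G.Adj a b := hEG (Finset.mem_coe.2 hab)
      constructor
      · by_contra h0
        exact hnab (mem_inn.2 ⟨hSK (h3 a h0).1, hSK ((h3 a h0).2 b hadj), hadj⟩)
      · by_contra h0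
        exact hnab (mem_inn.2 ⟨hSK ((h3 b h0).2 a hadj.symm), hSK (h3 b h0).1, hadj⟩)

/-- local closeness of the laws -/
theorem PT {G : SimpleGraph V} (h : LF G) (hr : Recurrent G) (F A : Finset (Sym2 V))
    {ε : ℝ} (hε : 0 < ε) :
    ∃ K : Finset V, ∀ (r : Setoid V) (E : Finset (Sym2 V)), r ≤ wired K → inn G K ⊆ E →
      (E : Set (Sym2 V)) ⊆ G.edgeSet →
      |prA r E F A - prA ⊥ (inn G K) F A| ≤ ε := by
  classical
  have hη : 0 < ε / (F.card + 1) := by positivity
  choose! S hS using fun e (he : e ∈ G.edgeSet) => marg_close h hr e he hη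
  refine ⟨F.biUnion S ∪ F.biUnion (fun e => e.toFinset), fun r E hrK hE hEG => ?_⟩
  set K := F.biUnion S ∪ F.biUnion (fun e => e.toFinset) with hK
  have hin : ∀ e ∈ F, e ∈ G.edgeSet → e ∈ inn G K := by
    intro e he heG
    induction e using Sym2.ind with
    | _ a b =>
      refine mem_inn.2 ⟨?_, ?_, heG⟩
      · exact Finset.mem_union_right _ (Finset.mem_biUnion.2 ⟨_, he, by simp⟩)
      · exact Finset.mem_union_right _ (Finset.mem_biUnion.2 ⟨_, he, by simp⟩)
  refine (law_close r ⊥ bot_le E (inn G K) F A hE ?_).trans ?_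
  · intro e he
    obtain ⟨h1, h2⟩ := Finset.mem_inter.1 he
    exact hin e h2 (hEG (Finset.mem_coe.2 h1))
  · calc ∑ e ∈ F, (prE ⊥ (inn G K) e - prE r E e) ≤ ∑ e ∈ F, ε / (F.card + 1) := by
          refine Finset.sum_le_sum fun e he => ?_
          by_cases heG : e ∈ G.edgeSet
          · refine hS e heG K r E ?_ hrK hE hEG (hin e he heG)
            exact (Finset.subset_biUnion_of_mem S he).trans Finset.subset_union_left
          · have h0 : prE ⊥ (inn G K) e = 0 := by
              rw [prE_eq]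
              have : (trees ⊥ (inn G K)).filter (fun T => e ∈ T) = ∅ := by
                rw [Finset.filter_eq_empty_iff]
                intro T hT heT
                have h1 := (mem_trees.1 hT).1 heT
                exact heG ((Finset.mem_filter.1 h1).2)
              rw [this]; simp
            have := prE_nonneg r E e
            rw [h0]; linarith
      _ = F.card * (ε / (F.card + 1)) := by rw [Finset.sum_const, nsmul_eq_mul]
      _ ≤ ε := by
          rw [← mul_div_assoc, div_le_iff₀ (by positivity)]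
          nlinarith

end Pool.Agent.U753.UF
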