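import Pool.Agent.U753.UF.Step

/-!
# The sequence of random spanning forests
-/

set_option linter.unusedSectionVars false

namespace Pool.Agent.U753.UF

open Finset Pool.Agent.TH968.UST Pool.Agent.TH830.UST MeasureTheory
open scoped ENNReal unitInterval

variable {V : Type*}

/-- `C` is a finite component -/
def Comp (H : SimpleGraph V) (C : Finset V) : Prop :=
  C.Nonempty ∧ ∀ x ∈ C, ∀ y, y ∈ C ↔ H.Reachable x y

/-- `D` is closed under adjacency -/
def Cl (H : SimpleGraph V) (D : Finset V) : Prop := ∀ x ∈ D, ∀ y, H.Adj x y → y ∈ D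

/-- all components are finite -/
def FC (H : SimpleGraph V) : Prop := ∀ x, ∃ C, Comp H C ∧ x ∈ C

theorem Comp.cl {H : SimpleGraph V} {C : Finset V} (h : Comp H C) : Cl H C :=
  fun x hx y hxy => (h.2 x hx y).2 hxy.reachable

theorem Cl.reach {H : SimpleGraph V} {D : Finset V} (h : Cl H D) {x y : V} (hx : x ∈ D)
    (hxy : H.Reachable x y) : y ∈ D := by
  obtain ⟨p⟩ := hxy
  induction p with
  | nil => exact hx
  | cons hadj p ih => exact ih (h _ hx _ hadj)

theorem Cl.comp_sub {H : SimpleGraph V} {C D : Finset V} (h : Cl H D) (hC : Comp H C) {x : V}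
    (hxC : x ∈ C) (hxD : x ∈ D) : C ⊆ D :=
  fun y hy => h.reach hxD ((hC.2 x hxC y).1 hy)

theorem Comp.eq {H : SimpleGraph V} {C C' : Finset V} (h : Comp H C) (h' : Comp H C') {x : V}
    (hx : x ∈ C) (hx' : x ∈ C') : C = C' :=
  Finset.Subset.antisymm (h'.cl.comp_sub h hx hx') (h.cl.comp_sub h' hx' hx)

theorem Cl.mono {H H' : SimpleGraph V} (hH : H ≤ H') {D : Finset V} (h : Cl H' D) : Cl H D :=
  fun x hx y hxy => h x hx y (hH hxy)

open Classical in
/-- the part of `X` inside `C` -/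
noncomputable def rs (X : Set (Sym2 V)) (C : Finset V) : Finset (Sym2 V) :=
  C.sym2.filter (fun e => e ∈ X)

theorem mem_rs {X : Set (Sym2 V)} {C : Finset V} {e : Sym2 V} :
    e ∈ rs X C ↔ e ∈ C.sym2 ∧ e ∈ X := by
  classical
  unfold rs
  rw [Finset.mem_filter]

theorem mem_inn' {G : SimpleGraph V} {C : Finset V} {e : Sym2 V} :
    e ∈ inn G C ↔ e ∈ C.sym2 ∧ e ∈ G.edgeSet := by
  classical
  unfold inn
  rw [Finset.mem_filter]

theorem inn_sub (G : SimpleGraph V) (C : Finset V) : inn G C ⊆ C.sym2 :=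
  fun _ he => (mem_inn'.1 he).1

theorem rs_sub (X : Set (Sym2 V)) (C : Finset V) : rs X C ⊆ C.sym2 :=
  fun _ he => (mem_rs.1 he).1

variable [DecidableEq V]

theorem cl_induction {H : SimpleGraph V} (hF : FC H) (P : Finset V → Prop) (h0 : P ∅)
    (h1 : ∀ C D, Comp H C → Cl H D → Disjoint C D → P D → P (C ∪ D)) :
    ∀ D, Cl H D → P D := by
  have key : ∀ n : ℕ, ∀ D : Finset V, D.card ≤ n → Cl H D → P D := by
    intro n
    induction n with
    | zero =>
      intro D hD _
      have : D = ∅ := Finset.card_eq_zero.1 (by omega)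
      rw [this]; exact h0
    | succ n ih =>
      intro D hD hcl
      rcases D.eq_empty_or_nonempty with h | ⟨x, hx⟩
      · rw [h]; exact h0
      · obtain ⟨C, hC, hxC⟩ := hF x
        have hCD := hcl.comp_sub hC hxC hx
        have hcl' : Cl H (D \ C) := by
          intro u hu v huv
          obtain ⟨h2, h3⟩ := Finset.mem_sdiff.1 hu
          refine Finset.mem_sdiff.2 ⟨hcl u h2 v huv, fun h4 => h3 ?_⟩
          exact hC.cl v h4 u huv.symm
        have hlt : (D \ C).card ≤ n := by
          have : (D \ C).card < D.card := by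
            refine Finset.card_lt_card (Finset.ssubset_iff_of_subset Finset.sdiff_subset |>.2
              ⟨x, hx, ?_⟩)
            intro h
            exact (Finset.mem_sdiff.1 h).2 hxC
          omega
        have h5 := h1 C (D \ C) hC hcl' Finset.disjoint_sdiff (ih _ hlt hcl')
        rwa [Finset.union_sdiff_of_subset hCD] at h5
  exact fun D hD => key _ D le_rfl hD

theorem rs_union {H : SimpleGraph V} {X : Set (Sym2 V)} (hX : X ⊆ H.edgeSet) {C D : Finset V}
    (hC : Cl H C) (hD : Cl H D) : rs X (C ∪ D) = rs X C ∪ rs X D := by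
  ext e
  rw [Finset.mem_union, mem_rs, mem_rs, mem_rs]
  constructor
  · rintro ⟨h1, h2⟩
    induction e using Sym2.ind with
    | _ x y =>
      have hadj : H.Adj x y := hX h2
      obtain ⟨hx, hy⟩ := Finset.mk_mem_sym2_iff.1 h1
      rcases Finset.mem_union.1 hx with h | h
      · exact Or.inl ⟨Finset.mk_mem_sym2_iff.2 ⟨h, hC x h y hadj⟩, h2⟩
      · exact Or.inr ⟨Finset.mk_mem_sym2_iff.2 ⟨h, hD x h y hadj⟩, h2⟩
  · rintro (⟨h1, h2⟩ | ⟨h1, h2⟩)
    · exact ⟨Finset.sym2_mono Finset.subset_union_left h1, h2⟩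
    · exact ⟨Finset.sym2_mono Finset.subset_union_right h1, h2⟩

theorem inn_eq_rs (H : SimpleGraph V) (C : Finset V) : inn H C = rs H.edgeSet C := by
  ext e
  rw [mem_rs, mem_inn']

theorem inn_union {H : SimpleGraph V} {C D : Finset V}
    (hC : Cl H C) (hD : Cl H D) : inn H (C ∪ D) = inn H C ∪ inn H D := by
  rw [inn_eq_rs, inn_eq_rs, inn_eq_rs]
  exact rs_union subset_rfl hC hD

theorem inn_mono {H H' : SimpleGraph V} (h : H ≤ H') (C : Finset V) : inn H C ⊆ inn H' C := by
  intro e he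
  rw [mem_inn'] at he ⊢
  exact ⟨he.1, SimpleGraph.edgeSet_mono h he.2⟩

variable (H : ℕ → SimpleGraph V) (a : V → I) (c : V × ℕ → I)

/-- the sequence of forests -/
noncomputable def TT : ℕ → Set (Sym2 V)
  | 0 => ∅
  | n + 1 => {e | ∃ C : Finset V, Comp (H (n + 1)) C ∧
      e ∈ stp C (ordD a C) (inn (H n) C) (inn (H (n + 1)) C) (rs (TT n) C) (fun v => c (v, n))}

theorem TT_sub (n : ℕ) : TT H a c n ⊆ (H n).edgeSet := by
  cases n with
  | zero => exact Set.empty_subset _
  | succ n =>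
    rintro e ⟨C, -, he⟩
    unfold stp at he
    exact (mem_inn'.1 (Finset.mem_filter.1 he).1).2

theorem rs_TT_succ (n : ℕ) {C : Finset V} (hC : Comp (H (n + 1)) C) :
    rs (TT H a c (n + 1)) C =
      stp C (ordD a C) (inn (H n) C) (inn (H (n + 1)) C) (rs (TT H a c n) C)
        (fun v => c (v, n)) := by
  ext e
  rw [mem_rs]
  constructor
  · rintro ⟨h1, C', hC', h2⟩
    have h3 : e ∈ inn (H (n + 1)) C' := by
      unfold stp at h2
      exact (Finset.mem_filter.1 h2).1
    have : C = C' := by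
      induction e using Sym2.ind with
      | _ x y =>
        exact hC.eq hC' (Finset.mk_mem_sym2_iff.1 h1).1 (mem_inn.1 h3).1
    rw [this]
    exact h2
  · intro h2
    have h3 : e ∈ inn (H (n + 1)) C := by
      unfold stp at h2
      exact (Finset.mem_filter.1 h2).1
    exact ⟨inn_sub _ _ h3, C, hC, h2⟩

/-- the standing assumptions on the graphs -/
structure Good (H : ℕ → SimpleGraph V) : Prop where
  zero : H 0 = ⊥
  mono : Monotone H
  fin : ∀ n, FC (H n)

variable {H a}

theorem inn_bot (D : Finset V) : inn (⊥ : SimpleGraph V) D = ∅ := by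
  rw [Finset.eq_empty_iff_forall_notMem]
  intro e he
  have := (mem_inn'.1 he).2
  simp at this

theorem trees_empty : trees ⊥ (∅ : Finset (Sym2 V)) = {∅} := by
  ext T
  rw [Finset.mem_singleton]
  constructor
  · intro h; exact Finset.subset_empty.1 (mem_trees.1 h).1
  · rintro rfl
    exact mem_trees.2 ⟨le_rfl, by simp, by simpa using indep_empty ⊥⟩

theorem rs_inter_left {H : SimpleGraph V} {X : Set (Sym2 V)} (hX : X ⊆ H.edgeSet)
    {C D : Finset V} (hC : Cl H C) (hD : Cl H D) (hd : Disjoint C D) :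
    rs X (C ∪ D) ∩ inn H C = rs X C ∧ rs X (C ∪ D) ∩ inn H D = rs X D := by
  rw [rs_union hX hC hD]
  refine union_inter_left (disj_edges (inn_sub _ _) (inn_sub _ _) hd) ?_ ?_
  · intro e he
    rw [mem_rs] at he
    exact mem_inn'.2 ⟨he.1, hX he.2⟩
  · intro e he
    rw [mem_rs] at he
    exact mem_inn'.2 ⟨he.1, hX he.2⟩

theorem rs_mem_trees_of_comp {H : SimpleGraph V} (hF : FC H) {X : Set (Sym2 V)}
    (hX : X ⊆ H.edgeSet) (h : ∀ C, Comp H C → rs X C ∈ trees ⊥ (inn H C)) :
    ∀ D, Cl H D → rs X D ∈ trees ⊥ (inn H D) := by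
  refine cl_induction hF _ ?_ ?_
  · have h1 : inn H (∅ : Finset V) = ∅ := by
      rw [Finset.eq_empty_iff_forall_notMem]
      intro e he
      have := (mem_inn'.1 he).1
      simp at this
    have h2 : rs X (∅ : Finset V) = ∅ := by
      rw [Finset.eq_empty_iff_forall_notMem]
      intro e he
      have := (mem_rs.1 he).1
      simp at this
    rw [h1, h2, trees_empty]
    simp
  · intro C D hC hD hd hP
    rw [inn_union hC.cl hD]
    refine (trees_union (inn_sub _ _) (inn_sub _ _) hd ?_).2 ?_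
    · rw [← inn_union hC.cl hD]
      intro e he
      rw [mem_rs] at he
      exact mem_inn'.2 ⟨he.1, hX he.2⟩
    · obtain ⟨e1, e2⟩ := rs_inter_left hX hC.cl hD hd
      rw [e1, e2]
      exact ⟨h C hC, hP⟩

variable [Countable V]

theorem step_spec (hg : Good H) (ha : Function.Injective a) (n : ℕ) {C : Finset V}
    (hC : Comp (H (n + 1)) C)
    (hS : rs (TT H a c n) C ∈ trees ⊥ (inn (H n) C)) :
    rs (TT H a c (n + 1)) C ∈ trees ⊥ (inn (H (n + 1)) C) ∧
      rs (TT H a c (n + 1)) C ∩ inn (H n) C ⊆ rs (TT H a c n) C := by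
  rw [rs_TT_succ H a c n hC]
  obtain ⟨v, hv, hv0⟩ := exists_rk_zero a hC.1
  rw [stp_eq ha.injOn hv hv0 _ _ _ (inn_sub _ _)]
  obtain ⟨h1, h2, -⟩ := stpF_spec (a := a) ha.injOn (inn_mono (hg.mono (Nat.le_succ n)) C)
    (inn_sub _ _) hS (samp_lt (trees_pos (inn (H (n + 1)) C)) (c (v, n)))
  exact ⟨h1, h2⟩

theorem TT_mem (hg : Good H) (ha : Function.Injective a) (n : ℕ) :
    ∀ D, Cl (H n) D → rs (TT H a c n) D ∈ trees ⊥ (inn (H n) D) := by
  induction n with
  | zero =>
    intro D _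
    have h2 : rs (TT H a c 0) D = ∅ := by
      rw [Finset.eq_empty_iff_forall_notMem]
      intro e he
      exact (mem_rs.1 he).2
    rw [hg.zero, inn_bot, h2, trees_empty]
    simp
  | succ n ih =>
    refine rs_mem_trees_of_comp (hg.fin _) (TT_sub H a c (n + 1)) ?_
    intro C hC
    exact (step_spec c hg ha n hC (ih C (hC.cl.mono (hg.mono (Nat.le_succ n))))).1

variable (H a) in
/-- the edges at `x` change in the step from `n` to `n + 1` -/
def chg (n : ℕ) (x : V) : Prop := ∃ y, ¬ (s(x, y) ∈ TT H a c n ↔ s(x, y) ∈ TT H a c (n + 1))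

variable (H) in
/-- there is a new edge at `x` in the step from `n` to `n + 1` -/
def nw (n : ℕ) (x : V) : Prop := ∃ y, (H (n + 1)).Adj x y ∧ ¬ (H n).Adj x y

open Classical in
theorem chg_count (hg : Good H) (ha : Function.Injective a) (n : ℕ) {C : Finset V}
    (hC : Comp (H (n + 1)) C) :
    (C.filter (fun x => chg H a c n x)).card ≤ 4 * (C.filter (fun x => nw H n x)).card := by
  have hle : H n ≤ H (n + 1) := hg.mono (Nat.le_succ n)
  have hS := TT_mem c hg ha n C (hC.cl.mono hle)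
  obtain ⟨hT, hTS⟩ := step_spec c hg ha n hC hS
  refine (Finset.card_le_card ?_).trans ((change_card (inn_mono hle C) hS hT hTS).trans
    (Nat.mul_le_mul_left 4 (Finset.card_le_card ?_)))
  · intro x hx
    obtain ⟨hxC, y, hy⟩ := Finset.mem_filter.1 hx
    have hadj : (H (n + 1)).Adj x y := by
      by_cases h : s(x, y) ∈ TT H a c n
      · exact hle (TT_sub H a c n h)
      · have : s(x, y) ∈ TT H a c (n + 1) := by
          by_contra h'
          exact hy ⟨fun k => absurd k h, fun k => absurd k h'⟩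
        exact TT_sub H a c (n + 1) this
    have hyC := hC.cl x hxC y hadj
    have hin : s(x, y) ∈ C.sym2 := Finset.mk_mem_sym2_iff.2 ⟨hxC, hyC⟩
    refine Finset.mem_biUnion.2 ⟨s(x, y), ?_, by simp⟩
    rw [Finset.mem_union, Finset.mem_sdiff, Finset.mem_sdiff, mem_rs, mem_rs]
    by_cases h : s(x, y) ∈ TT H a c n
    · left
      exact ⟨⟨hin, h⟩, fun k => hy ⟨fun _ => k.2, fun _ => h⟩⟩
    · right
      refine ⟨⟨hin, ?_⟩, fun k => h k.2⟩
      by_contra h'
      exact hy ⟨fun k => absurd k h, fun k => absurd k h'⟩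
  · intro x hx
    obtain ⟨e, he, hxe⟩ := Finset.mem_biUnion.1 hx
    rw [Sym2.mem_toFinset] at hxe
    obtain ⟨y, rfl⟩ := hxe
    obtain ⟨h1, h2⟩ := Finset.mem_sdiff.1 he
    obtain ⟨k1, k2, k3⟩ := mem_inn.1 h1
    refine Finset.mem_filter.2 ⟨k1, y, k3, fun k => h2 (mem_inn.2 ⟨k1, k2, k⟩)⟩

/-- locality -/
theorem TT_local {c c' : V × ℕ → I} (hmono : Monotone H) (n : ℕ) : ∀ D, Cl (H n) D →
    (∀ v ∈ D, ∀ m < n, c (v, m) = c' (v, m)) → rs (TT H a c n) D = rs (TT H a c' n) D := by
  induction n with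
  | zero => intro D _ _; rfl
  | succ n ih =>
    intro D hD hc
    have key : ∀ c c' : V × ℕ → I, (∀ v ∈ D, ∀ m < n + 1, c (v, m) = c' (v, m)) →
        (∀ C ⊆ D, Cl (H n) C → rs (TT H a c n) C = rs (TT H a c' n) C) →
        rs (TT H a c (n + 1)) D ⊆ rs (TT H a c' (n + 1)) D := by
      intro c c' hc hI e he
      rw [mem_rs] at he ⊢
      obtain ⟨h1, C, hC, h2⟩ := he
      refine ⟨h1, C, hC, ?_⟩
      have h3 : e ∈ inn (H (n + 1)) C := by
        unfold stp at h2
        exact (Finset.mem_filter.1 h2).1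
      have hCD : C ⊆ D := by
        induction e using Sym2.ind with
        | _ x y => exact hD.comp_sub hC (mem_inn.1 h3).1 (Finset.mk_mem_sym2_iff.1 h1).1
      rw [hI C hCD (hC.cl.mono (hmono (Nat.le_succ n)))] at h2
      unfold stp at h2 ⊢
      obtain ⟨h4, v, hv, hv0, h5⟩ := Finset.mem_filter.1 h2
      refine Finset.mem_filter.2 ⟨h4, v, hv, hv0, ?_⟩
      have h6 := hc v (hCD hv) n (Nat.lt_succ_self n)
      simp only at h5 ⊢
      rw [← h6]
      exact h5
    refine Finset.Subset.antisymm (key c c' hc ?_) (key c' c (fun v hv m hm => (hc v hv m hm).symm) ?_)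
    · intro C hCD hC
      exact ih C hC fun v hv m hm => hc v (hCD hv) m (hm.trans (Nat.lt_succ_self n))
    · intro C hCD hC
      exact (ih C hC fun v hv m hm => hc v (hCD hv) m (hm.trans (Nat.lt_succ_self n))).symm

end Pool.Agent.U753.UF
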