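import Pool.Agent.U753.UF.Glue

/-!
# One step of the construction on a finite class, in terms of the order of the labels
-/

set_option linter.unusedSectionVars false

namespace Pool.Agent.U753.UF

open Finset Pool.Agent.TH968.UST Pool.Agent.TH830.UST MeasureTheory
open Pool.Agent.TH830.J74 (dom trees_card_eq)
open scoped ENNReal unitInterval

variable {V : Type*}

open Classical in
/-- the order of the labels on `C` -/
noncomputable def ordD (a : V → I) (C : Finset V) : Finset (V × V) :=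
  (C ×ˢ C).filter (fun p => a p.1 < a p.2)

open Classical in
/-- rank of `v` -/
noncomputable def rk (O : Finset (V × V)) (v : V) : ℕ := (O.filter (fun p => p.2 = v)).card

open Classical in
/-- transport of an edge set to `ℕ` by the ranks -/
noncomputable def pat (O : Finset (V × V)) (X : Finset (Sym2 V)) : Finset (Sym2 ℕ) :=
  X.image (Sym2.map (rk O))

theorem rk_eq (a : V → I) (C : Finset V) {v : V} (hv : v ∈ C) :
    rk (ordD a C) v = (C.filter (fun w => a w < a v)).card := by
  classical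
  unfold rk ordD
  symm
  refine Finset.card_bij (fun w _ => (w, v)) ?_ ?_ ?_
  · intro w hw
    obtain ⟨h1, h2⟩ := Finset.mem_filter.1 hw
    exact Finset.mem_filter.2 ⟨Finset.mem_filter.2 ⟨Finset.mem_product.2 ⟨h1, hv⟩, h2⟩, rfl⟩
  · intro w _ w' _ h
    exact (Prod.mk.inj h).1
  · rintro ⟨w, v'⟩ h
    obtain ⟨h1, h2⟩ := Finset.mem_filter.1 h
    obtain ⟨h3, h4⟩ := Finset.mem_filter.1 h1
    have h2' : v' = v := h2
    subst h2'
    exact ⟨w, Finset.mem_filter.2 ⟨(Finset.mem_product.1 h3).1, h4⟩, rfl⟩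

theorem rk_lt {a : V → I} {C : Finset V} {v w : V} (hv : v ∈ C) (hw : w ∈ C) (h : a v < a w) :
    rk (ordD a C) v < rk (ordD a C) w := by
  classical
  rw [rk_eq a C hv, rk_eq a C hw]
  refine Finset.card_lt_card (Finset.ssubset_iff_of_subset ?_ |>.2 ⟨v, ?_, ?_⟩)
  · intro u hu
    obtain ⟨h1, h2⟩ := Finset.mem_filter.1 hu
    exact Finset.mem_filter.2 ⟨h1, h2.trans h⟩
  · exact Finset.mem_filter.2 ⟨hv, h⟩
  · intro h'
    exact lt_irrefl _ (Finset.mem_filter.1 h').2

theorem rk_lt_card {a : V → I} {C : Finset V} {v : V} (hv : v ∈ C) :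
    rk (ordD a C) v < C.card := by
  classical
  rw [rk_eq a C hv]
  refine Finset.card_lt_card (Finset.ssubset_iff_of_subset (Finset.filter_subset _ _) |>.2
    ⟨v, hv, ?_⟩)
  intro h'
  exact lt_irrefl _ (Finset.mem_filter.1 h').2

theorem rk_inj {a : V → I} {C : Finset V} (hinj : Set.InjOn a C) {v w : V} (hv : v ∈ C)
    (hw : w ∈ C) (h : rk (ordD a C) v = rk (ordD a C) w) : v = w := by
  rcases lt_trichotomy (a v) (a w) with h1 | h1 | h1
  · exact absurd h (rk_lt hv hw h1).ne
  · exact hinj hv hw h1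
  · exact absurd h (rk_lt hw hv h1).ne'

theorem exists_rk_zero (a : V → I) {C : Finset V} (hC : C.Nonempty) :
    ∃ v ∈ C, rk (ordD a C) v = 0 := by
  classical
  obtain ⟨v, hv, hmin⟩ := Finset.exists_min_image C a hC
  refine ⟨v, hv, ?_⟩
  rw [rk_eq a C hv, Finset.card_eq_zero, Finset.filter_eq_empty_iff]
  intro w hw h
  exact absurd (hmin w hw) (not_le.2 h)

section Pat

variable [Countable V] [DecidableEq V]

theorem exists_ext {a : V → I} {C : Finset V} (hinj : Set.InjOn a C) :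
    ∃ p : V → ℕ, Function.Injective p ∧ ∀ v ∈ C, p v = rk (ordD a C) v := by
  obtain ⟨g, hg⟩ := exists_injective_nat V
  refine ⟨fun v => if v ∈ C then rk (ordD a C) v else C.card + g v, ?_, ?_⟩
  · intro v w hvw
    simp only at hvw
    split_ifs at hvw with h1 h2 h2
    · exact rk_inj hinj h1 h2 hvw
    · have := rk_lt_card (a := a) h1
      omega
    · have := rk_lt_card (a := a) h2
      omega
    · exact hg (by omega)
  · intro v hv
    exact if_pos hv

theorem map_ext {C : Finset V} {p q : V → ℕ} (h : ∀ v ∈ C, p v = q v) {e : Sym2 V}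
    (he : e ∈ C.sym2) : Sym2.map p e = Sym2.map q e := by
  induction e using Sym2.ind with
  | _ x y =>
    obtain ⟨hx, hy⟩ := Finset.mk_mem_sym2_iff.1 he
    rw [Sym2.map_mk, Sym2.map_mk, h x hx, h y hy]

theorem pat_ext {C : Finset V} {O : Finset (V × V)} {p : V → ℕ} (h : ∀ v ∈ C, p v = rk O v)
    {X : Finset (Sym2 V)} (hX : X ⊆ C.sym2) : pat O X = X.image (Sym2.map p) := by
  unfold pat
  have h2 : ∀ e, e ∈ X.image (Sym2.map (rk O)) ↔ e ∈ X.image (Sym2.map p) := by
    intro e
    simp only [Finset.mem_image]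
    constructor
    · rintro ⟨x, hx, rfl⟩
      exact ⟨x, hx, map_ext h (hX hx)⟩
    · rintro ⟨x, hx, rfl⟩
      exact ⟨x, hx, (map_ext h (hX hx)).symm⟩
  ext e
  rw [← h2 e, Finset.mem_image]

variable {a : V → I} {C : Finset V} (hinj : Set.InjOn a C)
include hinj

theorem map_inj {e f : Sym2 V} (he : e ∈ C.sym2) (hf : f ∈ C.sym2)
    (h : Sym2.map (rk (ordD a C)) e = Sym2.map (rk (ordD a C)) f) : e = f := by
  obtain ⟨p, hp1, hp2⟩ := exists_ext hinj
  rw [← map_ext hp2 he, ← map_ext hp2 hf] at h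
  exact Sym2.map.injective hp1 h

theorem mem_pat {X : Finset (Sym2 V)} (hX : X ⊆ C.sym2) {e : Sym2 V} (he : e ∈ C.sym2) :
    Sym2.map (rk (ordD a C)) e ∈ pat (ordD a C) X ↔ e ∈ X := by
  unfold pat
  rw [Finset.mem_image]
  constructor
  · rintro ⟨f, hf, hfe⟩
    rw [← map_inj hinj (hX hf) he hfe]
    exact hf
  · intro h
    exact ⟨e, h, rfl⟩

theorem pat_inj {X Y : Finset (Sym2 V)} (hX : X ⊆ C.sym2) (hY : Y ⊆ C.sym2)
    (h : pat (ordD a C) X = pat (ordD a C) Y) : X = Y := by
  ext e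
  constructor
  · intro he
    rw [← mem_pat hinj hY (hX he), ← h, mem_pat hinj hX (hX he)]
    exact he
  · intro he
    rw [← mem_pat hinj hX (hY he), h, mem_pat hinj hY (hY he)]
    exact he

theorem trees_pat {E : Finset (Sym2 V)} (hE : E ⊆ C.sym2) :
    trees ⊥ (pat (ordD a C) E) = (trees ⊥ E).image (pat (ordD a C)) := by
  obtain ⟨p, hp1, hp2⟩ := exists_ext hinj
  rcases isEmpty_or_nonempty V with hV | hV
  · have hE0 : E = ∅ := by
      rw [Finset.eq_empty_iff_forall_notMem]
      intro e _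
      induction e using Sym2.ind with
      | _ x y => exact hV.elim x
    have h0 : trees ⊥ (∅ : Finset (Sym2 V)) = {∅} := by
      ext T
      rw [Finset.mem_singleton]
      constructor
      · intro h; exact Finset.subset_empty.1 (mem_trees.1 h).1
      · rintro rfl
        exact mem_trees.2 ⟨le_rfl, by simp, by simpa using indep_empty ⊥⟩
    have h1 : trees ⊥ (∅ : Finset (Sym2 ℕ)) = {∅} := by
      ext T
      rw [Finset.mem_singleton]
      constructor
      · intro h; exact Finset.subset_empty.1 (mem_trees.1 h).1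
      · rintro rfl
        exact mem_trees.2 ⟨le_rfl, by simp, by simpa using indep_empty ⊥⟩
    have h2 : pat (ordD a C) (∅ : Finset (Sym2 V)) = ∅ := by unfold pat; simp
    rw [hE0, h2, h1, h0, Finset.image_singleton, h2]
  · have hq : ∀ x, Function.invFun p (p x) = x := Function.leftInverse_invFun hp1
    rw [pat_ext hp2 hE, trees_image p (Function.invFun p) hq]
    refine Finset.image_congr ?_
    intro T hT
    rw [pat_ext hp2 (((mem_trees.1 (Finset.mem_coe.1 hT)).1).trans hE)]

theorem trees_pat_card {E : Finset (Sym2 V)} (hE : E ⊆ C.sym2) :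
    (trees ⊥ (pat (ordD a C) E)).card = (trees ⊥ E).card := by
  rw [trees_pat hinj hE]
  refine Finset.card_image_of_injOn ?_
  intro S hS T hT h
  exact pat_inj hinj (((mem_trees.1 (Finset.mem_coe.1 hS)).1).trans hE)
    (((mem_trees.1 (Finset.mem_coe.1 hT)).1).trans hE) h

omit hinj in
/-- the step with the number `j` -/
noncomputable def stpF (O : Finset (V × V)) (E E' S : Finset (Sym2 V)) (j : ℕ) :
    Finset (Sym2 V) :=
  E'.filter (fun e => Sym2.map (rk O) e ∈ cplF (pat O E) (pat O E') (pat O S) j)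

omit hinj in
open Classical in
/-- the step -/
noncomputable def stp (C : Finset V) (O : Finset (V × V)) (E E' S : Finset (Sym2 V))
    (u : V → I) : Finset (Sym2 V) :=
  E'.filter (fun e => ∃ v ∈ C, rk O v = 0 ∧
    Sym2.map (rk O) e ∈ cpl (pat O E) (pat O E') (pat O S) (u v))

theorem stp_eq {v : V} (hv : v ∈ C) (h0 : rk (ordD a C) v = 0) (E E' S : Finset (Sym2 V))
    (hE' : E' ⊆ C.sym2) (u : V → I) :
    stp C (ordD a C) E E' S u =
      stpF (ordD a C) E E' S (samp (trees ⊥ E').card (u v)) := by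
  unfold stp stpF
  ext e
  rw [Finset.mem_filter, Finset.mem_filter, ← trees_pat_card hinj hE']
  refine and_congr_right fun _ => ?_
  constructor
  · rintro ⟨w, hw, hw0, h⟩
    have : w = v := rk_inj hinj hw hv (by rw [hw0, h0])
    rw [this] at h
    exact h
  · intro h
    exact ⟨v, hv, h0, h⟩

theorem stpF_spec {E E' S : Finset (Sym2 V)} (hE : E ⊆ E') (hE' : E' ⊆ C.sym2)
    (hS : S ∈ trees ⊥ E) {j : ℕ} (hj : j < (trees ⊥ E').card) :
    stpF (ordD a C) E E' S j ∈ trees ⊥ E' ∧ stpF (ordD a C) E E' S j ∩ E ⊆ S ∧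
      pat (ordD a C) (stpF (ordD a C) E E' S j) =
        cplF (pat (ordD a C) E) (pat (ordD a C) E') (pat (ordD a C) S) j := by
  have hEC := hE.trans hE'
  have hSE := (mem_trees.1 hS).1
  have h1 : pat (ordD a C) S ∈ trees ⊥ (pat (ordD a C) E) := by
    rw [trees_pat hinj hEC]
    exact Finset.mem_image_of_mem _ hS
  have h2 : pat (ordD a C) E ⊆ pat (ordD a C) E' := by
    unfold pat; exact Finset.image_subset_image hE
  obtain ⟨h3, h4⟩ := cplF_mem h2 h1 (j := j) (by rwa [trees_pat_card hinj hE'])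
  rw [trees_pat hinj hE'] at h3
  obtain ⟨T, hT, hTe⟩ := Finset.mem_image.1 h3
  have hTE := (mem_trees.1 hT).1
  have h5 : stpF (ordD a C) E E' S j = T := by
    unfold stpF
    rw [← hTe]
    ext e
    rw [Finset.mem_filter]
    constructor
    · rintro ⟨k1, k2⟩
      exact (mem_pat hinj (hTE.trans hE') (hE' k1)).1 k2
    · intro k
      exact ⟨hTE k, (mem_pat hinj (hTE.trans hE') (hE' (hTE k))).2 k⟩
  rw [h5]
  refine ⟨hT, ?_, hTe⟩
  intro e he
  obtain ⟨k1, k2⟩ := Finset.mem_inter.1 he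
  have he' := hEC k2
  rw [← mem_pat hinj (hSE.trans hEC) he']
  apply h4
  rw [← hTe]
  exact Finset.mem_inter.2 ⟨(mem_pat hinj (hTE.trans hE') he').2 k1,
    (mem_pat hinj hEC he').2 k2⟩

theorem stpF_count {E E' : Finset (Sym2 V)} (hE : E ⊆ E') (hE' : E' ⊆ C.sym2)
    {T : Finset (Sym2 V)} (hT : T ∈ trees ⊥ E') :
    ((trees ⊥ E ×ˢ range (trees ⊥ E').card).filter
      (fun p => stpF (ordD a C) E E' p.1 p.2 = T)).card = (trees ⊥ E).card := by
  have hEC := hE.trans hE'
  have h2 : pat (ordD a C) E ⊆ pat (ordD a C) E' := by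
    unfold pat; exact Finset.image_subset_image hE
  have hT' : pat (ordD a C) T ∈ trees ⊥ (pat (ordD a C) E') := by
    rw [trees_pat hinj hE']
    exact Finset.mem_image_of_mem _ hT
  rw [← trees_pat_card hinj hEC, ← cplF_count h2 hT', trees_pat_card hinj hE']
  refine Finset.card_bij (fun p _ => (pat (ordD a C) p.1, p.2)) ?_ ?_ ?_
  · rintro ⟨S, j⟩ h
    obtain ⟨h3, h4⟩ := Finset.mem_filter.1 h
    obtain ⟨h5, h6⟩ := Finset.mem_product.1 h3
    refine Finset.mem_filter.2 ⟨Finset.mem_product.2 ⟨?_, h6⟩, ?_⟩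
    · rw [trees_pat hinj hEC]
      exact Finset.mem_image_of_mem _ h5
    · have := (stpF_spec hinj hE hE' h5 (Finset.mem_range.1 h6)).2.2
      simp only at h4 ⊢
      rw [← this, h4]
  · rintro ⟨S, j⟩ h ⟨S', j'⟩ h' heq
    obtain ⟨h3, -⟩ := Finset.mem_filter.1 h
    obtain ⟨h3', -⟩ := Finset.mem_filter.1 h'
    have h5 := (Finset.mem_product.1 h3).1
    have h5' := (Finset.mem_product.1 h3').1
    have e1 := (Prod.mk.inj heq).1
    have e2 := (Prod.mk.inj heq).2
    refine Prod.ext ?_ e2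
    exact pat_inj hinj (((mem_trees.1 h5).1).trans hEC) (((mem_trees.1 h5').1).trans hEC) e1
  · rintro ⟨S', j⟩ h
    obtain ⟨h3, h4⟩ := Finset.mem_filter.1 h
    obtain ⟨h5, h6⟩ := Finset.mem_product.1 h3
    have h5' : S' ∈ trees ⊥ (pat (ordD a C) E) := h5
    rw [trees_pat hinj hEC] at h5'
    obtain ⟨S, hS, rfl⟩ := Finset.mem_image.1 h5'
    refine ⟨(S, j), ?_, rfl⟩
    refine Finset.mem_filter.2 ⟨Finset.mem_product.2 ⟨hS, h6⟩, ?_⟩
    obtain ⟨k1, -, k3⟩ := stpF_spec hinj hE hE' hS (Finset.mem_range.1 h6)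
    simp only at h4 ⊢
    rw [h4] at k3
    exact pat_inj hinj (((mem_trees.1 k1).1).trans hE') (((mem_trees.1 hT).1).trans hE') k3

end Pat

end Pool.Agent.U753.UF
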