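import Pool.Agent.TH968.UST.Defs

/-!
# Simple random walk: averages, hitting probabilities, Cesaro kernels
-/

namespace Pool.Agent.U753.UF

open Finset Pool.Agent.TH968.UST
open scoped ENNReal

variable {V : Type*}

/-- local finiteness -/
def LF (G : SimpleGraph V) : Prop := ∀ v, (G.neighborSet v).Finite

/-- the finite set of neighbours -/
noncomputable def nb {G : SimpleGraph V} (h : LF G) (v : V) : Finset V := (h v).toFinset

theorem mem_nb {G : SimpleGraph V} (h : LF G) {v w : V} : w ∈ nb h v ↔ G.Adj v w := by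
  simp [nb]

theorem avg_eq {G : SimpleGraph V} (h : LF G) (f : V → ℝ≥0∞) (v : V) :
    avg G f v = (∑ w ∈ nb h v, f w) / ((nb h v).card : ℝ≥0∞) := by
  classical
  have key : ∀ g : V → ℝ≥0∞, (∑' w, if G.Adj v w then g w else 0) = ∑ w ∈ nb h v, g w := by
    intro g
    rw [tsum_eq_sum (s := nb h v) (fun w hw => if_neg (fun k => hw ((mem_nb h).2 k)))]
    exact Finset.sum_congr rfl fun w hw => if_pos ((mem_nb h).1 hw)
  unfold avg
  have h1 := key f
  have h2 := key (fun _ => 1)
  have e1 : (∑' w, @ite ℝ≥0∞ (G.Adj v w) (Classical.propDecidable _) (f w) 0) =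
      ∑ w ∈ nb h v, f w := by
    rw [← h1]
  have e2 : (∑' w, @ite ℝ≥0∞ (G.Adj v w) (Classical.propDecidable _) 1 0) =
      ((nb h v).card : ℝ≥0∞) := by
    rw [h2]; simp
  rw [e1, e2]

theorem avg_mono (G : SimpleGraph V) {f g : V → ℝ≥0∞} (h : ∀ v, f v ≤ g v) (v : V) :
    avg G f v ≤ avg G g v := by
  unfold avg
  refine ENNReal.div_le_div_right (ENNReal.tsum_le_tsum fun w => ?_) _
  split_ifs
  · exact h w
  · exact le_rfl

theorem avg_add (G : SimpleGraph V) (f g : V → ℝ≥0∞) (v : V) :
    avg G (fun v => f v + g v) v = avg G f v + avg G g v := by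
  unfold avg
  rw [← ENNReal.add_div, ← ENNReal.tsum_add]
  congr 1
  refine tsum_congr fun w => ?_
  split_ifs <;> simp

theorem avg_mul (G : SimpleGraph V) (c : ℝ≥0∞) (f : V → ℝ≥0∞) (v : V) :
    avg G (fun v => c * f v) v = c * avg G f v := by
  unfold avg
  rw [← mul_div_assoc, ← ENNReal.tsum_mul_left]
  congr 1
  refine tsum_congr fun w => ?_
  split_ifs <;> simp

theorem avg_tsum {ι : Type*} (G : SimpleGraph V) (f : ι → V → ℝ≥0∞) (v : V) :
    avg G (fun v => ∑' i, f i v) v = ∑' i, avg G (f i) v := by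
  unfold avg
  simp only [div_eq_mul_inv]
  rw [ENNReal.tsum_mul_right, ENNReal.tsum_comm]
  congr 1
  refine tsum_congr fun w => ?_
  split_ifs <;> simp

theorem avg_sum {ι : Type*} (G : SimpleGraph V) (s : Finset ι) (f : ι → V → ℝ≥0∞) (v : V) :
    avg G (fun v => ∑ i ∈ s, f i v) v = ∑ i ∈ s, avg G (f i) v := by
  classical
  induction s using Finset.induction_on with
  | empty => simp [avg]
  | insert a s ha ih =>
    simp only [Finset.sum_insert ha]
    rw [avg_add, ih]

theorem avg_const_le (G : SimpleGraph V) (c : ℝ≥0∞) (v : V) : avg G (fun _ => c) v ≤ c := by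
  unfold avg
  refine ENNReal.div_le_of_le_mul ?_
  rw [← ENNReal.tsum_mul_left]
  refine ENNReal.tsum_le_tsum fun w => ?_
  split_ifs <;> simp

theorem avg_const {G : SimpleGraph V} (h : LF G) (c : ℝ≥0∞) {v : V} (hv : ∃ w, G.Adj v w) :
    avg G (fun _ => c) v = c := by
  rw [avg_eq h, Finset.sum_const, nsmul_eq_mul, mul_comm]
  refine ENNReal.mul_div_cancel_right ?_ (ENNReal.natCast_ne_top _)
  obtain ⟨w, hw⟩ := hv
  have : 0 < (nb h v).card := Finset.card_pos.2 ⟨w, (mem_nb h).2 hw⟩
  exact_mod_cast this.ne'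

/-- iterated averages -/
noncomputable def itA (G : SimpleGraph V) (φ : V → ℝ≥0∞) : ℕ → V → ℝ≥0∞
  | 0 => φ
  | n + 1 => avg G (itA G φ n)

/-- sums of iterated averages -/
noncomputable def FS (G : SimpleGraph V) (φ : V → ℝ≥0∞) (n : ℕ) (x : V) : ℝ≥0∞ :=
  ∑ j ∈ range n, itA G φ j x

theorem itA_le_one (G : SimpleGraph V) {φ : V → ℝ≥0∞} (h : ∀ v, φ v ≤ 1) (n : ℕ) (v : V) :
    itA G φ n v ≤ 1 := by
  induction n generalizing v with
  | zero => exact h v
  | succ n ih => exact (avg_mono G ih v).trans (avg_const_le G 1 v)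

theorem FS_le (G : SimpleGraph V) {φ : V → ℝ≥0∞} (h : ∀ v, φ v ≤ 1) (n : ℕ) (v : V) :
    FS G φ n v ≤ n := by
  unfold FS
  calc ∑ j ∈ range n, itA G φ j v ≤ ∑ j ∈ range n, 1 := Finset.sum_le_sum fun j _ => itA_le_one G h j v
    _ = n := by simp

theorem FS_step (G : SimpleGraph V) {φ : V → ℝ≥0∞} (h : ∀ v, φ v ≤ 1) (n : ℕ) (v : V) :
    FS G φ n v ≤ 1 + avg G (FS G φ n) v := by
  have h1 : FS G φ n v ≤ FS G φ (n + 1) v := by
    unfold FS
    rw [Finset.sum_range_succ]
    exact le_self_add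
  have h2 : FS G φ (n + 1) v = φ v + avg G (FS G φ n) v := by
    unfold FS
    rw [Finset.sum_range_succ', avg_sum, add_comm]
    rfl
  rw [h2] at h1
  exact h1.trans (add_le_add_left (h v) _)

/-- the coupling inequality -/
theorem FS_hit (G : SimpleGraph V) {φ : V → ℝ≥0∞} (h : ∀ v, φ v ≤ 1) (n : ℕ) (y : V) (m : ℕ) :
    ∀ x, FS G φ n x + n * hit G y m x ≤ FS G φ n y + m + n := by
  induction m with
  | zero =>
    intro x
    unfold hit
    split_ifs with hx
    · rw [hx]; simp
    · have := FS_le G h n x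
      simp only [mul_zero, add_zero, Nat.cast_zero]
      exact this.trans le_add_self
  | succ m ih =>
    intro x
    unfold hit
    split_ifs with hx
    · rw [hx, mul_one, add_assoc]
      exact add_le_add_right le_add_self _
    · have h1 := FS_step G h n x
      calc FS G φ n x + n * avg G (hit G y m) x
          ≤ (1 + avg G (FS G φ n) x) + n * avg G (hit G y m) x := add_le_add_left h1 _
        _ = 1 + avg G (fun v => FS G φ n v + n * hit G y m v) x := by
            rw [avg_add, avg_mul, add_assoc]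
        _ ≤ 1 + (FS G φ n y + m + n) := by
            refine add_le_add_right ?_ _
            exact (avg_mono G ih x).trans (avg_const_le G _ x)
        _ = _ := by push_cast; ring

theorem hit_le_one (G : SimpleGraph V) (o : V) (n : ℕ) : ∀ v, hit G o n v ≤ 1 := by
  induction n with
  | zero => intro v; unfold hit; split_ifs <;> simp
  | succ n ih =>
    intro v; unfold hit; split_ifs
    · exact le_rfl
    · exact (avg_mono G ih v).trans (avg_const_le G 1 v)

theorem hit_self (G : SimpleGraph V) (o : V) (n : ℕ) : hit G o n o = 1 := by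
  cases n <;> simp [hit]

theorem hit_mono (G : SimpleGraph V) (o : V) (n : ℕ) : ∀ v, hit G o n v ≤ hit G o (n + 1) v := by
  induction n with
  | zero =>
    intro v
    by_cases hv : v = o
    · rw [hv, hit_self, hit_self]
    · simp [hit, hv]
  | succ n ih =>
    intro v
    by_cases hv : v = o
    · rw [hv, hit_self, hit_self]
    · rw [hit, if_neg hv, hit, if_neg hv]
      exact avg_mono G ih v

theorem avg_iSup {G : SimpleGraph V} (h : LF G) (f : ℕ → V → ℝ≥0∞)
    (hf : ∀ v, Monotone fun n => f n v) (v : V) :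
    avg G (fun v => ⨆ n, f n v) v = ⨆ n, avg G (f n) v := by
  simp only [avg_eq h]
  rw [← ENNReal.iSup_div, ENNReal.finsetSum_iSup_of_monotone]
  intro w; exact hf w

/-- in a connected recurrent graph every vertex is hit -/
theorem hit_one {G : SimpleGraph V} (h : LF G) (hc : G.Connected) (hr : Recurrent G) (o x : V) :
    ⨆ n, hit G o n x = 1 := by
  classical
  have hmono : ∀ v, Monotone fun n => hit G o n v :=
    fun v => monotone_nat_of_le_succ fun n => hit_mono G o n v
  have hle : ∀ v, ⨆ n, hit G o n v ≤ 1 := fun v => iSup_le fun n => hit_le_one G o n v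
  have step : ∀ v w, G.Adj v w → avg G (fun v => ⨆ n, hit G o n v) v = 1 →
      ⨆ n, hit G o n w = 1 := by
    intro v w hvw hv
    by_contra hne
    have hlt : ⨆ n, hit G o n w < 1 := lt_of_le_of_ne (hle w) hne
    rw [avg_eq h] at hv
    have hw := (mem_nb h).2 hvw
    have hcard : (0 : ℝ≥0∞) < ((nb h v).card : ℝ≥0∞) := by
      exact_mod_cast Finset.card_pos.2 ⟨w, hw⟩
    have h1 : ∑ w ∈ nb h v, ⨆ n, hit G o n w = ((nb h v).card : ℝ≥0∞) := by
      exact (ENNReal.div_eq_one_iff hcard.ne' (ENNReal.natCast_ne_top _)).1 hv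
    have h2 : ∑ u ∈ nb h v, ⨆ n, hit G o n u < ∑ u ∈ nb h v, (1 : ℝ≥0∞) := by
      rw [← Finset.add_sum_erase _ _ hw, ← Finset.add_sum_erase _ (fun _ => (1 : ℝ≥0∞)) hw]
      refine ENNReal.add_lt_add_of_lt_of_le ?_ hlt (Finset.sum_le_sum fun u _ => hle u)
      refine ne_top_of_le_ne_top ?_ (Finset.sum_le_sum fun u _ => hle u)
      simp
    rw [h1] at h2
    simp at h2
  have key : ∀ v w, G.Adj v w → ⨆ n, hit G o n v = 1 → ⨆ n, hit G o n w = 1 := by
    intro v w hvw hv
    refine step v w hvw ?_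
    rw [avg_iSup h _ hmono]
    by_cases hvo : v = o
    · rw [hvo]
      exact hr o ⟨w, hvo ▸ hvw⟩
    · rw [← hv]
      apply le_antisymm
      · refine iSup_le fun n => ?_
        refine le_trans ?_ (le_iSup _ (n + 1))
        rw [hit, if_neg hvo]
      · refine iSup_le fun n => ?_
        refine le_trans (hit_mono G o n v) ?_
        rw [hit, if_neg hvo]
        exact le_iSup (fun n => avg G (hit G o n) v) n
  obtain ⟨p⟩ := hc.preconnected o x
  have ho : ⨆ n, hit G o n o = 1 := by simp [hit_self]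
  have : ∀ (u v : V) (p : G.Walk u v), ⨆ n, hit G o n u = 1 → ⨆ n, hit G o n v = 1 := by
    intro u v p
    induction p with
    | nil => exact id
    | cons hadj p ih => exact fun hu => ih (key _ _ hadj hu)
  exact this o x p ho

/-- point mass -/
noncomputable def dl (s : V) : V → ℝ≥0∞ := by
  classical exact fun v => if v = s then 1 else 0

/-- the Cesaro kernel -/
noncomputable def KC (G : SimpleGraph V) (n : ℕ) (x s : V) : ℝ≥0∞ := FS G (dl s) n x / n

theorem tsum_sub' {ι : Type*} {f g : ι → ℝ≥0∞} (h₁ : ∑' i, g i ≠ ⊤) (h₂ : ∀ i, g i ≤ f i) :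
    ∑' i, (f i - g i) = ∑' i, f i - ∑' i, g i := by
  have h3 : ∀ i, f i - g i + g i = f i := fun i => tsub_add_cancel_of_le (h₂ i)
  exact ENNReal.eq_sub_of_add_eq h₁ <| by simp only [← ENNReal.tsum_add, h3]

theorem itA_tsum (G : SimpleGraph V) (c : V → ℝ≥0∞) (n : ℕ) : ∀ x,
    ∑' s, c s * itA G (dl s) n x = itA G c n x := by
  induction n with
  | zero =>
    intro x
    show ∑' s, c s * dl s x = c x
    rw [tsum_eq_single x]
    · simp [dl]
    · intro s hs
      simp [dl, hs.symm]
  | succ n ih =>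
    intro x
    show ∑' s, c s * avg G (itA G (dl s) n) x = avg G (itA G c n) x
    have : itA G c n = fun v => ∑' s, c s * itA G (dl s) n v := by
      funext v; exact (ih v).symm
    rw [this, avg_tsum]
    refine tsum_congr fun s => ?_
    rw [avg_mul]

theorem FS_tsum (G : SimpleGraph V) (c : V → ℝ≥0∞) (n : ℕ) (x : V) :
    ∑' s, c s * FS G (dl s) n x = FS G c n x := by
  unfold FS
  simp only [Finset.mul_sum]
  rw [Summable.tsum_finsetSum (fun _ _ => ENNReal.summable)]
  exact Finset.sum_congr rfl fun j _ => itA_tsum G c j x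

theorem itA_one {G : SimpleGraph V} (h : LF G) (hi : ∀ v, ∃ w, G.Adj v w) (n : ℕ) : ∀ x,
    itA G (fun _ => 1) n x = 1 := by
  induction n with
  | zero => intro x; rfl
  | succ n ih =>
    intro x
    show avg G (itA G (fun _ => 1) n) x = 1
    have : itA G (fun _ => 1) n = fun _ => 1 := funext ih
    rw [this, avg_const h 1 (hi x)]

theorem KC_sum {G : SimpleGraph V} (h : LF G) (hi : ∀ v, ∃ w, G.Adj v w) {n : ℕ} (hn : n ≠ 0)
    (x : V) : ∑' s, KC G n x s = 1 := by
  unfold KC
  simp only [div_eq_mul_inv]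
  rw [ENNReal.tsum_mul_right]
  have h1 := FS_tsum G (fun _ => 1) n x
  simp only [one_mul] at h1
  rw [h1]
  have h2 : FS G (fun _ => 1) n x = n := by
    unfold FS
    rw [Finset.sum_congr rfl fun j _ => itA_one h hi j x]
    simp
  rw [h2, ENNReal.mul_inv_cancel (by exact_mod_cast hn) (ENNReal.natCast_ne_top _)]

theorem KC_le_one (G : SimpleGraph V) (n : ℕ) (x s : V) : KC G n x s ≤ 1 := by
  unfold KC
  refine ENNReal.div_le_of_le_mul ?_
  rw [one_mul]
  refine FS_le G (fun v => ?_) n x
  unfold dl; split_ifs <;> simp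

/-- total variation bound -/
theorem KC_tv (G : SimpleGraph V) {n : ℕ} (hn : n ≠ 0) (m : ℕ) (x y : V) :
    ∑' s, (KC G n x s - KC G n y s) ≤ (m : ℝ≥0∞) / n + (1 - hit G y m x) := by
  classical
  have hn0 : (n : ℝ≥0∞) ≠ 0 := by exact_mod_cast hn
  have hnt : (n : ℝ≥0∞) ≠ ⊤ := ENNReal.natCast_ne_top _
  let c : V → ℝ≥0∞ := fun s => if KC G n y s ≤ KC G n x s then 1 else 0
  have hc : ∀ s, c s ≤ 1 := fun s => by simp only [c]; split_ifs <;> simp
  have h1 := FS_hit G hc n y m x
  have hF : ∀ z, ∑' s, c s * KC G n z s = FS G c n z / n := by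
    intro z
    unfold KC
    rw [← FS_tsum G c n z]
    simp only [div_eq_mul_inv]
    rw [← ENNReal.tsum_mul_right]
    refine tsum_congr fun s => ?_
    rw [mul_assoc]
  have h2 : FS G c n x / n + hit G y m x ≤ FS G c n y / n + (m : ℝ≥0∞) / n + 1 := by
    have h3 := ENNReal.div_le_div_right h1 (n : ℝ≥0∞)
    rw [ENNReal.add_div, ENNReal.add_div, ENNReal.add_div, ENNReal.div_self hn0 hnt,
      mul_comm, ENNReal.mul_div_cancel_right hn0 hnt] at h3
    exact h3
  have hy : FS G c n y / n ≤ 1 := by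
    refine ENNReal.div_le_of_le_mul ?_
    rw [one_mul]; exact FS_le G hc n y
  have h4 : ∑' s, (KC G n x s - KC G n y s) = ∑' s, (c s * KC G n x s - c s * KC G n y s) := by
    refine tsum_congr fun s => ?_
    simp only [c]
    split_ifs with hs
    · simp
    · rw [tsub_eq_zero_of_le (le_of_not_ge hs)]; simp
  rw [h4, tsum_sub']
  · rw [hF, hF, tsub_le_iff_left]
    have h5 : hit G y m x ≤ 1 := hit_le_one G y m x
    have h6 : FS G c n x / n ≤ (FS G c n y / n + (m : ℝ≥0∞) / n + 1) - hit G y m x :=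
      ENNReal.le_sub_of_add_le_right (ne_top_of_le_ne_top ENNReal.one_ne_top h5) h2
    refine h6.trans ?_
    rw [← add_assoc]
    exact add_tsub_le_assoc
  · rw [hF]; exact ne_top_of_le_ne_top ENNReal.one_ne_top hy
  · intro s
    simp only [c]
    split_ifs with hs
    · simpa using hs
    · simp

theorem KC_tendsto {G : SimpleGraph V} (h : LF G) (hc : G.Connected) (hr : Recurrent G)
    (x y : V) : Filter.Tendsto (fun n => ∑' s, (KC G n x s - KC G n y s)) Filter.atTop
      (nhds 0) := by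
  rw [ENNReal.tendsto_nhds_zero]
  intro ε hε
  have h1 := hit_one h hc hr y x
  obtain ⟨m, hm⟩ : ∃ m, 1 - hit G y m x ≤ ε / 2 := by
    by_contra hcon
    push Not at hcon
    have h2 : ∀ m, hit G y m x ≤ 1 - ε / 2 := by
      intro m
      have h3 := hcon m
      have h4 : ε / 2 ≤ 1 := h3.le.trans tsub_le_self
      refine ENNReal.le_sub_of_add_le_right (ne_top_of_le_ne_top ENNReal.one_ne_top h4) ?_
      have h5 := lt_tsub_iff_left.1 h3
      exact h5.le
    have h6 : ⨆ n, hit G y n x ≤ 1 - ε / 2 := iSup_le h2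
    rw [h1] at h6
    have h7 : 1 - ε / 2 < 1 := ENNReal.sub_lt_self ENNReal.one_ne_top one_ne_zero
      (ENNReal.half_pos hε.ne').ne'
    exact absurd h6 (not_le.2 h7)
  have h8 : Filter.Tendsto (fun n : ℕ => (m : ℝ≥0∞) / n) Filter.atTop (nhds 0) := by
    have := ENNReal.Tendsto.const_div (a := (m : ℝ≥0∞)) ENNReal.tendsto_nat_nhds_top
      (Or.inr (ENNReal.natCast_ne_top m))
    simpa using this
  have h9 := (ENNReal.tendsto_nhds_zero.1 h8) (ε / 2) (ENNReal.half_pos hε.ne')
  filter_upwards [h9, Filter.eventually_ne_atTop 0] with n hn hn0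
  calc _ ≤ (m : ℝ≥0∞) / n + (1 - hit G y m x) := KC_tv G hn0 m x y
    _ ≤ ε / 2 + ε / 2 := add_le_add hn hm
    _ = ε := ENNReal.add_halves ε

/-- finiteness of the support -/
theorem itA_supp {G : SimpleGraph V} (h : LF G) (s : V) (n : ℕ) :
    {x | itA G (dl s) n x ≠ 0}.Finite := by
  induction n with
  | zero =>
    refine (Set.finite_singleton s).subset ?_
    intro x hx
    by_contra hne
    have hne' : ¬ x = s := hne
    exact hx (by simp [itA, dl, hne'])
  | succ n ih =>
    refine (ih.biUnion (t := fun w => G.neighborSet w) fun w _ => h w).subset ?_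
    intro x hx
    have hx' : avg G (itA G (dl s) n) x ≠ 0 := hx
    rw [avg_eq h] at hx'
    have h1 : ∑ w ∈ nb h x, itA G (dl s) n w ≠ 0 := by
      intro h0; rw [h0] at hx'; simp at hx'
    obtain ⟨w, hw, hw2⟩ := Finset.exists_ne_zero_of_sum_ne_zero h1
    exact Set.mem_biUnion (x := w) hw2 ((mem_nb h).1 hw).symm

theorem KC_supp {G : SimpleGraph V} (h : LF G) (s : V) (n : ℕ) :
    {x | KC G n x s ≠ 0}.Finite := by
  have : {x | KC G n x s ≠ 0} ⊆ ⋃ j ∈ (range n : Set ℕ), {x | itA G (dl s) j x ≠ 0} := by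
    intro x hx
    have h1 : FS G (dl s) n x ≠ 0 := by
      intro h0; apply hx; unfold KC; rw [h0]; simp
    obtain ⟨j, hj, hj2⟩ := Finset.exists_ne_zero_of_sum_ne_zero h1
    exact Set.mem_biUnion (x := j) (by simpa using hj) hj2
  exact (Set.Finite.biUnion (Finset.finite_toSet _) fun j _ => itA_supp h s j).subset this

end Pool.Agent.U753.UF
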